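import Pool.Agent.H16.CC.Conj

/-!
# Cyclic cubic fields (helper16): the field `F = ℚ(ζ₃)`
-/

set_option autoImplicit false

namespace Pool.Agent.H16.CC

open NumberField IsDedekindDomain
open Pool.Agent.Q7.LK (Dp vl Lpw IsPow Cond AT Sy sy t_BAS t_HS2 t_CPL)

/-- the field `F = ℚ(ζ₃)`, with its conjugation, generators of the primes and Hilbert symbols -/
structure Ctx (F : Type) [Field F] [NumberField F] where
  ζ : F
  prim : IsPrimitiveRoot ζ 3
  σ : F ≃+* F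
  inv : ∀ x, σ (σ x) = x
  conj : σ ζ = ζ ^ 2
  lam : HeightOneSpectrum (𝓞 F)
  dlam : Dp 3 lam
  ulam : ∀ v, Dp 3 v → v = lam
  π : HeightOneSpectrum (𝓞 F) → F
  pv : ∀ v : HeightOneSpectrum (𝓞 F), v.valuation F (π v) = WithZero.exp (-1 : ℤ)
  pw : ∀ v w : HeightOneSpectrum (𝓞 F), w ≠ v → w.valuation F (π v) = 1
  unit : ∀ a : F, a ≠ 0 → (∀ v : HeightOneSpectrum (𝓞 F), vl 3 v a = 0) → ∃ j : ℕ, IsPow 3 (a * ζ ^ j)
  cls : ¬ 3 ∣ NumberField.classNumber F
  deg : Module.finrank ℚ F = 2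
  t : HeightOneSpectrum (𝓞 F) → F → F → ZMod 3
  anti : ∀ v a c, a ≠ 0 → c ≠ 0 → t v a c = - t v c a
  tmul : ∀ v a b c, a ≠ 0 → b ≠ 0 → c ≠ 0 → t v (a * b) c = t v a c + t v b c
  tsum : ∀ a c, a ≠ 0 → c ≠ 0 → {v | t v a c ≠ 0}.Finite ∧ ∑ᶠ v, t v a c = 0
  tpow : ∀ v a c, Lpw 3 v a → c ≠ 0 → t v a c = 0
  tame : ∀ v, ¬ Dp 3 v → ∀ c, c ≠ 0 → vl 3 v c = 0 → ∀ a, a ≠ 0 → t v a c = vl 3 v a * sy 3 ζ v c

section

variable {F : Type} [Field F] [NumberField F]

/-- a nonzero number whose orders are all divisible by `3` is a cube up to a unit, if the class number is one -/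
theorem cube_of_val [IsPrincipalIdealRing (𝓞 F)] (a : F) (ha : a ≠ 0)
    (h : ∀ v : HeightOneSpectrum (𝓞 F), vl 3 v a = 0) :
    ∃ (u : (𝓞 F)ˣ) (b : F), a = ((u : 𝓞 F) : F) * b ^ 3 := by
  obtain ⟨x, y, hy, rfl⟩ := IsFractionRing.div_surjective (A := 𝓞 F) a
  have hy0 : y ≠ 0 := nonZeroDivisors.ne_zero hy
  have hyF : algebraMap (𝓞 F) F y ≠ 0 := by
    rwa [Ne, map_eq_zero_iff _ (FaithfulSMul.algebraMap_injective (𝓞 F) F)]
  have hx0 : x ≠ 0 := by
    rintro rfl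
    simp at ha
  have hxF : algebraMap (𝓞 F) F x ≠ 0 := by
    rwa [Ne, map_eq_zero_iff _ (FaithfulSMul.algebraMap_injective (𝓞 F) F)]
  set z : 𝓞 F := x * y ^ 2 with hz
  have hz0 : z ≠ 0 := mul_ne_zero hx0 (pow_ne_zero _ hy0)
  have hzv : ∀ v : HeightOneSpectrum (𝓞 F), (3 : ℕ) ∣
      (Associates.mk v.asIdeal).count (Associates.mk (Ideal.span {z})).factors := by
    intro v
    have h1 : vl 3 v (algebraMap (𝓞 F) F z) = 0 := by
      have h2 : algebraMap (𝓞 F) F z = (algebraMap (𝓞 F) F x / algebraMap (𝓞 F) F y) * (algebraMap (𝓞 F) F y) ^ 3 := by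
        rw [hz, map_mul, map_pow]
        field_simp
      have h3 := (t_BAS 3 F v).2.2.2.2.1 _ ((algebraMap (𝓞 F) F y) ^ 3) ha (pow_ne_zero _ hyF)
      rw [← h2] at h3
      rw [h3, h v, zero_add]
      unfold vl
      rw [map_pow]
      have h4 : (v.valuation F) (algebraMap (𝓞 F) F y) ≠ 0 := by
        rwa [Ne, Valuation.zero_iff]
      rw [WithZero.log_pow]
      push_cast
      have h5 : ((3 : ℕ) : ZMod 3) = 0 := by decide
      simp only [nsmul_eq_mul, Int.cast_mul]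
      rw [Int.cast_natCast, h5, zero_mul, neg_zero]
    unfold vl at h1
    rw [neg_eq_zero, HeightOneSpectrum.valuation_of_algebraMap, HeightOneSpectrum.intValuation_if_neg v hz0,
      WithZero.log_exp] at h1
    push_cast at h1
    rw [neg_eq_zero] at h1
    rwa [ZMod.natCast_eq_zero_iff] at h1
  have hspan : Associates.mk (Ideal.span {z}) ≠ 0 := by
    rw [Associates.mk_ne_zero]
    simpa using hz0
  obtain ⟨J, hJ⟩ := Associates.is_pow_of_dvd_count (k := 3) hspan (by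
    intro P hP
    obtain ⟨P, rfl⟩ := Associates.mk_surjective P
    have hP1 : Prime P := by
      rw [Associates.irreducible_mk] at hP
      exact hP.prime
    have hP0 : P ≠ ⊥ := hP1.ne_zero
    exact hzv ⟨P, Ideal.isPrime_of_prime hP1, hP0⟩)
  obtain ⟨J, rfl⟩ := Associates.mk_surjective J
  rw [← Associates.mk_pow, Associates.mk_eq_mk_iff_associated, associated_iff_eq] at hJ
  obtain ⟨b, hb⟩ := (IsPrincipalIdealRing.principal J).principal
  rw [← Ideal.span] at hb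
  rw [hb, Ideal.span_singleton_pow, Ideal.span_singleton_eq_span_singleton] at hJ
  obtain ⟨u, hu⟩ := hJ.symm
  refine ⟨u, algebraMap (𝓞 F) F b / algebraMap (𝓞 F) F y, ?_⟩
  have h6 : algebraMap (𝓞 F) F x * (algebraMap (𝓞 F) F y) ^ 2 =
      (algebraMap (𝓞 F) F b) ^ 3 * algebraMap (𝓞 F) F (u : 𝓞 F) := by
    rw [← map_pow, ← map_mul, ← map_pow, ← map_mul, hu]
  change _ = algebraMap (𝓞 F) F (u : 𝓞 F) * _
  field_simp
  linear_combination h6

theorem exists_conj [IsCyclotomicExtension {3} ℚ F] {ζ : F} (hζ : IsPrimitiveRoot ζ 3) :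
    ∃ σ : F ≃+* F, (∀ x, σ (σ x) = x) ∧ σ ζ = ζ ^ 2 := by
  have hgal : IsGalois ℚ F := IsCyclotomicExtension.isGalois {3} ℚ F
  have hζ2 : IsPrimitiveRoot (ζ ^ 2) 3 := hζ.pow_of_coprime 2 (by decide)
  have h1 : IsConjRoot ℚ ζ (ζ ^ 2) := by
    unfold IsConjRoot
    rw [← Polynomial.cyclotomic_eq_minpoly_rat hζ (by decide), ← Polynomial.cyclotomic_eq_minpoly_rat hζ2 (by decide)]
  obtain ⟨s, hs⟩ := isConjRoot_iff_exists_algEquiv.mp h1
  have hs' : s.symm ζ = ζ ^ 2 := by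
    rw [AlgEquiv.symm_apply_eq]
    exact hs.symm
  refine ⟨(s.symm : F ≃+* F), fun x => ?_, hs'⟩
  have h3 : (s.symm : F →ₐ[ℚ] F).comp (s.symm : F →ₐ[ℚ] F) = AlgHom.id ℚ F := by
    refine (hζ.powerBasis ℚ).algHom_ext ?_
    rw [IsPrimitiveRoot.powerBasis_gen]
    change s.symm (s.symm ζ) = ζ
    rw [hs', map_pow, hs', ← pow_mul]
    calc ζ ^ (2 * 2) = ζ ^ 3 * ζ := by ring
      _ = ζ := by rw [hζ.pow_eq_one, one_mul]
  exact DFunLike.congr_fun h3 x

theorem three_eq {ζ : F} (hζ : IsPrimitiveRoot ζ 3) : (hζ.toInteger - 1) ^ 2 = -3 * hζ.toInteger := by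
  have h : hζ.toInteger ^ 2 + hζ.toInteger + 1 = 0 := IsCyclotomicExtension.Rat.Three.eta_sq_add_eta_add_one hζ
  linear_combination h

theorem exists_lam [IsCyclotomicExtension {3} ℚ F] {ζ : F} (hζ : IsPrimitiveRoot ζ 3) :
    ∃ lam : HeightOneSpectrum (𝓞 F), Dp 3 lam ∧ ∀ v, Dp 3 v → v = lam := by
  have hp : Prime (hζ.toInteger - 1) := by
    have : Fact (Nat.Prime 3) := ⟨Nat.prime_three⟩
    exact hζ.zeta_sub_one_prime'
  have hu : IsUnit hζ.toInteger := (hζ.toInteger_isPrimitiveRoot).isUnit (by decide)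
  have h3 := three_eq hζ
  refine ⟨⟨Ideal.span {hζ.toInteger - 1}, (Ideal.span_singleton_prime hp.ne_zero).mpr hp, ?_⟩, ?_, ?_⟩
  · rw [Ne, Ideal.span_singleton_eq_bot]
    exact hp.ne_zero
  · unfold Dp
    change ((3 : ℕ) : 𝓞 F) ∈ Ideal.span {hζ.toInteger - 1}
    have h4 : (-3 * hζ.toInteger) ∈ Ideal.span {hζ.toInteger - 1} := by
      rw [← h3]
      exact Ideal.pow_mem_of_mem _ (Ideal.mem_span_singleton_self _) 2 (by norm_num)
    rw [Ideal.mul_unit_mem_iff_mem _ hu] at h4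
    have h5 := (Ideal.neg_mem_iff _).mpr h4
    rw [neg_neg] at h5
    exact_mod_cast h5
  · intro v hv
    have h4 : (hζ.toInteger - 1) ∈ v.asIdeal := by
      refine v.isPrime.mem_of_pow_mem 2 ?_
      rw [h3]
      refine Ideal.mul_mem_right _ _ ?_
      rw [Ideal.neg_mem_iff]
      exact_mod_cast hv
    have hle : Ideal.span {hζ.toInteger - 1} ≤ v.asIdeal := by
      rwa [Ideal.span_singleton_le_iff_mem]
    have hmax : (Ideal.span {hζ.toInteger - 1}).IsMaximal :=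
      ((Ideal.span_singleton_prime hp.ne_zero).mpr hp).isMaximal (by
        rw [Ne, Ideal.span_singleton_eq_bot]
        exact hp.ne_zero)
    ext1
    exact (hmax.eq_of_le v.isPrime.ne_top hle).symm

theorem exists_gen [IsPrincipalIdealRing (𝓞 F)] (v : HeightOneSpectrum (𝓞 F)) :
    ∃ π : F, v.valuation F π = WithZero.exp (-1 : ℤ) ∧
      ∀ w : HeightOneSpectrum (𝓞 F), w ≠ v → w.valuation F π = 1 := by
  obtain ⟨b, hb⟩ := (IsPrincipalIdealRing.principal v.asIdeal).principal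
  rw [← Ideal.span] at hb
  have hb0 : b ≠ 0 := by
    rintro rfl
    apply v.ne_bot
    rw [hb]
    simp
  refine ⟨algebraMap (𝓞 F) F b, ?_, ?_⟩
  · rw [HeightOneSpectrum.valuation_of_algebraMap]
    exact HeightOneSpectrum.intValuation_singleton v hb0 hb
  · intro w hw
    rw [HeightOneSpectrum.valuation_of_algebraMap, HeightOneSpectrum.intValuation_eq_one_iff]
    intro hmem
    apply hw
    have hle : v.asIdeal ≤ w.asIdeal := by
      rw [hb, Ideal.span_singleton_le_iff_mem]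
      exact hmem
    ext1
    exact (v.isMaximal.eq_of_le w.isPrime.ne_top hle).symm

theorem unit_cube [IsCyclotomicExtension {3} ℚ F] {ζ : F} (hζ : IsPrimitiveRoot ζ 3) (u : (𝓞 F)ˣ) :
    ∃ j : ℕ, IsPow 3 (((u : 𝓞 F) : F) * ζ ^ j) := by
  have h3 : ζ ^ 3 = 1 := hζ.pow_eq_one
  have h := IsCyclotomicExtension.Rat.Three.Units.mem hζ u
  have hη : (((IsPrimitiveRoot.isUnit (hζ.toInteger_isPrimitiveRoot) (by decide)).unit : 𝓞 F) : F) = ζ := rfl
  simp only [List.mem_cons, List.not_mem_nil, or_false] at h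
  rcases h with h | h | h | h | h | h
  · exact ⟨0, 1, by rw [h]; simp⟩
  · exact ⟨0, -1, by rw [h]; simp; norm_num⟩
  · exact ⟨2, 1, by rw [h, hη]; linear_combination h3⟩
  · have h' : ((u : 𝓞 F) : F) = - ζ := by rw [h]; rfl
    exact ⟨2, -1, by rw [h']; linear_combination -h3⟩
  · have h' : ((u : 𝓞 F) : F) = ζ ^ 2 := by rw [h]; rfl
    exact ⟨1, 1, by rw [h']; linear_combination h3⟩
  · have h' : ((u : 𝓞 F) : F) = - ζ ^ 2 := by rw [h]; rfl
    exact ⟨1, -1, by rw [h']; linear_combination -h3⟩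

theorem exists_ctx [IsCyclotomicExtension {3} ℚ F] {ζ : F} (hζ : IsPrimitiveRoot ζ 3) :
    ∃ c : Ctx F, c.ζ = ζ := by
  have : Fact (Nat.Prime 3) := ⟨Nat.prime_three⟩
  have hpid : IsPrincipalIdealRing (𝓞 F) := IsCyclotomicExtension.Rat.three_pid F
  obtain ⟨σ, hσ1, hσ2⟩ := exists_conj hζ
  obtain ⟨lam, hl1, hl2⟩ := exists_lam hζ
  choose π hπ1 hπ2 using exists_gen (F := F)
  obtain ⟨t, ht1, ht2, ht3, ht4, ht5, -⟩ := t_HS2 3 (by decide) F ζ hζ
  refine ⟨⟨ζ, hζ, σ, hσ1, hσ2, lam, hl1, hl2, π, hπ1, hπ2, ?_, ?_, ?_, t, ht1, ht2, ht3, ht4, ht5⟩, rfl⟩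
  · intro a ha hv
    obtain ⟨u, b, hab⟩ := cube_of_val a ha hv
    obtain ⟨j, x, hx⟩ := unit_cube hζ u
    refine ⟨j, x * b, ?_⟩
    rw [mul_pow, ← hx, hab]
    ring
  · rw [NumberField.classNumber_eq_one_iff.mpr hpid]
    decide
  · rw [IsCyclotomicExtension.finrank (n := 3) F (Polynomial.cyclotomic.irreducible_rat (by decide))]
    decide

end

end Pool.Agent.H16.CC
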