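import Pool.Graph.R_pool_sql_team_seeded_3997aac3.Q283.SP.All

/-!
# Cyclic cubic fields (helper16): behaviour of the local notions under a field automorphism
-/

set_option autoImplicit false

namespace Pool.Agent.H16.CC

open NumberField IsDedekindDomain
open Pool.Agent.Q7.LK (Dp vl Lpw IsPow Cond AT Sy sy t_BAS)

variable {F : Type} [Field F] [NumberField F]

/-- the prime `σ v` -/
noncomputable def cj (σ : F ≃+* F) (v : HeightOneSpectrum (𝓞 F)) : HeightOneSpectrum (𝓞 F) :=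
  HeightOneSpectrum.equivOfRingEquiv (RingOfIntegers.mapRingEquiv σ) v

theorem cj_asIdeal (σ : F ≃+* F) (v : HeightOneSpectrum (𝓞 F)) :
    (cj σ v).asIdeal = v.asIdeal.map (RingOfIntegers.mapRingEquiv σ) := by
  exact Ideal.comap_symm (RingOfIntegers.mapRingEquiv σ)

theorem mem_cj_pow (σ : F ≃+* F) (v : HeightOneSpectrum (𝓞 F)) (x : 𝓞 F) (n : ℕ) :
    RingOfIntegers.mapRingEquiv σ x ∈ (cj σ v).asIdeal ^ n ↔ x ∈ v.asIdeal ^ n := by
  rw [cj_asIdeal, ← Ideal.map_pow, Ideal.mem_map_of_equiv]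
  constructor
  · rintro ⟨y, hy, hyx⟩
    rwa [← (RingOfIntegers.mapRingEquiv σ).injective hyx]
  · intro hx
    exact ⟨x, hx, rfl⟩

theorem mem_cj (σ : F ≃+* F) (v : HeightOneSpectrum (𝓞 F)) (x : 𝓞 F) :
    RingOfIntegers.mapRingEquiv σ x ∈ (cj σ v).asIdeal ↔ x ∈ v.asIdeal := by
  have h := mem_cj_pow σ v x 1
  rwa [pow_one, pow_one] at h

theorem intVal_cj (σ : F ≃+* F) (v : HeightOneSpectrum (𝓞 F)) (x : 𝓞 F) :
    (cj σ v).intValuation (RingOfIntegers.mapRingEquiv σ x) = v.intValuation x := by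
  rcases eq_or_ne x 0 with rfl | hx
  · rw [map_zero, map_zero, map_zero]
  have hx' : RingOfIntegers.mapRingEquiv σ x ≠ 0 := by
    rwa [Ne, map_eq_zero_iff _ (RingOfIntegers.mapRingEquiv σ).injective]
  have key : ∀ n : ℕ, (cj σ v).intValuation (RingOfIntegers.mapRingEquiv σ x) ≤ WithZero.exp (-(n : ℤ)) ↔
      v.intValuation x ≤ WithZero.exp (-(n : ℤ)) := by
    intro n
    rw [HeightOneSpectrum.intValuation_le_pow_iff_mem, HeightOneSpectrum.intValuation_le_pow_iff_mem]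
    exact mem_cj_pow σ v x n
  have e1 := HeightOneSpectrum.intValuation_if_neg (cj σ v) hx'
  have e2 := HeightOneSpectrum.intValuation_if_neg v hx
  refine le_antisymm ?_ ?_
  · rw [e2]
    rw [key]
    exact e2.le
  · rw [e1, ← key]
    exact e1.le

theorem val_cj (σ : F ≃+* F) (v : HeightOneSpectrum (𝓞 F)) (a : F) :
    (cj σ v).valuation F (σ a) = v.valuation F a := by
  obtain ⟨x, y, hy, rfl⟩ := IsFractionRing.div_surjective (A := 𝓞 F) a
  have h1 : ∀ z : 𝓞 F, σ (algebraMap (𝓞 F) F z) = algebraMap (𝓞 F) F (RingOfIntegers.mapRingEquiv σ z) :=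
    fun z => rfl
  rw [map_div₀, map_div₀, map_div₀, h1, h1, HeightOneSpectrum.valuation_of_algebraMap,
    HeightOneSpectrum.valuation_of_algebraMap, HeightOneSpectrum.valuation_of_algebraMap,
    HeightOneSpectrum.valuation_of_algebraMap, intVal_cj, intVal_cj]

theorem cj_cj (σ : F ≃+* F) (hσ : ∀ x, σ (σ x) = x) (v : HeightOneSpectrum (𝓞 F)) : cj σ (cj σ v) = v := by
  ext x
  have h1 : x = RingOfIntegers.mapRingEquiv σ (RingOfIntegers.mapRingEquiv σ x) := by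
    apply RingOfIntegers.ext
    exact (hσ x).symm
  constructor
  · intro hx
    rw [h1, mem_cj, mem_cj] at hx
    exact hx
  · intro hx
    rw [h1, mem_cj, mem_cj]
    exact hx

theorem dp_cj (σ : F ≃+* F) (p : ℕ) (v : HeightOneSpectrum (𝓞 F)) : Dp p (cj σ v) ↔ Dp p v := by
  unfold Dp
  rw [← mem_cj σ v (p : 𝓞 F), map_natCast]

theorem vl_cj (σ : F ≃+* F) (p : ℕ) (v : HeightOneSpectrum (𝓞 F)) (a : F) : vl p (cj σ v) (σ a) = vl p v a := by
  unfold vl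
  rw [val_cj]

theorem lpw_cj (σ : F ≃+* F) (p : ℕ) (v : HeightOneSpectrum (𝓞 F)) (a : F) :
    Lpw p (cj σ v) (σ a) ↔ Lpw p v a := by
  unfold Lpw
  refine forall_congr' fun n => ?_
  constructor
  · rintro ⟨x, hx⟩
    refine ⟨σ.symm x, ?_⟩
    rw [← val_cj σ v]
    rw [map_sub, map_mul, map_pow, map_one, RingEquiv.apply_symm_apply]
    exact hx
  · rintro ⟨x, hx⟩
    refine ⟨σ x, ?_⟩
    rw [← map_pow, ← map_mul, ← map_one σ, ← map_sub, val_cj]
    exact hx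

theorem norm_cj (σ : F ≃+* F) (v : HeightOneSpectrum (𝓞 F)) :
    Ideal.absNorm (cj σ v).asIdeal = Ideal.absNorm v.asIdeal := by
  rw [cj_asIdeal, Ideal.absNorm_apply, Ideal.absNorm_apply, Submodule.cardQuot_apply, Submodule.cardQuot_apply]
  exact (Nat.card_congr (Ideal.quotientEquiv v.asIdeal _ (RingOfIntegers.mapRingEquiv σ) rfl).toEquiv).symm

theorem two_mul_val : ∀ s : ZMod 3, 2 * s.val = (-s).val + 3 * (2 * s.val / 3) := by decide

theorem sy_cj (σ : F ≃+* F) {ζ : F} (hζ : IsPrimitiveRoot ζ 3) (hσζ : σ ζ = ζ ^ 2)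
    (v : HeightOneSpectrum (𝓞 F)) (hv : ¬ Dp 3 v) (a : F) (ha : a ≠ 0) (hva : vl 3 v a = 0) :
    sy 3 ζ (cj σ v) (σ a) = - sy 3 ζ v a := by
  have : Fact (Nat.Prime 3) := ⟨Nat.prime_three⟩
  have hB := (t_BAS 3 F v).2.2.2.2.2.2 hv ζ hζ
  have hv' : ¬ Dp 3 (cj σ v) := by rwa [dp_cj]
  have hB' := (t_BAS 3 F (cj σ v)).2.2.2.2.2.2 hv' ζ hζ
  have ha' : σ a ≠ 0 := by rwa [Ne, map_eq_zero_iff _ σ.injective]
  have hva' : vl 3 (cj σ v) (σ a) = 0 := by rwa [vl_cj]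
  have h1 : Sy 3 ζ v a (sy 3 ζ v a) := (hB.2.1 a ha hva _).mpr rfl
  symm
  rw [← hB'.2.1 (σ a) ha' hva' (- sy 3 ζ v a)]
  obtain ⟨x, hx1, hx2⟩ := h1
  refine ⟨σ x, ?_, ?_⟩
  · rw [← map_pow, ← map_mul, val_cj]
    exact hx1
  · have h3 : ζ ^ (- sy 3 ζ v a).val = σ (ζ ^ (sy 3 ζ v a).val) := by
      rw [map_pow, hσζ, ← pow_mul]
      have hζ3 : ζ ^ 3 = 1 := hζ.pow_eq_one
      rw [two_mul_val, pow_add, pow_mul ζ 3, hζ3, one_pow, mul_one]
    rw [norm_cj, h3, ← map_pow, ← map_mul, ← map_pow, ← map_sub, val_cj]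
    exact hx2

end Pool.Agent.H16.CC
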