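import Pool.Agent.H16.CC.Sym2
import Pool.Graph.R_pool_sql_team_seeded_3997aac3.Q153.LK.ATL

/-!
# Cyclic cubic fields (helper16): the criterion
-/

set_option autoImplicit false

namespace Pool.Agent.H16.CC

open NumberField IsDedekindDomain
open Pool.Agent.Q7.LK (Dp vl Lpw IsPow Cond AT Sy sy mon t_BAS t_HS2 t_CPL)
open Pool.Agent.Q265.LK
open Pool.Agent.Q123.LK (Eqv eqv_refl eqv_symm eqv_trans eqv_mul eqv_inv eqv_pow eqv_prod eqv_one_of isPow_of)

variable {F : Type} [Field F] [NumberField F] (c : Ctx F)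

/-- the symbols of the primes `Q i` -/
noncomputable def tab {k : ℕ} (Q : Fin k → HeightOneSpectrum (𝓞 F)) (i l : Fin k) : ZMod 3 :=
  if l = i then sy 3 c.ζ (Q i) c.ζ else sy 3 c.ζ (Q i) (dd c (Q l))

/-- the matrix of the symbols with the row sums `- z κ_i` -/
def pm {k : ℕ} (z : ZMod 3) (τ : Fin k → Fin k → ZMod 3) (i l : Fin k) : ZMod 3 :=
  if l = i then -(z * τ i i + ∑ l' ∈ Finset.univ.erase i, τ i l') else τ i l

/-- the number `ζ^z ∏ d_l` -/
noncomputable def DD {k : ℕ} (z : ZMod 3) (Q : Fin k → HeightOneSpectrum (𝓞 F)) : F :=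
  c.ζ ^ z.val * ∏ l, dd c (Q l)

theorem prod_dd_ne {k : ℕ} (Q : Fin k → HeightOneSpectrum (𝓞 F)) (s : Finset (Fin k)) : ∏ l ∈ s, dd c (Q l) ≠ 0 :=
  Finset.prod_ne_zero_iff.mpr fun l _ => dd_ne c (Q l)

theorem DD_ne {k : ℕ} (z : ZMod 3) (Q : Fin k → HeightOneSpectrum (𝓞 F)) : DD c z Q ≠ 0 :=
  mul_ne_zero (pow_ne_zero _ (z_ne c)) (prod_dd_ne c Q _)

theorem conj_DD {k : ℕ} (z : ZMod 3) (Q : Fin k → HeightOneSpectrum (𝓞 F)) : c.σ (DD c z Q) = (DD c z Q)⁻¹ := by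
  unfold DD
  rw [map_mul, conj_pow_z, map_prod, mul_inv, ← Finset.prod_inv_distrib]
  congr 1
  exact Finset.prod_congr rfl fun l _ => conj_dd c (Q l)

theorem t_prod {ι : Type} (v : HeightOneSpectrum (𝓞 F)) (s : Finset ι) (u : ι → F) (hu : ∀ l, u l ≠ 0) {b : F}
    (hb : b ≠ 0) : c.t v (∏ l ∈ s, u l) b = ∑ l ∈ s, c.t v (u l) b := by
  classical
  induction s using Finset.induction_on with
  | empty => simpa using t_one c v hb
  | insert i s hi ih =>
    rw [Finset.prod_insert hi, Finset.sum_insert hi,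
      c.tmul v _ _ b (hu i) (Finset.prod_ne_zero_iff.2 fun l _ => hu l) hb, ih]

theorem t_prod' {ι : Type} (v : HeightOneSpectrum (𝓞 F)) (s : Finset ι) (u : ι → F) (hu : ∀ l, u l ≠ 0) {b : F}
    (hb : b ≠ 0) : c.t v b (∏ l ∈ s, u l) = ∑ l ∈ s, c.t v b (u l) := by
  rw [c.anti v _ _ hb (Finset.prod_ne_zero_iff.2 fun l _ => hu l), t_prod c v s u hu hb, ← Finset.sum_neg_distrib]
  exact Finset.sum_congr rfl fun l _ => (c.anti v b (u l) hb (hu l)).symm

theorem t_mon {k : ℕ} (v : HeightOneSpectrum (𝓞 F)) (u : Fin k → F) (hu : ∀ l, u l ≠ 0) (x : Fin k → ZMod 3) {b : F}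
    (hb : b ≠ 0) : c.t v (mon u x) b = ∑ l, x l * c.t v (u l) b := by
  unfold mon
  rw [t_prod c v _ _ (fun l => pow_ne_zero _ (hu l)) hb]
  refine Finset.sum_congr rfl fun l _ => ?_
  rw [t_pow c v (hu l) hb, ZMod.natCast_zmod_val]

theorem vl_prod' {ι : Type} (v : HeightOneSpectrum (𝓞 F)) (s : Finset ι) (u : ι → F) (hu : ∀ l, u l ≠ 0) :
    vl 3 v (∏ l ∈ s, u l) = ∑ l ∈ s, vl 3 v (u l) := by
  classical
  induction s using Finset.induction_on with
  | empty => simpa using vl_one t_BAS v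
  | insert i s hi ih =>
    rw [Finset.prod_insert hi, Finset.sum_insert hi,
      vl_mul t_BAS v (hu i) (Finset.prod_ne_zero_iff.2 fun l _ => hu l), ih]

theorem eqv_pow_one {a : F} (ha : a ≠ 0) {n : ℕ} (h : (n : ZMod 3) = 0) : Eqv 3 (a ^ n) 1 := by
  rw [ZMod.natCast_eq_zero_iff] at h
  obtain ⟨m, rfl⟩ := h
  exact ⟨a ^ m, pow_ne_zero m ha, by rw [one_mul, ← pow_mul, mul_comm]⟩

theorem cj_lam : cj c.σ c.lam = c.lam := c.ulam _ ((dp_cj c.σ 3 c.lam).mpr c.dlam)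

/-- a root of unity of `3`-power order in the completion at the prime above `3` is a power of `ζ` -/
theorem root_cases (m : ℕ) : ∀ ξ : c.lam.adicCompletion F, ξ ^ 3 ^ m = 1 →
    ∃ j : ℕ, ξ = algebraMap F (c.lam.adicCompletion F) (c.ζ ^ j) := by
  induction m with
  | zero =>
    intro ξ h
    refine ⟨0, ?_⟩
    rw [pow_zero, pow_one] at h
    rw [h, pow_zero, map_one]
  | succ m ih =>
    intro ξ h
    rw [pow_succ', pow_mul] at h
    obtain ⟨j, hj⟩ := ih (ξ ^ 3) h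
    have h1 : Lpw 3 c.lam (c.ζ ^ j) := by
      rw [Pool.Agent.Q153.LK.lpw_iff t_CPL]
      exact ⟨pow_ne_zero _ (z_ne c), ξ, hj.symm⟩
    have h2 := tpow' c c.lam h1 (two_ne_zero : (2 : F) ≠ 0)
    rw [t_pow' c c.lam (z_ne c) two_ne_zero] at h2
    have h3 : (j : ZMod 3) = 0 := (mul_eq_zero.mp h2).resolve_right (t_lam_two c)
    rw [ZMod.natCast_eq_zero_iff] at h3
    obtain ⟨n, rfl⟩ := h3
    rw [pow_mul, z_cube, one_pow, map_one] at hj
    have h4 : IsPrimitiveRoot (algebraMap F (c.lam.adicCompletion F) c.ζ) 3 :=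
      c.prim.map_of_injective (algebraMap F (c.lam.adicCompletion F)).injective
    obtain ⟨i, -, hi⟩ := h4.eq_pow_of_pow_eq_one hj
    exact ⟨i, by rw [map_pow, hi]⟩

theorem lpw_root {a : F} (ha : a ≠ 0) {ξ s : c.lam.adicCompletion F} {m : ℕ} (h : ξ ^ 3 ^ m = 1)
    (hs : algebraMap F (c.lam.adicCompletion F) a * ξ = s ^ 3) : ∃ j : ℕ, Lpw 3 c.lam (a * c.ζ ^ j) := by
  obtain ⟨j, hj⟩ := root_cases c m ξ h
  refine ⟨j, ?_⟩
  rw [Pool.Agent.Q153.LK.lpw_iff t_CPL]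
  refine ⟨mul_ne_zero ha (pow_ne_zero _ (z_ne c)), s, ?_⟩
  rw [map_mul, ← hj, hs]

section

variable {k : ℕ} (Q : Fin k → HeightOneSpectrum (𝓞 F)) (hD : ∀ i, D1 (Q i))
  (hA : ∀ i j, i ≠ j → Apt (Q i) (Q j))

include hD hA

theorem vl_DD_self (z : ZMod 3) (i : Fin k) : vl 3 (Q i) (DD c z Q) = 1 := by
  unfold DD
  rw [vl_mul t_BAS _ (pow_ne_zero _ (z_ne c)) (prod_dd_ne c Q _), vl_pow t_BAS _ (z_ne c), vl_z, mul_zero, zero_add,
    vl_prod' (Q i) _ _ (fun l => dd_ne c (Q l)), Finset.sum_eq_single i]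
  · exact vl_dd_self c (hD i)
  · intro l _ hl
    obtain ⟨h1, h2⟩ := apt_ne c (hA l i hl)
    exact vl_dd_ne c h1 h2
  · intro h
    exact absurd (Finset.mem_univ i) h

theorem vl_DD_conj (z : ZMod 3) (i : Fin k) : vl 3 (cj c.σ (Q i)) (DD c z Q) = -1 := by
  have h1 := vl_cj c.σ 3 (Q i) (DD c z Q)
  rw [conj_DD, vl_inv t_BAS _ (DD_ne c z Q), vl_DD_self c Q hD hA z i] at h1
  rw [← h1, neg_neg]

omit hD hA in
theorem vl_DD_ne (z : ZMod 3) {v : HeightOneSpectrum (𝓞 F)} (h1 : ∀ i, v ≠ Q i) (h2 : ∀ i, v ≠ cj c.σ (Q i)) :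
    vl 3 v (DD c z Q) = 0 := by
  unfold DD
  rw [vl_mul t_BAS _ (pow_ne_zero _ (z_ne c)) (prod_dd_ne c Q _), vl_pow t_BAS _ (z_ne c), vl_z, mul_zero, zero_add,
    vl_prod' v _ _ (fun l => dd_ne c (Q l))]
  exact Finset.sum_eq_zero fun l _ => vl_dd_ne c (h1 l) (h2 l)

/-- the product formula for numbers which are trivial outside the `Q i` -/
theorem prod_formula {a b : F} (ha : a ≠ 0) (hb : b ≠ 0)
    (h : ∀ v, ¬ Dp 3 v → (∀ i, v ≠ Q i) → (∀ i, v ≠ cj c.σ (Q i)) → c.t v a b = 0) :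
    ∑ i, (c.t (Q i) a b + c.t (cj c.σ (Q i)) a b) + c.t c.lam a b = 0 := by
  classical
  have hinj : Function.Injective Q := by
    intro i j hij
    by_contra hne
    exact (apt_ne c (hA i j hne)).1 hij.symm
  have hinj' : Function.Injective fun i => cj c.σ (Q i) := by
    intro i j hij
    apply hinj
    have h1 : cj c.σ (Q i) = cj c.σ (Q j) := hij
    rw [← cj_cj c.σ c.inv (Q i), h1, cj_cj c.σ c.inv]
  have hdis : Disjoint (Finset.univ.image Q) (Finset.univ.image fun i => cj c.σ (Q i)) := by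
    rw [Finset.disjoint_left]
    intro v hv hv'
    simp only [Finset.mem_image, Finset.mem_univ, true_and] at hv hv'
    obtain ⟨i, rfl⟩ := hv
    obtain ⟨j, hj⟩ := hv'
    by_cases hij : j = i
    · subst hij
      exact d1_cj_ne c (hD j) hj
    · exact (apt_ne c (hA j i hij)).2 hj.symm
  have hlam : c.lam ∉ Finset.univ.image Q ∪ Finset.univ.image fun i => cj c.σ (Q i) := by
    simp only [Finset.mem_union, Finset.mem_image, Finset.mem_univ, true_and, not_or, not_exists]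
    constructor
    · intro i hi
      apply d1_ndp (hD i)
      rw [hi]
      exact c.dlam
    · intro i hi
      apply d1_ndp (d1_cj c.σ (hD i))
      rw [hi]
      exact c.dlam
  have h1 := tsum_eq c ha hb (insert c.lam (Finset.univ.image Q ∪ Finset.univ.image fun i => cj c.σ (Q i))) (by
    intro v hv
    simp only [Finset.mem_insert, Finset.mem_union, Finset.mem_image, Finset.mem_univ, true_and, not_or,
      not_exists] at hv
    exact h v (fun h3 => hv.1 (c.ulam v h3)) (fun i hi => hv.2.1 i hi.symm) (fun i hi => hv.2.2 i hi.symm))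
  rw [Finset.sum_insert hlam, Finset.sum_union hdis, Finset.sum_image (fun i _ j _ hij => hinj hij),
    Finset.sum_image (fun i _ j _ hij => hinj' hij)] at h1
  rw [Finset.sum_add_distrib, add_comm, h1]

theorem sy_conj_dd {i l : Fin k} (h : l ≠ i) :
    sy 3 c.ζ (cj c.σ (Q i)) (dd c (Q l)) = sy 3 c.ζ (Q i) (dd c (Q l)) := by
  obtain ⟨h1, h2⟩ := apt_ne c (hA l i h)
  exact sy_cj_minus c (d1_ndp (hD i)) (dd_ne c (Q l)) (vl_dd_ne c h1 h2) (conj_dd c (Q l))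

/-- the first half of the criterion -/
theorem crit_minus (z : ZMod 3)
    (hB : ∀ (x : Fin k → ZMod 3) (x0 : ZMod 3), (∀ i, ∑ l, x l * pm z (tab c Q) i l + x0 * tab c Q i i = 0) →
      ∃ y, (∀ l, x l = y) ∧ x0 = z * y)
    {a : F} (ha : Cond 3 (AT 3) (DD c z Q) a) : ∃ j : ℕ, Eqv 3 (a / c.σ a * DD c z Q ^ j) 1 := by
  have ha0 : a ≠ 0 := ha.ne
  have hsa0 : c.σ a ≠ 0 := by
    rwa [Ne, map_eq_zero_iff _ c.σ.injective]
  have hq0 : a / c.σ a ≠ 0 := div_ne_zero ha0 hsa0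
  have hd0 : ∀ l, dd c (Q l) ≠ 0 := fun l => dd_ne c (Q l)
  set D := DD c z Q with hDD
  have hD0 : D ≠ 0 := DD_ne c z Q
  set x : Fin k → ZMod 3 := fun i => vl 3 (Q i) a - vl 3 (cj c.σ (Q i)) a with hx
  have hxi : ∀ i, vl 3 (Q i) (a / c.σ a) = x i := by
    intro i
    rw [vl_div t_BAS _ ha0 hsa0, hx]
    congr 1
    have h1 := vl_cj c.σ 3 (Q i) (c.σ a)
    rw [c.inv] at h1
    exact h1.symm
  have hxi' : ∀ i, vl 3 (cj c.σ (Q i)) (a / c.σ a) = - x i := by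
    intro i
    rw [vl_div t_BAS _ ha0 hsa0, hx, vl_cj]
    ring
  -- the local condition
  have hloc : ∀ i, ∃ n : ℕ, (n : ZMod 3) = - x i ∧ Lpw 3 (Q i) (a / c.σ a * D ^ n) := by
    intro i
    obtain ⟨j, hj⟩ := ha.ram (Q i) (d1_ndp (hD i)) (by
      rw [vl_DD_self c Q hD hA z i]
      exact one_ne_zero)
    obtain ⟨j', hj'⟩ := ha.ram (cj c.σ (Q i)) (d1_ndp (d1_cj c.σ (hD i))) (by
      rw [vl_DD_conj c Q hD hA z i]
      exact neg_ne_zero.mpr one_ne_zero)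
    refine ⟨j + j', ?_, ?_⟩
    · have e1 := lpw_vl t_BAS hj
      have e2 := lpw_vl t_BAS hj'
      rw [vl_mul t_BAS _ ha0 (pow_ne_zero _ hD0), vl_pow t_BAS _ hD0, vl_DD_self c Q hD hA z i, mul_one] at e1
      rw [vl_mul t_BAS _ ha0 (pow_ne_zero _ hD0), vl_pow t_BAS _ hD0, vl_DD_conj c Q hD hA z i] at e2
      rw [hx]
      push_cast
      linear_combination e1 - e2
    · have e3 := (lpw_cj c.σ 3 (cj c.σ (Q i)) _).mpr hj'
      rw [cj_cj c.σ c.inv, map_mul, map_pow, hDD, conj_DD c z Q, ← hDD] at e3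
      have e4 := lpw_div t_BAS hj e3
      have e5 : a * D ^ j / (c.σ a * D⁻¹ ^ j') = a / c.σ a * D ^ (j + j') := by
        rw [pow_add, inv_pow]
        field_simp
      rwa [e5] at e4
  -- the remaining unit
  set w : F := a / c.σ a * (mon (fun l => dd c (Q l)) x)⁻¹ with hw
  have hm0 : mon (fun l => dd c (Q l)) x ≠ 0 := mon_ne _ hd0 x
  have hw0 : w ≠ 0 := mul_ne_zero hq0 (inv_ne_zero hm0)
  have hwv : ∀ v : HeightOneSpectrum (𝓞 F), vl 3 v w = 0 := by
    intro v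
    rw [hw, vl_mul t_BAS _ hq0 (inv_ne_zero hm0), vl_inv t_BAS _ hm0, vl_mon t_BAS v _ hd0]
    by_cases h1 : ∃ i, v = Q i
    · obtain ⟨i, rfl⟩ := h1
      rw [hxi, Finset.sum_eq_single i]
      · rw [vl_dd_self c (hD i)]
        ring
      · intro l _ hl
        obtain ⟨h1, h2⟩ := apt_ne c (hA l i hl)
        rw [vl_dd_ne c h1 h2, mul_zero]
      · intro h
        exact absurd (Finset.mem_univ i) h
    by_cases h2 : ∃ i, v = cj c.σ (Q i)
    · obtain ⟨i, rfl⟩ := h2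
      rw [hxi', Finset.sum_eq_single i]
      · rw [vl_dd_conj c (hD i)]
        ring
      · intro l _ hl
        have h3 := apt_ne c (hA i l hl.symm)
        rw [vl_dd_ne c h3.2.symm (fun h4 => h3.1 (by
          rw [← cj_cj c.σ c.inv (Q l), ← h4, cj_cj c.σ c.inv])), mul_zero]
      · intro h
        exact absurd (Finset.mem_univ i) h
    rw [not_exists] at h1 h2
    have h3 : ∑ l, x l * vl 3 v (dd c (Q l)) = 0 :=
      Finset.sum_eq_zero fun l _ => by rw [vl_dd_ne c (h1 l) (h2 l), mul_zero]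
    rw [h3, neg_zero, add_zero, vl_div t_BAS _ ha0 hsa0]
    by_cases h4 : Dp 3 v
    · rw [c.ulam v h4]
      have h5 := vl_cj c.σ 3 c.lam a
      rw [cj_lam] at h5
      rw [h5, sub_self]
    · have h5 : vl 3 v a = 0 := ha.unr v h4 (vl_DD_ne c Q z h1 h2)
      have h6 : vl 3 (cj c.σ v) a = 0 := by
        refine ha.unr _ (by rwa [dp_cj]) (vl_DD_ne c Q z (fun i hi => ?_) (fun i hi => ?_))
        · apply h2 i
          rw [← hi, cj_cj c.σ c.inv]
        · apply h1 i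
          rw [← cj_cj c.σ c.inv v, hi, cj_cj c.σ c.inv]
      have h7 := vl_cj c.σ 3 v (c.σ a)
      rw [c.inv, h6] at h7
      rw [h5, ← h7, sub_zero]
  obtain ⟨j0, r, hr⟩ := c.unit w hw0 hwv
  have hr0 : r ≠ 0 := by
    rintro rfl
    rw [zero_pow (by norm_num)] at hr
    exact (mul_ne_zero hw0 (pow_ne_zero _ (z_ne c))) hr
  -- the functionals `T i`
  have hTz : ∀ i, c.t (Q i) c.ζ (dd c (Q i)) = - tab c Q i i := by
    intro i
    rw [tame' c (d1_ndp (hD i)) (z_ne c) (hd0 i) (vl_z c _), vl_dd_self c (hD i), one_mul]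
    unfold tab
    rw [if_pos rfl]
  have hTd : ∀ i l, l ≠ i → c.t (Q i) (dd c (Q l)) (dd c (Q i)) = - tab c Q i l := by
    intro i l hl
    obtain ⟨h1, h2⟩ := apt_ne c (hA l i hl)
    rw [tame' c (d1_ndp (hD i)) (hd0 l) (hd0 i) (vl_dd_ne c h1 h2), vl_dd_self c (hD i), one_mul]
    unfold tab
    rw [if_neg hl]
  have hTD : ∀ i, c.t (Q i) D (dd c (Q i)) = pm z (tab c Q) i i := by
    intro i
    rw [hDD]
    unfold DD pm
    rw [if_pos rfl, c.tmul _ _ _ _ (pow_ne_zero _ (z_ne c)) (prod_dd_ne c Q _) (hd0 i), t_pow c _ (z_ne c) (hd0 i),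
      ZMod.natCast_zmod_val, hTz, t_prod c _ _ _ hd0 (hd0 i), ← Finset.add_sum_erase _ _ (Finset.mem_univ i),
      t_self c _ (hd0 i), zero_add]
    have h1 : ∑ l ∈ Finset.univ.erase i, c.t (Q i) (dd c (Q l)) (dd c (Q i)) =
        - ∑ l ∈ Finset.univ.erase i, tab c Q i l := by
      rw [← Finset.sum_neg_distrib]
      exact Finset.sum_congr rfl fun l hl => hTd i l (Finset.ne_of_mem_erase hl)
    rw [h1]
    ring
  have hTm : ∀ i, c.t (Q i) (mon (fun l => dd c (Q l)) x) (dd c (Q i)) =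
      - ∑ l ∈ Finset.univ.erase i, x l * tab c Q i l := by
    intro i
    rw [t_mon c _ _ hd0 x (hd0 i), ← Finset.add_sum_erase _ _ (Finset.mem_univ i), t_self c _ (hd0 i), mul_zero,
      zero_add, ← Finset.sum_neg_distrib]
    refine Finset.sum_congr rfl fun l hl => ?_
    rw [hTd i l (Finset.ne_of_mem_erase hl)]
    ring
  have heq : ∀ i, ∑ l, x l * pm z (tab c Q) i l + (- (j0 : ZMod 3)) * tab c Q i i = 0 := by
    intro i
    obtain ⟨n, hn, hl⟩ := hloc i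
    have e1 := c.tpow _ _ (dd c (Q i)) hl (hd0 i)
    rw [c.tmul _ _ _ _ hq0 (pow_ne_zero _ hD0) (hd0 i), t_pow c _ hD0 (hd0 i), hTD, hn] at e1
    have e2 : c.t (Q i) (w * c.ζ ^ j0) (dd c (Q i)) = 0 := by
      rw [hr]
      exact c.tpow _ _ _ (lpw_pow t_BAS _ hr0) (hd0 i)
    rw [c.tmul _ _ _ _ hw0 (pow_ne_zero _ (z_ne c)) (hd0 i), t_pow c _ (z_ne c) (hd0 i), hTz, hw,
      c.tmul _ _ _ _ hq0 (inv_ne_zero hm0) (hd0 i), t_inv c _ hm0 (hd0 i), hTm] at e2
    rw [← Finset.add_sum_erase _ _ (Finset.mem_univ i)]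
    have e3 : ∑ l ∈ Finset.univ.erase i, x l * pm z (tab c Q) i l =
        ∑ l ∈ Finset.univ.erase i, x l * tab c Q i l := by
      refine Finset.sum_congr rfl fun l hl => ?_
      unfold pm
      rw [if_neg (Finset.ne_of_mem_erase hl)]
    rw [e3]
    linear_combination e2 - e1
  obtain ⟨y, hy, hy0⟩ := hB x _ heq
  refine ⟨(-y).val, ?_⟩
  have hw1 : Eqv 3 w (c.ζ ^ (2 * j0)) := by
    refine ⟨r, hr0, ?_⟩
    rw [← hr]
    have h1 : c.ζ ^ (2 * j0) * (w * c.ζ ^ j0) = w * (c.ζ ^ 3) ^ j0 := by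
      rw [← pow_mul]
      ring
    rw [h1, z_cube, one_pow, mul_one]
  have hq : a / c.σ a = w * mon (fun l => dd c (Q l)) x := by
    rw [hw, mul_assoc, inv_mul_cancel₀ hm0, mul_one]
  have h2 : a / c.σ a * D ^ (-y).val =
      (w * c.ζ ^ (z.val * (-y).val)) * ∏ l, dd c (Q l) ^ ((x l).val + (-y).val) := by
    rw [hq, hDD]
    unfold DD mon
    simp only [pow_add]
    rw [Finset.prod_mul_distrib, Finset.prod_pow, mul_pow, ← pow_mul]
    ring
  rw [h2]
  have h3 : Eqv 3 (w * c.ζ ^ (z.val * (-y).val)) 1 := by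
    refine eqv_trans (eqv_mul hw1 (eqv_refl _)) ?_
    rw [← pow_add]
    refine eqv_pow_one (z_ne c) ?_
    push_cast
    rw [ZMod.natCast_zmod_val, ZMod.natCast_zmod_val]
    have h4 : (3 : ZMod 3) = 0 := by decide
    linear_combination hy0 + (j0 : ZMod 3) * h4
  have h4 : Eqv 3 (∏ l, dd c (Q l) ^ ((x l).val + (-y).val)) (∏ _l : Fin k, 1) := by
    refine eqv_prod _ _ _ fun l _ => eqv_pow_one (hd0 l) ?_
    push_cast
    rw [ZMod.natCast_zmod_val, ZMod.natCast_zmod_val, hy l]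
    ring
  rw [Finset.prod_const_one] at h4
  have h5 := eqv_mul h3 h4
  rwa [mul_one] at h5

end

end Pool.Agent.H16.CC
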