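import Pool.Agent.H16.CC.Crit

/-!
# Cyclic cubic fields (helper16): the criterion, second half
-/

set_option autoImplicit false

namespace Pool.Agent.H16.CC

open NumberField IsDedekindDomain
open Pool.Agent.Q7.LK (Dp vl Lpw IsPow Cond AT Sy sy mon t_BAS t_HS2 t_CPL)
open Pool.Agent.Q265.LK
open Pool.Agent.Q123.LK (Eqv eqv_refl eqv_symm eqv_trans eqv_mul eqv_inv eqv_pow eqv_prod eqv_one_of isPow_of)

variable {F : Type} [Field F] [NumberField F] (c : Ctx F)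

section

variable {k : ℕ} (Q : Fin k → HeightOneSpectrum (𝓞 F)) (hD : ∀ i, D1 (Q i))
  (hA : ∀ i j, i ≠ j → Apt (Q i) (Q j))

include hD hA

/-- at the prime above `3` -/
theorem lpw_lam (z : ZMod 3) {a : F} (ha : Cond 3 (AT 3) (DD c z Q) a) : Lpw 3 c.lam (a * c.σ a) := by
  have ha0 : a ≠ 0 := ha.ne
  have hD0 : DD c z Q ≠ 0 := DD_ne c z Q
  have h := (Pool.Agent.Q153.LK.at_iff _ _ _).mp (ha.abv c.lam c.dlam)
  by_cases hl : Lpw 3 c.lam (DD c z Q)
  · obtain ⟨ξ, s, ⟨m, hm⟩, hs⟩ := h.2.2 hl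
    obtain ⟨j, hj⟩ := lpw_root c ha0 hm hs
    have h1 := (lpw_cj c.σ 3 c.lam _).mpr hj
    rw [cj_lam, map_mul, conj_pow_z] at h1
    have h2 := lpw_mul t_BAS hj h1
    have h3 : a * c.ζ ^ j * (c.σ a * (c.ζ ^ j)⁻¹) = a * c.σ a := by
      have h4 : c.ζ ^ j ≠ 0 := pow_ne_zero _ (z_ne c)
      field_simp
    rwa [h3] at h2
  · obtain ⟨j, hj⟩ := h.2.1 hl
    have h1 := (lpw_cj c.σ 3 c.lam _).mpr hj
    rw [cj_lam, map_mul, map_pow, conj_DD, inv_pow] at h1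
    have h2 := lpw_mul t_BAS hj h1
    have h3 : a * DD c z Q ^ j * (c.σ a * (DD c z Q ^ j)⁻¹) = a * c.σ a := by
      have h4 : DD c z Q ^ j ≠ 0 := pow_ne_zero _ hD0
      field_simp
    rwa [h3] at h2

/-- the second half of the criterion -/
theorem crit_plus (z : ZMod 3)
    (hB : ∀ m : Fin k → ZMod 3, (∀ l, ∑ i, m i * pm z (tab c Q) i l = 0) → ∑ i, m i * tab c Q i i = 0 → m = 0)
    {a : F} (ha : Cond 3 (AT 3) (DD c z Q) a) : Eqv 3 (a * c.σ a) 1 := by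
  have ha0 : a ≠ 0 := ha.ne
  have hsa0 : c.σ a ≠ 0 := by
    rwa [Ne, map_eq_zero_iff _ c.σ.injective]
  have hd0 : ∀ l, dd c (Q l) ≠ 0 := fun l => dd_ne c (Q l)
  have hlam := lpw_lam c Q hD hA z ha
  set D := DD c z Q with hDD
  have hD0 : D ≠ 0 := DD_ne c z Q
  set b : F := a * c.σ a with hb
  have hb0 : b ≠ 0 := mul_ne_zero ha0 hsa0
  have hsb : c.σ b = b := by
    rw [hb, map_mul, c.inv, mul_comm]
  set m : Fin k → ZMod 3 := fun i => vl 3 (Q i) b with hm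
  have hm' : ∀ i, vl 3 (cj c.σ (Q i)) b = m i := by
    intro i
    have h1 := vl_cj c.σ 3 (Q i) b
    rwa [hsb] at h1
  have hnd : ∀ i, ¬ Dp 3 (Q i) := fun i => d1_ndp (hD i)
  have hnd' : ∀ i, ¬ Dp 3 (cj c.σ (Q i)) := fun i => d1_ndp (d1_cj c.σ (hD i))
  -- orthogonality to `D`
  have hort : ∀ i, c.t (Q i) b D = 0 ∧ c.t (cj c.σ (Q i)) b D = 0 := by
    intro i
    obtain ⟨j, hj⟩ := ha.ram (Q i) (hnd i) (by
      rw [vl_DD_self c Q hD hA z i]
      exact one_ne_zero)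
    obtain ⟨j', hj'⟩ := ha.ram (cj c.σ (Q i)) (hnd' i) (by
      rw [vl_DD_conj c Q hD hA z i]
      exact neg_ne_zero.mpr one_ne_zero)
    have key : ∀ (v : HeightOneSpectrum (𝓞 F)) (n : ℕ) (n' : ℕ), Lpw 3 v (a * D ^ n) → Lpw 3 v (c.σ a * D⁻¹ ^ n') →
        c.t v b D = 0 := by
      intro v n n' h1 h2
      have e1 := c.tpow v _ D h1 hD0
      have e2 := c.tpow v _ D h2 hD0
      rw [c.tmul v _ _ _ ha0 (pow_ne_zero _ hD0) hD0, t_pow c v hD0 hD0, t_self c v hD0, mul_zero, add_zero] at e1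
      rw [c.tmul v _ _ _ hsa0 (pow_ne_zero _ (inv_ne_zero hD0)) hD0, t_pow c v (inv_ne_zero hD0) hD0,
        t_inv c v hD0 hD0, t_self c v hD0, neg_zero, mul_zero, add_zero] at e2
      rw [hb, c.tmul v _ _ _ ha0 hsa0 hD0, e1, e2, add_zero]
    constructor
    · have e3 := (lpw_cj c.σ 3 (cj c.σ (Q i)) _).mpr hj'
      rw [cj_cj c.σ c.inv, map_mul, map_pow, hDD, conj_DD c z Q, ← hDD] at e3
      exact key _ _ _ hj e3
    · have e3 := (lpw_cj c.σ 3 (Q i) _).mpr hj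
      rw [map_mul, map_pow, hDD, conj_DD c z Q, ← hDD] at e3
      exact key _ _ _ hj' e3
  -- symbols with `dd`
  have hvz : ∀ v : HeightOneSpectrum (𝓞 F), vl 3 v c.ζ = 0 := vl_z c
  have hsd : ∀ i l, l ≠ i → c.t (Q i) b (dd c (Q l)) = m i * tab c Q i l ∧
      c.t (cj c.σ (Q i)) b (dd c (Q l)) = m i * tab c Q i l := by
    intro i l hl
    obtain ⟨h1, h2⟩ := apt_ne c (hA l i hl)
    have h3 := apt_ne c (hA i l hl.symm)
    have h4 : vl 3 (cj c.σ (Q i)) (dd c (Q l)) = 0 := vl_dd_ne c h3.2.symm (fun h4 => h3.1 (by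
          rw [← cj_cj c.σ c.inv (Q l), ← h4, cj_cj c.σ c.inv]))
    have h5 : tab c Q i l = sy 3 c.ζ (Q i) (dd c (Q l)) := by
      unfold tab
      rw [if_neg hl]
    constructor
    · rw [c.tame _ (hnd i) _ (hd0 l) (vl_dd_ne c h1 h2) _ hb0, h5]
    · rw [c.tame _ (hnd' i) _ (hd0 l) h4 _ hb0, hm', sy_conj_dd c Q hD hA hl, h5]
  have hsz : ∀ i, c.t (Q i) b c.ζ = m i * tab c Q i i ∧ c.t (cj c.σ (Q i)) b c.ζ = m i * tab c Q i i := by
    intro i
    have h5 : tab c Q i i = sy 3 c.ζ (Q i) c.ζ := by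
      unfold tab
      rw [if_pos rfl]
    constructor
    · rw [c.tame _ (hnd i) _ (z_ne c) (hvz _) _ hb0, h5]
    · rw [c.tame _ (hnd' i) _ (z_ne c) (hvz _) _ hb0, hm', sy_cj_z c (hnd i), h5]
  have hexp : ∀ v : HeightOneSpectrum (𝓞 F), ∀ i, c.t v b D = z * c.t v b c.ζ + (c.t v b (dd c (Q i)) +
      ∑ l ∈ Finset.univ.erase i, c.t v b (dd c (Q l))) := by
    intro v i
    rw [hDD]
    unfold DD
    rw [tmul' c v (pow_ne_zero _ (z_ne c)) (prod_dd_ne c Q _) hb0, t_pow' c v (z_ne c) hb0, ZMod.natCast_zmod_val,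
      t_prod' c v _ _ hd0 hb0, ← Finset.add_sum_erase _ _ (Finset.mem_univ i)]
  have hii : ∀ i, c.t (Q i) b (dd c (Q i)) = m i * pm z (tab c Q) i i ∧
      c.t (cj c.σ (Q i)) b (dd c (Q i)) = m i * pm z (tab c Q) i i := by
    intro i
    have hp : pm z (tab c Q) i i = -(z * tab c Q i i + ∑ l ∈ Finset.univ.erase i, tab c Q i l) := by
      unfold pm
      rw [if_pos rfl]
    constructor
    · have e1 := (hort i).1
      rw [hexp (Q i) i, (hsz i).1] at e1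
      have e2 : ∑ l ∈ Finset.univ.erase i, c.t (Q i) b (dd c (Q l)) =
          m i * ∑ l ∈ Finset.univ.erase i, tab c Q i l := by
        rw [Finset.mul_sum]
        exact Finset.sum_congr rfl fun l hl => (hsd i l (Finset.ne_of_mem_erase hl)).1
      rw [e2] at e1
      rw [hp]
      linear_combination e1
    · have e1 := (hort i).2
      rw [hexp (cj c.σ (Q i)) i, (hsz i).2] at e1
      have e2 : ∑ l ∈ Finset.univ.erase i, c.t (cj c.σ (Q i)) b (dd c (Q l)) =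
          m i * ∑ l ∈ Finset.univ.erase i, tab c Q i l := by
        rw [Finset.mul_sum]
        exact Finset.sum_congr rfl fun l hl => (hsd i l (Finset.ne_of_mem_erase hl)).2
      rw [e2] at e1
      rw [hp]
      linear_combination e1
  -- orders of `b` at the other primes
  have hout : ∀ v : HeightOneSpectrum (𝓞 F), ¬ Dp 3 v → (∀ i, v ≠ Q i) → (∀ i, v ≠ cj c.σ (Q i)) → vl 3 v b = 0 := by
    intro v h4 h1 h2
    have h5 : vl 3 v a = 0 := ha.unr v h4 (vl_DD_ne c Q z h1 h2)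
    have h6 : vl 3 (cj c.σ v) a = 0 := by
      refine ha.unr _ (by rwa [dp_cj]) (vl_DD_ne c Q z (fun i hi => ?_) (fun i hi => ?_))
      · apply h2 i
        rw [← hi, cj_cj c.σ c.inv]
      · apply h1 i
        rw [← cj_cj c.σ c.inv v, hi, cj_cj c.σ c.inv]
    have h7 := vl_cj c.σ 3 v (c.σ a)
    rw [c.inv, h6] at h7
    rw [hb, vl_mul t_BAS v ha0 hsa0, h5, ← h7, add_zero]
  -- product formulas
  have hpz : ∑ i, m i * tab c Q i i = 0 := by
    have e1 := prod_formula c Q hD hA hb0 (z_ne c) (by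
      intro v h4 h1 h2
      rw [c.tame v h4 _ (z_ne c) (hvz v) _ hb0, hout v h4 h1 h2, zero_mul])
    rw [c.tpow c.lam b c.ζ hlam (z_ne c), add_zero] at e1
    have e2 : ∑ i, (c.t (Q i) b c.ζ + c.t (cj c.σ (Q i)) b c.ζ) = 2 * ∑ i, m i * tab c Q i i := by
      rw [Finset.mul_sum]
      refine Finset.sum_congr rfl fun i _ => ?_
      rw [(hsz i).1, (hsz i).2]
      ring
    rw [e2] at e1
    exact (mul_eq_zero.mp e1).resolve_left (by decide)
  have hpd : ∀ l, ∑ i, m i * pm z (tab c Q) i l = 0 := by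
    intro l
    have e1 := prod_formula c Q hD hA hb0 (hd0 l) (by
      intro v h4 h1 h2
      rw [c.tame v h4 _ (hd0 l) (vl_dd_ne c (h1 l) (h2 l)) _ hb0, hout v h4 h1 h2, zero_mul])
    rw [c.tpow c.lam b _ hlam (hd0 l), add_zero] at e1
    have e2 : ∑ i, (c.t (Q i) b (dd c (Q l)) + c.t (cj c.σ (Q i)) b (dd c (Q l))) =
        2 * ∑ i, m i * pm z (tab c Q) i l := by
      rw [Finset.mul_sum]
      refine Finset.sum_congr rfl fun i _ => ?_
      by_cases hil : l = i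
      · subst hil
        rw [(hii l).1, (hii l).2]
        ring
      · rw [(hsd i l hil).1, (hsd i l hil).2]
        have h5 : pm z (tab c Q) i l = tab c Q i l := by
          unfold pm
          rw [if_neg hil]
        rw [h5]
        ring
    rw [e2] at e1
    exact (mul_eq_zero.mp e1).resolve_left (by decide)
  have hm0 : m = 0 := hB m hpd hpz
  have hall : ∀ v : HeightOneSpectrum (𝓞 F), vl 3 v b = 0 := by
    intro v
    by_cases h1 : ∃ i, v = Q i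
    · obtain ⟨i, rfl⟩ := h1
      exact congrFun hm0 i
    by_cases h2 : ∃ i, v = cj c.σ (Q i)
    · obtain ⟨i, rfl⟩ := h2
      rw [hm' i]
      exact congrFun hm0 i
    rw [not_exists] at h1 h2
    by_cases h4 : Dp 3 v
    · rw [c.ulam v h4]
      exact lpw_vl t_BAS hlam
    · exact hout v h4 h1 h2
  obtain ⟨j, r, hr⟩ := c.unit b hb0 hall
  have hr0 : r ≠ 0 := by
    rintro rfl
    rw [zero_pow (by norm_num)] at hr
    exact (mul_ne_zero hb0 (pow_ne_zero _ (z_ne c))) hr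
  have h1 : c.t c.lam 2 (b * c.ζ ^ j) = 0 := by
    rw [hr]
    exact tpow' c c.lam (lpw_pow t_BAS _ hr0) two_ne_zero
  rw [tmul' c c.lam hb0 (pow_ne_zero _ (z_ne c)) two_ne_zero, tpow' c c.lam hlam two_ne_zero, zero_add,
    t_pow' c c.lam (z_ne c) two_ne_zero] at h1
  have h2 : (j : ZMod 3) = 0 := (mul_eq_zero.mp h1).resolve_right (t_lam_two c)
  have h3 := eqv_mul (eqv_refl (p := 3) b) (eqv_symm (eqv_pow_one (z_ne c) h2))
  rw [mul_one] at h3
  refine eqv_trans h3 ⟨r, hr0, ?_⟩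
  rw [one_mul, hr]

/-- **the criterion** -/
theorem crit (z : ZMod 3)
    (hB1 : ∀ (x : Fin k → ZMod 3) (x0 : ZMod 3), (∀ i, ∑ l, x l * pm z (tab c Q) i l + x0 * tab c Q i i = 0) →
      ∃ y, (∀ l, x l = y) ∧ x0 = z * y)
    (hB2 : ∀ m : Fin k → ZMod 3, (∀ l, ∑ i, m i * pm z (tab c Q) i l = 0) → ∑ i, m i * tab c Q i i = 0 → m = 0)
    {a : F} (ha : Cond 3 (AT 3) (DD c z Q) a) : ∃ j : ℕ, IsPow 3 (a * DD c z Q ^ j) := by
  have ha0 : a ≠ 0 := ha.ne
  have hsa0 : c.σ a ≠ 0 := by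
    rwa [Ne, map_eq_zero_iff _ c.σ.injective]
  have hD0 : DD c z Q ≠ 0 := DD_ne c z Q
  obtain ⟨j, hj⟩ := crit_minus c Q hD hA z hB1 ha
  have h1 := crit_plus c Q hD hA z hB2 ha
  have h2 := eqv_pow (eqv_mul hj h1) 2
  refine ⟨2 * j, isPow_of ?_⟩
  rw [mul_one, one_pow] at h2
  have h3 : (a / c.σ a * DD c z Q ^ j * (a * c.σ a)) ^ 2 = (a * DD c z Q ^ (2 * j)) * a ^ 3 := by
    field_simp
    ring
  rw [h3] at h2
  have h4 : Eqv 3 (a ^ 3) 1 := ⟨a, ha0, (one_mul _).symm⟩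
  have h5 := eqv_mul (eqv_refl (p := 3) (a * DD c z Q ^ (2 * j))) (eqv_symm h4)
  rw [mul_one] at h5
  exact eqv_trans h5 h2

end

end Pool.Agent.H16.CC
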