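import Pool.Agent.H16.CC.Sym2
import Pool.Graph.R_pool_sql_team_seeded_3997aac3.Q53.LQ2.NEST
import Pool.Graph.R_pool_sql_team_seeded_3997aac3.Q129.LQ.BASE
import Pool.Graph.R_pool_sql_team_seeded_3997aac3.Q14.LK.Share

/-!
# Cyclic cubic fields (helper16): the primes of degree one have density one
-/

set_option autoImplicit false

namespace Pool.Agent.H16.CC

open NumberField IsDedekindDomain Filter Topology
open Pool.Agent.Q7.LK (Dp vl Lpw IsPow Cond AT Sy sy mon t_BAS t_HS2 t_CPL t_CHEB)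
open Pool.Agent.Q265.LK
open Pool.Agent.Q53.LQ2.NEST (Cs Nm fin_Cs tend_top ratio_congr fin_norm fin_dvd ncard_le)

variable {F : Type} [Field F] [NumberField F] (c : Ctx F)

include c in
theorem vl_rat {l : ℕ} (hl : l.Prime) {v : HeightOneSpectrum (𝓞 F)} (hv : (l : 𝓞 F) ∈ v.asIdeal) :
    vl 3 v (l : F) ≠ 0 := by
  intro h
  have h3 : (l : F) = algebraMap (𝓞 F) F (l : 𝓞 F) := by rw [map_natCast]
  have h0 : (l : 𝓞 F) ≠ 0 := by
    rw [Ne, Nat.cast_eq_zero]
    exact hl.ne_zero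
  have e1 := HeightOneSpectrum.intValuation_if_neg v h0
  set n := (Associates.mk v.asIdeal).count (Associates.mk (Ideal.span {(l : 𝓞 F)})).factors with hn
  unfold vl at h
  rw [h3, HeightOneSpectrum.valuation_of_algebraMap, e1, WithZero.log_exp] at h
  push_cast at h
  rw [neg_neg, ZMod.natCast_eq_zero_iff] at h
  have h4 : v.intValuation (l : 𝓞 F) ≤ WithZero.exp (-((1 : ℕ) : ℤ)) := by
    rw [HeightOneSpectrum.intValuation_le_pow_iff_mem, pow_one]
    exact hv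
  rw [e1, WithZero.exp_le_exp] at h4
  have h5 : 3 ≤ n := by
    have : 1 ≤ n := by
      push_cast at h4
      omega
    omega
  have h6 : (l : 𝓞 F) ∈ v.asIdeal ^ 3 := by
    rw [← HeightOneSpectrum.intValuation_le_pow_iff_mem, e1, WithZero.exp_le_exp]
    push_cast
    omega
  rw [← Ideal.span_singleton_le_iff_mem, ← Ideal.dvd_iff_le] at h6
  have h7 := map_dvd Ideal.absNorm h6
  rw [map_pow, norm_nat c] at h7
  have h8 : Ideal.absNorm v.asIdeal ∣ l ^ 2 := (dvd_pow_self _ (by norm_num)).trans h7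
  obtain ⟨f, hf, hf2⟩ := (Nat.dvd_prime_pow hl).mp h8
  rw [hf2, ← pow_mul, Nat.pow_dvd_pow_iff_le_right hl.one_lt] at h7
  have h9 : f = 0 := by omega
  rw [h9, pow_zero, Ideal.absNorm_eq_one_iff] at hf2
  exact v.isPrime.ne_top hf2

/-- the symbols of the integers at the primes of degree two are trivial -/
theorem sy_d2 {v : HeightOneSpectrum (𝓞 F)} (h1 : ¬ D1 v) (h2 : ¬ Dp 3 v) {n : ℕ} (hn : (n : 𝓞 F) ∉ v.asIdeal) :
    sy 3 c.ζ v (n : F) = 0 := by
  obtain ⟨l, hl, hlv⟩ := Pool.Agent.Q129.LQ.exists_above v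
  have h3 : l ≠ 3 := by
    rintro rfl
    exact h2 hlv
  have h4 : l % 3 ≠ 1 := fun h => h1 ⟨l, hl, h, hlv⟩
  have h5 : ¬ 3 ∣ l := fun h => h3 ((Nat.prime_dvd_prime_iff_eq Nat.prime_three hl).mp h).symm
  have h6 : l % 3 = 2 := by omega
  have h7 : 3 ∣ Ideal.absNorm v.asIdeal - 1 := ((t_BAS 3 F v).2.2.2.2.2.2 h2 c.ζ c.prim).1
  have h8 : Ideal.absNorm v.asIdeal ∣ l ^ 2 := by
    have h9 : v.asIdeal ∣ Ideal.span {(l : 𝓞 F)} := by
      rw [Ideal.dvd_span_singleton]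
      exact hlv
    have h10 := map_dvd Ideal.absNorm h9
    rwa [norm_nat c] at h10
  obtain ⟨f, hf, hf2⟩ := (Nat.dvd_prime_pow hl).mp h8
  have h9 : f = 2 := by
    interval_cases f
    · rw [pow_zero, Ideal.absNorm_eq_one_iff] at hf2
      exact absurd hf2 v.isPrime.ne_top
    · exfalso
      rw [pow_one] at hf2
      rw [hf2] at h7
      have := hl.one_lt
      omega
    · rfl
  rw [h9] at hf2
  have h3F : (n : F) = algebraMap (𝓞 F) F (n : 𝓞 F) := by rw [map_natCast]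
  have hval : v.valuation F (n : F) = 1 := by
    rw [h3F, HeightOneSpectrum.valuation_of_algebraMap, HeightOneSpectrum.intValuation_eq_one_iff]
    exact hn
  have hn0 : (n : F) ≠ 0 := by
    intro h
    rw [h, map_zero] at hval
    exact zero_ne_one hval
  symm
  rw [← ((t_BAS 3 F v).2.2.2.2.2.2 h2 c.ζ c.prim).2.1 (n : F) hn0 (vl_of_val_one v hval)]
  refine ⟨1, ?_, ?_⟩
  · rw [one_pow, mul_one]
    exact hval
  · rw [one_pow, mul_one, ZMod.val_zero, pow_zero, hf2]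
    have hln : ¬ l ∣ n := by
      rintro ⟨m, rfl⟩
      apply hn
      rw [Nat.cast_mul]
      exact Ideal.mul_mem_right _ _ hlv
    have h10 : (l ^ 2 - 1) / 3 = (l - 1) * ((l + 1) / 3) := by
      obtain ⟨m, hm⟩ : ∃ m, l = 3 * m + 2 := ⟨l / 3, by omega⟩
      rw [hm]
      have e1 : (3 * m + 2 + 1) / 3 = m + 1 := by omega
      have e2 : (3 * m + 2) ^ 2 - 1 = 3 * ((3 * m + 1) * (m + 1)) := by
        have : (3 * m + 2) ^ 2 = 3 * ((3 * m + 1) * (m + 1)) + 1 := by ring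
        omega
      rw [e1, e2, Nat.mul_div_cancel_left _ (by norm_num)]
      congr 1
    have h11 : l ∣ n ^ ((l ^ 2 - 1) / 3) - 1 := by
      rw [h10, pow_mul]
      have h12 : n ^ (l - 1) ≡ 1 [MOD l] := by
        have h13 : Nat.Coprime n l := ((Nat.Prime.coprime_iff_not_dvd hl).mpr hln).symm
        have h14 := Nat.ModEq.pow_totient h13
        rwa [Nat.totient_prime hl] at h14
      have h15 := h12.pow ((l + 1) / 3)
      rw [one_pow] at h15
      have h16 : 1 ≤ (n ^ (l - 1)) ^ ((l + 1) / 3) := by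
        refine Nat.one_le_iff_ne_zero.mpr (pow_ne_zero _ (pow_ne_zero _ ?_))
        rintro rfl
        exact hln (dvd_zero l)
      exact (Nat.modEq_iff_dvd' h16).mp h15.symm
    have h17 : (n : F) ^ ((l ^ 2 - 1) / 3) - 1 = algebraMap (𝓞 F) F ((n : 𝓞 F) ^ ((l ^ 2 - 1) / 3) - 1) := by
      rw [map_sub, map_pow, map_natCast, map_one]
    rw [h17, HeightOneSpectrum.valuation_lt_one_iff_mem]
    obtain ⟨m, hm⟩ := h11
    have h18 : n ^ ((l ^ 2 - 1) / 3) = l * m + 1 := by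
      have h16 : 1 ≤ n ^ ((l ^ 2 - 1) / 3) := by
        refine Nat.one_le_iff_ne_zero.mpr (pow_ne_zero _ ?_)
        rintro rfl
        exact hln (dvd_zero l)
      omega
    have h19 : (n : 𝓞 F) ^ ((l ^ 2 - 1) / 3) - 1 = (l : 𝓞 F) * (m : 𝓞 F) := by
      rw [← Nat.cast_pow, h18]
      push_cast
      ring
    rw [h19]
    exact Ideal.mul_mem_right _ _ hlv

/-- `m` different prime numbers `> 3` -/
theorem exists_primes (m : ℕ) : ∃ a : Fin m → ℕ, Function.Injective a ∧ ∀ i, (a i).Prime := by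
  obtain ⟨s, hs, hc⟩ := Nat.infinite_setOfPred_prime.exists_subset_card_eq m
  refine ⟨fun i => s.orderEmbOfFin hc i, (s.orderEmbOfFin hc).injective, fun i => ?_⟩
  exact hs (Finset.orderEmbOfFin_mem s hc i)

include c in
theorem indep_nat {m : ℕ} {a : Fin m → ℕ} (ha : Function.Injective a) (hp : ∀ i, (a i).Prime)
    (e : Fin m → ZMod 3) (he : IsPow 3 (mon (fun i => (a i : F)) e)) : e = 0 := by
  have ha0 : ∀ i, (a i : F) ≠ 0 := fun i => by
    rw [Ne, Nat.cast_eq_zero]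
    exact (hp i).ne_zero
  obtain ⟨r, hr⟩ := he
  have hr0 : r ≠ 0 := by
    rintro rfl
    rw [zero_pow (by norm_num)] at hr
    exact mon_ne _ ha0 e hr
  funext i
  -- a prime above `a i`
  have h1 : Ideal.span {((a i : ℕ) : 𝓞 F)} ≠ ⊤ := by
    rw [Ne, ← Ideal.absNorm_eq_one_iff, norm_nat c]
    intro h
    have := (hp i).one_lt
    have h2 := Nat.one_lt_pow (n := 2) (by norm_num) this
    omega
  obtain ⟨M, hM, hle⟩ := Ideal.exists_le_maximal _ h1
  have h20 : ((a i : ℕ) : 𝓞 F) ≠ 0 := by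
    rw [Ne, Nat.cast_eq_zero]
    exact (hp i).ne_zero
  have hMb : M ≠ ⊥ := by
    rintro rfl
    rw [le_bot_iff, Ideal.span_singleton_eq_bot] at hle
    exact h20 hle
  set v : HeightOneSpectrum (𝓞 F) := ⟨M, hM.isPrime, hMb⟩ with hv
  have hiv : ((a i : ℕ) : 𝓞 F) ∈ v.asIdeal := hle (Ideal.mem_span_singleton_self _)
  have h3 : vl 3 v (mon (fun i => (a i : F)) e) = 0 := by
    rw [hr]
    exact vl_ppow t_BAS v hr0
  rw [vl_mon t_BAS v _ ha0, Finset.sum_eq_single i] at h3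
  · exact (mul_eq_zero.mp h3).resolve_right (vl_rat c (hp i) hiv)
  · intro j _ hj
    have h4 : ((a j : ℕ) : 𝓞 F) ∉ v.asIdeal := by
      intro hmem
      exact hj (ha (Pool.Agent.Q129.LQ.above_unique (hp j) (hp i) hmem hiv))
    have h3F : (a j : F) = algebraMap (𝓞 F) F (a j : 𝓞 F) := by rw [map_natCast]
    rw [vl_of_val_one v (a := (a j : F)) (by
      rw [h3F, HeightOneSpectrum.valuation_of_algebraMap, HeightOneSpectrum.intValuation_eq_one_iff]
      exact h4), mul_zero]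
  · intro h
    exact absurd (Finset.mem_univ i) h

include c in
/-- the primes of degree two have density zero -/
theorem dens_d2 : Tendsto (fun x : ℕ => ((Cs (fun v : HeightOneSpectrum (𝓞 F) => ¬ D1 v) x).ncard : ℝ) / Nm F x)
    atTop (𝓝 0) := by
  rw [Metric.tendsto_atTop]
  intro ε hε
  obtain ⟨m, hm⟩ : ∃ m : ℕ, (1 / (3 : ℝ)) ^ m < ε / 2 :=
    exists_pow_lt_of_lt_one (by positivity) (by norm_num)
  obtain ⟨a, ha, hp⟩ := exists_primes m
  have ha0 : ∀ i, (a i : F) ≠ 0 := fun i => by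
    rw [Ne, Nat.cast_eq_zero]
    exact (hp i).ne_zero
  have h1 := t_CHEB 3 F c.ζ c.prim m (fun i => (a i : F)) ha0 (indep_nat c ha hp) 0
  set T : Set (HeightOneSpectrum (𝓞 F)) := {v | ((3 * ∏ i, a i : ℕ) : 𝓞 F) ∈ v.asIdeal} with hT
  have hTf : T.Finite := by
    refine fin_dvd (F := F) ?_
    refine mul_ne_zero (by norm_num) (Finset.prod_ne_zero_iff.mpr fun i _ => (hp i).ne_zero)
  have h2 : ∀ v : HeightOneSpectrum (𝓞 F), v ∉ T → (¬ D1 v → ∀ i, sy 3 c.ζ v (a i : F) = (0 : Fin m → ZMod 3) i) := by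
    intro v hv hd i
    have hv3 : ¬ Dp 3 v := by
      intro h
      apply hv
      change ((3 * ∏ i, a i : ℕ) : 𝓞 F) ∈ v.asIdeal
      rw [Nat.cast_mul]
      exact Ideal.mul_mem_right _ _ h
    refine sy_d2 c hd hv3 ?_
    intro h
    apply hv
    change ((3 * ∏ i, a i : ℕ) : 𝓞 F) ∈ v.asIdeal
    obtain ⟨b, hb⟩ := Finset.dvd_prod_of_mem a (Finset.mem_univ i)
    rw [hb, Nat.cast_mul, Nat.cast_mul]
    exact Ideal.mul_mem_left _ _ (Ideal.mul_mem_right _ _ h)
  have h3 : Tendsto (fun x : ℕ => ((Cs (fun v : HeightOneSpectrum (𝓞 F) =>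
      ∀ i, sy 3 c.ζ v (a i : F) = (0 : Fin m → ZMod 3) i) x).ncard : ℝ) / Nm F x + (T.ncard : ℝ) / Nm F x)
      atTop (𝓝 (1 / (3 : ℝ) ^ m + 0)) := by
    refine Tendsto.add ?_ ((tend_top F).const_div_atTop _)
    exact_mod_cast h1
  have h4 : (1 / (3 : ℝ) ^ m + 0) < ε / 2 := by
    rw [add_zero, ← one_div_pow]
    exact hm
  have h5 := h3.eventually_lt_const h4
  rw [eventually_atTop] at h5
  obtain ⟨N, hN⟩ := h5
  refine ⟨N, fun x hx => ?_⟩
  have h6 := hN x hx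
  have h7 := ncard_le hTf h2 x
  have h0 : (0 : ℝ) ≤ Nm F x := Nat.cast_nonneg _
  rw [Real.dist_eq, sub_zero, abs_of_nonneg (by positivity)]
  have h8 : ((Cs (fun v : HeightOneSpectrum (𝓞 F) => ¬ D1 v) x).ncard : ℝ) / Nm F x ≤
      ((Cs (fun v : HeightOneSpectrum (𝓞 F) =>
      ∀ i, sy 3 c.ζ v (a i : F) = (0 : Fin m → ZMod 3) i) x).ncard : ℝ) / Nm F x + (T.ncard : ℝ) / Nm F x := by
    rw [← add_div]
    exact div_le_div_of_nonneg_right h7 h0
  linarith

include c in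
/-- restriction to the primes of degree one does not change densities -/
theorem dens_d1 (P : HeightOneSpectrum (𝓞 F) → Prop) {L : ℝ}
    (h : Tendsto (fun x : ℕ => ((Cs P x).ncard : ℝ) / Nm F x) atTop (𝓝 L)) :
    Tendsto (fun x : ℕ => ((Cs (fun v => D1 v ∧ P v) x).ncard : ℝ) / Nm F x) atTop (𝓝 L) := by
  refine tendsto_of_tendsto_of_dist h ?_
  refine squeeze_zero (g := fun x => ((Cs (fun v : HeightOneSpectrum (𝓞 F) => ¬ D1 v) x).ncard : ℝ) / Nm F x)
    (fun x => dist_nonneg) ?_ (dens_d2 c)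
  intro x
  have h1 : (Cs (fun v => D1 v ∧ P v) x).ncard ≤ (Cs P x).ncard :=
    Set.ncard_le_ncard (fun v hv => ⟨hv.1, hv.2.2⟩) (fin_Cs P x)
  have h2 : (Cs P x).ncard ≤ (Cs (fun v => D1 v ∧ P v) x).ncard +
      (Cs (fun v : HeightOneSpectrum (𝓞 F) => ¬ D1 v) x).ncard := by
    refine le_trans (Set.ncard_le_ncard ?_ ((fin_Cs _ x).union (fin_Cs _ x))) (Set.ncard_union_le _ _)
    intro v hv
    by_cases hd : D1 v
    · exact Or.inl ⟨hv.1, hd, hv.2⟩
    · exact Or.inr ⟨hv.1, hd⟩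
  have h1' : ((Cs (fun v => D1 v ∧ P v) x).ncard : ℝ) ≤ (Cs P x).ncard := by exact_mod_cast h1
  have h2' : ((Cs P x).ncard : ℝ) ≤ (Cs (fun v => D1 v ∧ P v) x).ncard +
      (Cs (fun v : HeightOneSpectrum (𝓞 F) => ¬ D1 v) x).ncard := by exact_mod_cast h2
  have h0 : (0 : ℝ) ≤ Nm F x := Nat.cast_nonneg _
  rw [Real.dist_eq, ← sub_div, abs_div, abs_of_nonneg h0]
  refine div_le_div_of_nonneg_right ?_ h0
  rw [abs_le]
  constructor <;> linarith

end Pool.Agent.H16.CC
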