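import Pool.Agent.H16.CC.Fib2

/-!
# Cyclic cubic fields (helper16): the family of the cyclic cubic fields
-/

set_option autoImplicit false
set_option linter.unusedSectionVars false

namespace Pool.Agent.H16.CC

open NumberField IsDedekindDomain Filter
open Pool.Agent.Q7.LK (Dp vl Lpw IsPow Cond AT Sy sy mon t_BAS t_HS2 t_CPL t_CHEB)
open Pool.Agent.Q265.LK
open Pool.Agent.Q283.LQ (Nest)

section

variable {Ω : Type} [Field Ω] [CharZero Ω] [IsAlgClosed Ω] [Algebra.IsAlgebraic ℚ Ω]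

/-- the family of the cyclic cubic fields -/
def Fm {k : ℕ} (X : Fin k → ℕ) : Set ((Fin k → ℕ) × IntermediateField ℚ Ω) :=
  {q | (Function.Injective q.1 ∧ ∀ i, (q.1 i).Prime ∧ q.1 i ≠ 3 ∧ q.1 i ≤ X i) ∧ Cub q.2 ∧
    ∀ l : ℕ, l.Prime → l ≠ 3 → ((∃ _ : NumberField q.2, (l : ℤ) ∣ discr q.2) ↔ ∃ i, q.1 i = l)}

theorem cub_nf {L : IntermediateField ℚ Ω} (hL : Cub L) : NumberField L := by
  have hfd : FiniteDimensional ℚ L := by
    apply FiniteDimensional.of_finrank_pos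
    rw [hL.2]
    norm_num
  exact ⟨⟩

variable {F : IntermediateField ℚ Ω} [NumberField F] (c : Ctx F)

theorem fm_of {n : ℕ} {X : Fin (n + 1) → ℕ} {Q : Fin (n + 1) → HeightOneSpectrum (𝓞 F)}
    (hQ : Q ∈ (Bx X : Set (Fin (n + 1) → HeightOneSpectrum (𝓞 F)))) {z : ZMod 3} {L : IntermediateField ℚ Ω}
    (h : Rl c z Q L) : ((fun i => Ideal.absNorm (Q i).asIdeal, L) : _ × _) ∈ Fm (Ω := Ω) X := by
  have hD : ∀ i, D1 (Q i) := fun i => (hQ.1 i).1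
  have hA := hQ.2
  obtain ⟨hL, x, hx, hLx⟩ := h
  refine ⟨⟨?_, ?_⟩, hL, ?_⟩
  · intro i j hij
    by_contra hne
    exact hA i j hne hij
  · intro i
    obtain ⟨h1, h2, -⟩ := d1_prime c (hD i)
    refine ⟨h1, ?_, (hQ.1 i).2⟩
    intro h3
    change Ideal.absNorm (Q i).asIdeal = 3 at h3
    omega
  · intro l hl hl3
    have hnf := cub_nf hL
    have h1 : (∃ _ : NumberField L, (l : ℤ) ∣ discr L) ↔ (l : ℤ) ∣ discr L :=
      ⟨fun ⟨_, h⟩ => h, fun h => ⟨hnf, h⟩⟩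
    change (∃ _ : NumberField L, (l : ℤ) ∣ discr L) ↔ ∃ i, Ideal.absNorm (Q i).asIdeal = l
    rw [h1, ram_iff c hL hx (DD_np c hD hA z) hLx hl hl3]
    constructor
    · rintro ⟨v, hv, hva⟩
      by_contra hc
      push Not at hc
      apply hva
      refine vl_DD_ne c Q z (fun i hi => ?_) (fun i hi => ?_)
      · have h4 := (d1_prime c (hD i)).2.2
        rw [← hi] at h4
        refine hc i ?_
        rw [← hi]
        refine same_prime ?_ hl h4 hv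
        rw [hi]
        exact (d1_prime c (hD i)).1
      · have h4 := mem_cj_nat c.σ (d1_prime c (hD i)).2.2
        rw [← hi] at h4
        exact hc i (same_prime (d1_prime c (hD i)).1 hl h4 hv)
    · rintro ⟨i, hi⟩
      refine ⟨Q i, ?_, ?_⟩
      · rw [← hi]
        exact (d1_prime c (hD i)).2.2
      · rw [vl_DD_self c Q hD hA z i]
        exact one_ne_zero

theorem of_fm {k : ℕ} {X : Fin k → ℕ} {q : Fin k → ℕ} {L : IntermediateField ℚ Ω}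
    (h : ((q, L) : _ × _) ∈ Fm (Ω := Ω) X) :
    ∃ (Q : Fin k → HeightOneSpectrum (𝓞 F)) (z : ZMod 3),
      Q ∈ (Bx X : Set (Fin k → HeightOneSpectrum (𝓞 F))) ∧ (∀ i, Ideal.absNorm (Q i).asIdeal = q i) ∧ Rl c z Q L := by
  obtain ⟨⟨hinj, hq⟩, hL, hram⟩ := h
  change Cub L at hL
  have hnf := cub_nf hL
  obtain ⟨a, y, ha, hy, hnp, ⟨b, hb⟩, hLy⟩ := cub_kum c hL
  have hram' : ∀ l : ℕ, l.Prime → l ≠ 3 → ((∃ v : HeightOneSpectrum (𝓞 F), (l : 𝓞 F) ∈ v.asIdeal ∧ vl 3 v a ≠ 0) ↔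
      ∃ i, q i = l) := by
    intro l hl hl3
    rw [← ram_iff c hL hy hnp hLy hl hl3, ← hram l hl hl3]
    exact ⟨fun h => ⟨hnf, h⟩, fun ⟨_, h⟩ => h⟩
  have hcj : ∀ v, vl 3 v a ≠ 0 → cj c.σ v ≠ v := by
    intro v hv h1
    have h2 := vl_anti c ha hb v
    rw [h1] at h2
    have h4 : ∀ s : ZMod 3, s = -s → s = 0 := by decide
    exact hv (h4 _ h2)
  have key : ∀ i, ∃ v : HeightOneSpectrum (𝓞 F), (q i : 𝓞 F) ∈ v.asIdeal ∧ vl 3 v a = 1 := by
    intro i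
    obtain ⟨v, hv, hva⟩ := (hram' (q i) (hq i).1 (hq i).2.1).mpr ⟨i, rfl⟩
    have h4 : ∀ s : ZMod 3, s ≠ 0 → s = 1 ∨ -s = 1 := by decide
    rcases h4 _ hva with h5 | h5
    · exact ⟨v, hv, h5⟩
    · exact ⟨cj c.σ v, mem_cj_nat c.σ hv, by rw [vl_anti c ha hb]; exact h5⟩
  choose Q hQ1 hQ2 using key
  have hne : ∀ i, vl 3 (Q i) a ≠ 0 := fun i => by
    rw [hQ2 i]
    exact one_ne_zero
  have hD : ∀ i, D1 (Q i) := fun i => d1_of_cj_ne c (ndp_of (hq i).1 (hq i).2.1 (hQ1 i)) (hcj _ (hne i))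
  have hN : ∀ i, Ideal.absNorm (Q i).asIdeal = q i := fun i =>
    same_prime (d1_prime c (hD i)).1 (hq i).1 (d1_prime c (hD i)).2.2 (hQ1 i)
  have hA : ∀ i j, i ≠ j → Apt (Q i) (Q j) := by
    intro i j hij
    unfold Apt
    rw [hN, hN]
    exact fun h => hij (hinj h)
  obtain ⟨z, w, hw0, hw⟩ := rep c hD hA ha hb hQ2 (fun v hv3 h1 h2 => by
    by_contra hva
    obtain ⟨l, hl, hlv⟩ := Pool.Agent.Q129.LQ.exists_above v
    have hl3 : l ≠ 3 := by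
      rintro rfl
      exact hv3 hlv
    obtain ⟨i, hi⟩ := (hram' l hl hl3).mp ⟨v, hlv, hva⟩
    have hDv : D1 v := d1_of_cj_ne c hv3 (hcj v hva)
    have h3 : Ideal.absNorm v.asIdeal = Ideal.absNorm (Q i).asIdeal := by
      rw [hN i, hi]
      exact same_prime (d1_prime c hDv).1 hl (d1_prime c hDv).2.2 hlv
    rcases same_norm c (hD i) hDv h3 with h4 | h4
    · exact h1 i h4
    · exact h2 i h4)
  refine ⟨Q, z, ⟨fun i => ⟨hD i, by rw [hN i]; exact (hq i).2.2⟩, hA⟩, hN, hL, y / w, ?_, ?_⟩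
  · have hw0' : (w : Ω) ≠ 0 := fun h => hw0 (Subtype.ext h)
    rw [div_pow, hy, hw]
    push_cast
    rw [mul_div_assoc, div_self (pow_ne_zero _ hw0'), mul_one]
  · rw [hLy]
    have hw0' : (w : Ω) ≠ 0 := fun h => hw0 (Subtype.ext h)
    refine sup_adj fun g hg => ?_
    have h2 : g (w : Ω) = w := (IntermediateField.mem_fixingSubgroup_iff _ g).mp hg w w.2
    rw [map_div₀, h2]
    exact (div_left_inj' hw0').symm

open Classical in
theorem two_to_one {α β : Type} {A : Set α} (hA : A.Finite) (f : α → β) (ι : α → α)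
    (h1 : ∀ a ∈ A, ι a ∈ A ∧ ι a ≠ a ∧ f (ι a) = f a) (h2 : ∀ a ∈ A, ∀ b ∈ A, f b = f a → b = a ∨ b = ι a) :
    A.ncard = 2 * (f '' A).ncard := by
  have h3 := Finset.card_eq_sum_card_image f hA.toFinset
  rw [← Set.ncard_coe_finset, hA.coe_toFinset] at h3
  have h4 : (f '' A).ncard = (hA.toFinset.image f).card := by
    rw [← Set.ncard_coe_finset, Finset.coe_image, hA.coe_toFinset]
  rw [h3, h4, mul_comm, ← smul_eq_mul, ← Finset.sum_const]
  refine Finset.sum_congr rfl fun b hb => ?_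
  obtain ⟨a, ha, rfl⟩ := Finset.mem_image.mp hb
  rw [Set.Finite.mem_toFinset] at ha
  have h5 : (hA.toFinset.filter fun x => f x = f a) = {a, ι a} := by
    ext x
    rw [Finset.mem_filter, Set.Finite.mem_toFinset, Finset.mem_insert, Finset.mem_singleton]
    constructor
    · rintro ⟨h6, h7⟩
      exact h2 a ha x h6 h7
    · rintro (rfl | rfl)
      · exact ⟨ha, rfl⟩
      · exact ⟨(h1 a ha).1, (h1 a ha).2.2⟩
  rw [h5, Finset.card_pair (h1 a ha).2.1.symm]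

open Classical in
theorem card_slices {α : Type} {B : Set α} (hB : B.Finite) (R : ZMod 3 → α → Prop) :
    {t : α × ZMod 3 | t.1 ∈ B ∧ R t.2 t.1}.Finite ∧
    {t : α × ZMod 3 | t.1 ∈ B ∧ R t.2 t.1}.ncard = ∑ z : ZMod 3, {Q ∈ B | R z Q}.ncard := by
  have hfin : {t : α × ZMod 3 | t.1 ∈ B ∧ R t.2 t.1}.Finite :=
    (hB.prod (Set.finite_univ (α := ZMod 3))).subset fun t ht => ⟨ht.1, Set.mem_univ _⟩
  refine ⟨hfin, ?_⟩
  have h1 := Finset.card_eq_sum_card_fiberwise (s := hfin.toFinset) (f := fun t : α × ZMod 3 => t.2)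
    (t := Finset.univ) (fun _ _ => Finset.mem_coe.mpr (Finset.mem_univ _))
  rw [← Set.ncard_coe_finset, hfin.coe_toFinset] at h1
  rw [h1]
  refine Finset.sum_congr rfl fun z _ => ?_
  rw [← Set.ncard_coe_finset]
  refine (Set.ncard_congr (fun Q _ => (Q, z)) ?_ ?_ ?_).symm
  · rintro Q ⟨h2, h3⟩
    rw [Finset.mem_coe, Finset.mem_filter, Set.Finite.mem_toFinset]
    exact ⟨⟨h2, h3⟩, rfl⟩
  · rintro Q Q' _ _ h
    exact (Prod.ext_iff.mp h).1
  · rintro ⟨Q, z'⟩ ht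
    rw [Finset.mem_coe, Finset.mem_filter, Set.Finite.mem_toFinset] at ht
    obtain ⟨⟨h2, h3⟩, h4⟩ := ht
    change z' = z at h4
    subst h4
    exact ⟨Q, ⟨h2, h3⟩, rfl⟩

open Classical in
/-- **the count** -/
theorem count {n : ℕ} {X : Fin (n + 1) → ℕ} (hfin : (Bx X : Set (Fin (n + 1) → HeightOneSpectrum (𝓞 F))).Finite)
    (P : IntermediateField ℚ Ω → Prop) : {q ∈ Fm (Ω := Ω) X | P q.2}.Finite ∧
      {t : (Fin (n + 1) → HeightOneSpectrum (𝓞 F)) × ZMod 3 |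
        t.1 ∈ (Bx X : Set (Fin (n + 1) → HeightOneSpectrum (𝓞 F))) ∧ ∀ L : IntermediateField ℚ Ω,
          Rl c t.2 t.1 L → P L}.ncard = 2 * {q ∈ Fm (Ω := Ω) X | P q.2}.ncard := by
  set A := {t : (Fin (n + 1) → HeightOneSpectrum (𝓞 F)) × ZMod 3 |
        t.1 ∈ (Bx X : Set (Fin (n + 1) → HeightOneSpectrum (𝓞 F))) ∧ ∀ L : IntermediateField ℚ Ω,
          Rl c t.2 t.1 L → P L} with hA
  have hAf : A.Finite := (card_slices hfin (fun z Q => ∀ L : IntermediateField ℚ Ω, Rl c z Q L → P L)).1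
  let Lf : (Fin (n + 1) → HeightOneSpectrum (𝓞 F)) × ZMod 3 → IntermediateField ℚ Ω := fun t =>
    if h : ∃ L, Rl c t.2 t.1 L then h.choose else ⊥
  have hLf : ∀ t, t.1 ∈ (Bx X : Set (Fin (n + 1) → HeightOneSpectrum (𝓞 F))) → Rl c t.2 t.1 (Lf t) := by
    intro t ht
    have h := rl_exists c (fun i => (ht.1 i).1) ht.2 t.2
    have h1 : Lf t = h.choose := dif_pos h
    rw [h1]
    exact h.choose_spec
  let f : (Fin (n + 1) → HeightOneSpectrum (𝓞 F)) × ZMod 3 → (Fin (n + 1) → ℕ) × IntermediateField ℚ Ω := fun t =>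
    (fun i => Ideal.absNorm (t.1 i).asIdeal, Lf t)
  have himg : {q ∈ Fm (Ω := Ω) X | P q.2} = f '' A := by
    ext q
    constructor
    · rintro ⟨h1, h2⟩
      obtain ⟨Q, z, h3, h4, h5⟩ := of_fm c (q := q.1) (L := q.2) h1
      refine ⟨(Q, z), ⟨h3, fun L hL => ?_⟩, ?_⟩
      · rw [rl_unique c hL h5]
        exact h2
      · refine Prod.ext ?_ ?_
        · funext i
          exact h4 i
        · exact rl_unique c (hLf (Q, z) h3) h5
    · rintro ⟨t, ⟨h1, h2⟩, rfl⟩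
      exact ⟨fm_of c h1 (hLf t h1), h2 _ (hLf t h1)⟩
  rw [himg]
  refine ⟨hAf.image f, ?_⟩
  refine two_to_one hAf f (fun t => (fun i => cj c.σ (t.1 i), -t.2)) ?_ ?_
  · rintro ⟨Q, z⟩ ⟨h1, h2⟩
    change Q ∈ (Bx X : Set (Fin (n + 1) → HeightOneSpectrum (𝓞 F))) at h1
    have h3 := bx_cj c h1
    have h4 := rl_inv c (fun i => (h1.1 i).1) h1.2 (hLf (Q, z) h1)
    refine ⟨⟨h3, fun L hL => ?_⟩, ?_, ?_⟩
    · rw [rl_unique c hL h4]
      exact h2 _ (hLf (Q, z) h1)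
    · intro h5
      have h6 := congrFun (Prod.ext_iff.mp h5).1 0
      exact d1_cj_ne c (h1.1 0).1 h6
    · refine Prod.ext ?_ ?_
      · funext i
        exact norm_cj c.σ (Q i)
      · exact rl_unique c (hLf (fun i => cj c.σ (Q i), -z) h3) h4
  · rintro ⟨Q, z⟩ ⟨h1, h2⟩ ⟨Q', z'⟩ ⟨h1', h2'⟩ h3
    change Q ∈ (Bx X : Set (Fin (n + 1) → HeightOneSpectrum (𝓞 F))) at h1
    change Q' ∈ (Bx X : Set (Fin (n + 1) → HeightOneSpectrum (𝓞 F))) at h1'
    obtain ⟨h4, h5⟩ := Prod.ext_iff.mp h3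
    have h6 := hLf (Q', z') h1'
    change Lf (Q', z') = Lf (Q, z) at h5
    rw [h5] at h6
    rcases rl_two c (fun i => (h1.1 i).1) h1.2 (fun i => (h1'.1 i).1) h1'.2 (fun i => congrFun h4 i)
      (hLf (Q, z) h1) h6 with ⟨h7, h8⟩ | ⟨h7, h8⟩
    · left
      exact Prod.ext h7 h8
    · right
      exact Prod.ext h7 h8

include c in
/-- **the main theorem** -/
theorem main (n : ℕ) (ε : ℝ) (hε : 0 < ε) : Nest (n + 1) fun X =>
    (Fm (Ω := Ω) X).Finite ∧ (Fm (Ω := Ω) X).Nonempty ∧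
    (shr (n + 1) - ε) * ((Fm (Ω := Ω) X).ncard : ℝ) ≤
      ({q ∈ Fm (Ω := Ω) X | ∀ K ≤ q.2 ⊔ F, ∀ (S : Set ℕ) (r : ℕ), 3 ∈ S → 1 ≤ r → Van S r K}.ncard : ℝ) := by
  have h0 := Pool.Agent.Q14.LK.nest_all (n + 1) (Finset.univ : Finset (ZMod 3)) _ fun z _ => share c n z ε hε
  refine Pool.Agent.Q14.LK.nest_mono (n + 1) ?_ h0
  intro X hX
  obtain ⟨hfin, hpos, -⟩ := hX 0 (Finset.mem_univ _)
  have h1 := count c hfin (fun _ => True)
  have h2 := count c hfin (fun L => ∀ K ≤ L ⊔ F, ∀ (S : Set ℕ) (r : ℕ), 3 ∈ S → 1 ≤ r → Van S r K)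
  have h3 := card_slices hfin (fun z Q => Gd c z Q)
  have h4 := card_slices hfin (fun _ _ => True)
  simp only [imp_true_iff, and_true] at h1 h4
  obtain ⟨h1f', h1c⟩ := h1
  have h1f : (Fm (Ω := Ω) X).Finite := h1f'
  have h6 : ({t : (Fin (n + 1) → HeightOneSpectrum (𝓞 F)) × ZMod 3 |
      t.1 ∈ (Bx X : Set (Fin (n + 1) → HeightOneSpectrum (𝓞 F)))}.ncard : ℝ) =
      3 * ((Bx X : Set (Fin (n + 1) → HeightOneSpectrum (𝓞 F))).ncard : ℝ) := by
    rw [h4.2]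
    push_cast
    simp
  have h7 : 2 * ((Fm (Ω := Ω) X).ncard : ℝ) = 3 * ((Bx X : Set (Fin (n + 1) → HeightOneSpectrum (𝓞 F))).ncard : ℝ) := by
    rw [← h6, h1c]
    push_cast
    rfl
  refine ⟨h1f, ?_, ?_⟩
  · rw [← Set.ncard_pos h1f]
    have h8 : (0 : ℝ) < ((Fm (Ω := Ω) X).ncard : ℝ) := by linarith
    exact_mod_cast h8
  · have h8 : ({t : (Fin (n + 1) → HeightOneSpectrum (𝓞 F)) × ZMod 3 |
        t.1 ∈ (Bx X : Set (Fin (n + 1) → HeightOneSpectrum (𝓞 F))) ∧ Gd c t.2 t.1}.ncard : ℝ) ≤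
        2 * ({q ∈ Fm (Ω := Ω) X | ∀ K ≤ q.2 ⊔ F, ∀ (S : Set ℕ) (r : ℕ), 3 ∈ S → 1 ≤ r → Van S r K}.ncard : ℝ) := by
      have h9 := h2.2
      have h10 : {t : (Fin (n + 1) → HeightOneSpectrum (𝓞 F)) × ZMod 3 |
          t.1 ∈ (Bx X : Set (Fin (n + 1) → HeightOneSpectrum (𝓞 F))) ∧ Gd c t.2 t.1}.ncard ≤
          2 * {q ∈ Fm (Ω := Ω) X | ∀ K ≤ q.2 ⊔ F, ∀ (S : Set ℕ) (r : ℕ), 3 ∈ S → 1 ≤ r → Van S r K}.ncard := by
        rw [← h9]
        refine Set.ncard_le_ncard ?_ (card_slices hfin (fun z Q => ∀ L : IntermediateField ℚ Ω, Rl c z Q L →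
          ∀ K ≤ L ⊔ F, ∀ (S : Set ℕ) (r : ℕ), 3 ∈ S → 1 ≤ r → Van S r K)).1
        rintro ⟨Q, z⟩ ⟨h11, h12⟩
        refine ⟨h11, ?_⟩
        rintro L ⟨hL, x, hx, hLx⟩ K hK S r hS hr
        have h13 := van_good F c h11 h12 hx hS hr
        rw [← hLx] at h13
        have hfd : FiniteDimensional ℚ (L ⊔ F : IntermediateField ℚ Ω) := by
          apply FiniteDimensional.of_finrank_pos
          rw [cub_index c hL]
          norm_num
        have hnf : NumberField (L ⊔ F : IntermediateField ℚ Ω) := ⟨⟩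
        exact van_down hK (cub_normal c hL) hr h13
      exact_mod_cast h10
    rw [h3.2] at h8
    push_cast at h8
    have h9 : 3 * ((shr (n + 1) - ε) * ((Bx X : Set (Fin (n + 1) → HeightOneSpectrum (𝓞 F))).ncard : ℝ)) ≤
        ∑ z : ZMod 3, ({Q ∈ (Bx X : Set (Fin (n + 1) → HeightOneSpectrum (𝓞 F))) | Gd c z Q}.ncard : ℝ) := by
      have h10 := Finset.card_nsmul_le_sum (Finset.univ : Finset (ZMod 3))
        (fun z => ({Q ∈ (Bx X : Set (Fin (n + 1) → HeightOneSpectrum (𝓞 F))) | Gd c z Q}.ncard : ℝ)) _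
        (fun z hz => (hX z hz).2.2)
      rw [nsmul_eq_mul, Finset.card_univ, ZMod.card] at h10
      exact_mod_cast h10
    have h10 : 2 * ((shr (n + 1) - ε) * ((Fm (Ω := Ω) X).ncard : ℝ)) =
        3 * ((shr (n + 1) - ε) * ((Bx X : Set (Fin (n + 1) → HeightOneSpectrum (𝓞 F))).ncard : ℝ)) := by
      linear_combination (shr (n + 1) - ε) * h7
    linarith

end

end Pool.Agent.H16.CC
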