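import Pool.Agent.H16.CC.Rep

/-!
# Cyclic cubic fields (helper16): each cubic field comes from exactly two tuples
-/

set_option autoImplicit false
set_option linter.unusedSectionVars false

namespace Pool.Agent.H16.CC

open NumberField IsDedekindDomain
open Pool.Agent.Q7.LK (Dp vl Lpw IsPow Cond AT Sy sy mon t_BAS t_HS2 t_CPL t_CHEB)
open Pool.Agent.Q265.LK

section

variable {Ω : Type} [Field Ω] [CharZero Ω] [IsAlgClosed Ω] [Algebra.IsAlgebraic ℚ Ω]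
variable {F : IntermediateField ℚ Ω} [NumberField F] (c : Ctx F)

theorem sup_adj {x y : Ω} (h : ∀ g ∈ F.fixingSubgroup, (g x = x ↔ g y = y)) :
    F ⊔ IntermediateField.adjoin ℚ {x} = F ⊔ IntermediateField.adjoin ℚ {y} := by
  refine ext_fix fun g => ?_
  rw [fix_sup, fix_sup, fix_adj, fix_adj]
  constructor
  · rintro ⟨h1, h2⟩
    exact ⟨h1, (h g h1).mp h2⟩
  · rintro ⟨h1, h2⟩
    exact ⟨h1, (h g h1).mpr h2⟩

theorem of_sup_adj {x y : Ω} (h : F ⊔ IntermediateField.adjoin ℚ {x} = F ⊔ IntermediateField.adjoin ℚ {y})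
    {g : Ω ≃ₐ[ℚ] Ω} (hg : g ∈ F.fixingSubgroup) : g x = x ↔ g y = y := by
  have h1 : g ∈ (F ⊔ IntermediateField.adjoin ℚ {x}).fixingSubgroup ↔
      g ∈ (F ⊔ IntermediateField.adjoin ℚ {y}).fixingSubgroup := by rw [h]
  rw [fix_sup, fix_sup, fix_adj, fix_adj] at h1
  constructor
  · intro h2
    exact (h1.mp ⟨hg, h2⟩).2
  · intro h2
    exact (h1.mpr ⟨hg, h2⟩).2

include c

/-- the action on a cube root -/
theorem rr_exists {D : F} {x : Ω} (hD0 : D ≠ 0) (hx : x ^ 3 = (D : Ω)) {g : Ω ≃ₐ[ℚ] Ω} (hg : g ∈ F.fixingSubgroup) :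
    ∃ n : ZMod 3, g x = (c.ζ : Ω) ^ n.val * x := by
  have hD0' : (D : Ω) ≠ 0 := by
    intro h
    exact hD0 (Subtype.ext h)
  have hx0 : x ≠ 0 := by
    rintro rfl
    rw [zero_pow (by norm_num)] at hx
    exact hD0' hx.symm
  have h1 : (g x / x) ^ 3 = 1 := by
    rw [div_pow, ← map_pow, hx, act1 c ((fixF c g).mp hg), div_self hD0']
  obtain ⟨n, hn⟩ := om_root c h1
  exact ⟨n, by rw [← hn, div_mul_cancel₀ _ hx0]⟩

theorem rr_mul {x : Ω} {g h : Ω ≃ₐ[ℚ] Ω} (hg : g ∈ F.fixingSubgroup) {n m : ZMod 3}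
    (h1 : g x = (c.ζ : Ω) ^ n.val * x) (h2 : h x = (c.ζ : Ω) ^ m.val * x) :
    (g * h) x = (c.ζ : Ω) ^ (n + m).val * x := by
  rw [AlgEquiv.mul_apply, h2, map_mul, map_pow, (fixF c g).mp hg, h1, om_pow_add c n m]
  ring

theorem rr_pow {x : Ω} {g : Ω ≃ₐ[ℚ] Ω} (hg : g ∈ F.fixingSubgroup) {n : ZMod 3}
    (h1 : g x = (c.ζ : Ω) ^ n.val * x) (k : ℕ) : (g ^ k) x = (c.ζ : Ω) ^ ((k : ZMod 3) * n).val * x := by
  induction k with
  | zero =>
    rw [pow_zero, Nat.cast_zero, zero_mul, ZMod.val_zero, pow_zero, one_mul]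
    rfl
  | succ k ih =>
    rw [pow_succ', rr_mul c hg h1 ih]
    congr 3
    push_cast
    ring

theorem om_pow_pow (n : ZMod 3) (j : ℕ) : ((c.ζ : Ω) ^ n.val) ^ j = (c.ζ : Ω) ^ ((j : ZMod 3) * n).val := by
  induction j with
  | zero => rw [pow_zero, Nat.cast_zero, zero_mul, ZMod.val_zero, pow_zero]
  | succ j ih =>
    rw [pow_succ, ih, ← om_pow_add c]
    congr 2
    push_cast
    ring

theorem rr_zero {x : Ω} (hx0 : x ≠ 0) {n : ZMod 3} : (c.ζ : Ω) ^ n.val * x = x ↔ n = 0 := by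
  constructor
  · intro h
    apply om_pow_inj c
    rw [ZMod.val_zero, pow_zero]
    apply mul_right_cancel₀ hx0
    rw [one_mul, h]
  · rintro rfl
    rw [ZMod.val_zero, pow_zero, one_mul]

/-- **two numbers with the same extension** -/
theorem kum_rel {D D' : F} {x x' : Ω} (hD0 : D ≠ 0) (hD0' : D' ≠ 0) (hx : x ^ 3 = (D : Ω)) (hx' : x' ^ 3 = (D' : Ω))
    (hnp : ¬ IsPow 3 D)
    (h : F ⊔ IntermediateField.adjoin ℚ {x} = F ⊔ IntermediateField.adjoin ℚ {x'}) :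
    ∃ (j : ℕ) (w : F), w ≠ 0 ∧ (j = 1 ∨ j = 2) ∧ D' = D ^ j * w ^ 3 := by
  have hx0 : x ≠ 0 := by
    rintro rfl
    rw [zero_pow (by norm_num)] at hx
    exact hD0 (Subtype.ext hx.symm)
  have hx0' : x' ≠ 0 := by
    rintro rfl
    rw [zero_pow (by norm_num)] at hx'
    exact hD0' (Subtype.ext hx'.symm)
  obtain ⟨g0, hg0, hg1⟩ := not_mem_fix (not_mem_of_not_pow c hnp hx)
  obtain ⟨n0, hn0⟩ := rr_exists c hD0 hx hg0
  obtain ⟨m0, hm0⟩ := rr_exists c hD0' hx' hg0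
  have hn0' : n0 ≠ 0 := by
    rintro rfl
    rw [(rr_zero c hx0).mpr rfl] at hn0
    exact hg1 hn0
  have hm0' : m0 ≠ 0 := by
    rintro rfl
    rw [(rr_zero c hx0').mpr rfl] at hm0
    exact hg1 ((of_sup_adj h hg0).mpr hm0)
  have hsq : ∀ s : ZMod 3, s ≠ 0 → s * s = 1 := by decide
  have hj0 : n0 * m0 ≠ 0 := by
    have : ∀ s t : ZMod 3, s ≠ 0 → t ≠ 0 → s * t ≠ 0 := by decide
    exact this _ _ hn0' hm0'
  set j := (n0 * m0).val with hj
  have hj12 : j = 1 ∨ j = 2 := by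
    have h1 : j ≠ 0 := by
      rw [hj, Ne, ZMod.val_eq_zero]
      exact hj0
    have h2 : j < 3 := ZMod.val_lt _
    omega
  have hjc : (j : ZMod 3) = n0 * m0 := by rw [hj, ZMod.natCast_zmod_val]
  have key : ∀ g ∈ F.fixingSubgroup, ∀ n m : ZMod 3, g x = (c.ζ : Ω) ^ n.val * x → g x' = (c.ζ : Ω) ^ m.val * x' →
      m = j * n := by
    intro g hg n m h1 h2
    set k := (-n * n0).val with hk
    have hkc : (k : ZMod 3) = -n * n0 := by rw [hk, ZMod.natCast_zmod_val]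
    have hgk : g0 ^ k ∈ F.fixingSubgroup := pow_mem hg0 k
    have h3 := rr_mul c hg h1 (rr_pow c hg0 hn0 k)
    have h4 := rr_mul c hg h2 (rr_pow c hg0 hm0 k)
    have h5 : n + (k : ZMod 3) * n0 = 0 := by
      rw [hkc, mul_assoc, hsq _ hn0']
      ring
    rw [h5, (rr_zero c hx0).mpr rfl] at h3
    have h6 := (of_sup_adj h (mul_mem hg hgk)).mp h3
    rw [h4, rr_zero c hx0', hkc] at h6
    rw [hjc]
    linear_combination h6
  have hu : x' / x ^ j ∈ F := by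
    by_contra hc
    obtain ⟨g, hg, hgu⟩ := not_mem_fix hc
    obtain ⟨n, hn⟩ := rr_exists c hD0 hx hg
    obtain ⟨m, hm⟩ := rr_exists c hD0' hx' hg
    apply hgu
    have h1 : (c.ζ : Ω) ^ m.val ≠ 0 := pow_ne_zero _ (om0 c)
    have h2 : x ^ j ≠ 0 := pow_ne_zero _ hx0
    rw [map_div₀, map_pow, hn, hm, mul_pow, om_pow_pow c, ← key g hg n m hn hm]
    field_simp
  refine ⟨j, ⟨_, hu⟩, ?_, hj12, ?_⟩
  · intro h1
    have h2 : x' / x ^ j = 0 := congrArg Subtype.val h1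
    exact (div_ne_zero hx0' (pow_ne_zero _ hx0)) h2
  · apply Subtype.ext
    push_cast
    rw [← hx, ← hx']
    have h2 : x ^ j ≠ 0 := pow_ne_zero _ hx0
    field_simp
    ring

end

end Pool.Agent.H16.CC
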