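import Pool.Agent.H16.CC.Fib

/-!
# Cyclic cubic fields (helper16): each cubic field comes from exactly two tuples
-/

set_option autoImplicit false
set_option linter.unusedSectionVars false

namespace Pool.Agent.H16.CC

open NumberField IsDedekindDomain
open Pool.Agent.Q7.LK (Dp vl Lpw IsPow Cond AT Sy sy mon t_BAS t_HS2 t_CPL t_CHEB)
open Pool.Agent.Q265.LK

section

variable {F : Type} [Field F] [NumberField F] (c : Ctx F)

theorem t_two_DD {k : ℕ} (z : ZMod 3) (Q : Fin k → HeightOneSpectrum (𝓞 F)) :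
    c.t c.lam 2 (DD c z Q) = z * c.t c.lam 2 c.ζ := by
  have h2 : (2 : F) ≠ 0 := two_ne_zero
  unfold DD
  rw [tmul' c c.lam (pow_ne_zero _ (z_ne c)) (prod_dd_ne c Q _) h2, t_pow' c c.lam (z_ne c) h2,
    t_prod' c c.lam _ _ (fun l => dd_ne c (Q l)) h2]
  rw [Finset.sum_eq_zero (fun l _ => t_dd c (Q l)), add_zero, ZMod.natCast_zmod_val]

theorem DD_np {n : ℕ} {Q : Fin (n + 1) → HeightOneSpectrum (𝓞 F)} (hD : ∀ i, D1 (Q i))
    (hA : ∀ i j, i ≠ j → Apt (Q i) (Q j)) (z : ZMod 3) : ¬ IsPow 3 (DD c z Q) := by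
  rintro ⟨y, hy⟩
  have hy0 : y ≠ 0 := by
    rintro rfl
    rw [zero_pow (by norm_num)] at hy
    exact DD_ne c z Q hy
  have h1 := vl_DD_self c Q hD hA z 0
  rw [hy, vl_ppow t_BAS _ hy0] at h1
  exact zero_ne_one h1

theorem t_cube {x w : F} (hx : x ≠ 0) (hw : w ≠ 0) : c.t c.lam 2 (x * w ^ 3) = c.t c.lam 2 x := by
  have h2 : (2 : F) ≠ 0 := two_ne_zero
  rw [tmul' c c.lam hx (pow_ne_zero _ hw) h2, t_pow' c c.lam hw h2]
  have : ((3 : ℕ) : ZMod 3) = 0 := by decide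
  rw [this, zero_mul, add_zero]

theorem vl_cube (v : HeightOneSpectrum (𝓞 F)) {x w : F} (hx : x ≠ 0) (hw : w ≠ 0) : vl 3 v (x * w ^ 3) = vl 3 v x := by
  rw [vl_mul t_BAS v hx (pow_ne_zero _ hw), vl_ppow t_BAS v hw, add_zero]

/-- primes with the same norm -/
theorem same_norm {v w : HeightOneSpectrum (𝓞 F)} (hv : D1 v) (hw : D1 w)
    (h : Ideal.absNorm w.asIdeal = Ideal.absNorm v.asIdeal) : w = v ∨ w = cj c.σ v := by
  by_contra hc
  push Not at hc
  obtain ⟨h1, h2, h3⟩ := d1_prime c hv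
  obtain ⟨-, h5⟩ := d1_span c h1 h2 h3
  have h6 := (d1_prime c hw).2.2
  rw [h, ← Ideal.span_singleton_le_iff_mem, h5, w.isPrime.mul_le] at h6
  rcases h6 with h6 | h6
  · exact hc.1 (eq_of_le h6).symm
  · exact hc.2 (eq_of_le h6).symm

theorem bx_cj {k : ℕ} {X : Fin k → ℕ} {Q : Fin k → HeightOneSpectrum (𝓞 F)}
    (hQ : Q ∈ (Bx X : Set (Fin k → HeightOneSpectrum (𝓞 F)))) :
    (fun i => cj c.σ (Q i)) ∈ (Bx X : Set (Fin k → HeightOneSpectrum (𝓞 F))) := by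
  refine ⟨fun i => ⟨d1_cj c.σ (hQ.1 i).1, ?_⟩, fun i j hij => ?_⟩
  · rw [norm_cj]
    exact (hQ.1 i).2
  · unfold Apt
    rw [norm_cj, norm_cj]
    exact hQ.2 i j hij

end

section

variable {Ω : Type} [Field Ω] [CharZero Ω] [IsAlgClosed Ω] [Algebra.IsAlgebraic ℚ Ω]
variable {F : IntermediateField ℚ Ω} [NumberField F] (c : Ctx F)

/-- the cubic field `L` belongs to the tuple -/
def Rl {k : ℕ} (z : ZMod 3) (Q : Fin k → HeightOneSpectrum (𝓞 F)) (L : IntermediateField ℚ Ω) : Prop :=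
  Cub L ∧ ∃ x : Ω, x ^ 3 = ((DD c z Q : F) : Ω) ∧ L ⊔ F = F ⊔ IntermediateField.adjoin ℚ {x}

theorem rl_exists {n : ℕ} {Q : Fin (n + 1) → HeightOneSpectrum (𝓞 F)} (hD : ∀ i, D1 (Q i))
    (hA : ∀ i j, i ≠ j → Apt (Q i) (Q j)) (z : ZMod 3) : ∃ L : IntermediateField ℚ Ω, Rl c z Q L := by
  obtain ⟨x, hx⟩ := IsAlgClosed.exists_pow_nat_eq ((DD c z Q : F) : Ω) (n := 3) (by norm_num)
  obtain ⟨L, hL, hLx⟩ := cub_exists c (conj_DD c z Q) (DD_np c hD hA z) hx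
  exact ⟨L, hL, x, hx, hLx⟩

theorem rl_unique {k : ℕ} {z : ZMod 3} {Q : Fin k → HeightOneSpectrum (𝓞 F)} {L L' : IntermediateField ℚ Ω}
    (h : Rl c z Q L) (h' : Rl c z Q L') : L = L' := by
  obtain ⟨hL, x, hx, hLx⟩ := h
  obtain ⟨hL', x', hx', hLx'⟩ := h'
  have hD0 : ((DD c z Q : F) : Ω) ≠ 0 := fun h => DD_ne c z Q (Subtype.ext h)
  have hx0 : x ≠ 0 := by
    rintro rfl
    rw [zero_pow (by norm_num)] at hx
    exact hD0 hx.symm
  refine cub_unique c hL hL' ?_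
  rw [hLx, hLx']
  have h1 : (x' / x) ^ 3 = 1 := by rw [div_pow, hx, hx', div_self hD0]
  obtain ⟨n, hn⟩ := om_root c h1
  rw [div_eq_iff hx0] at hn
  refine sup_adj fun g hg => ?_
  rw [hn, map_mul, map_pow, (fixF c g).mp hg]
  exact (mul_right_inj' (pow_ne_zero _ (om0 c))).symm

theorem rl_inv {k : ℕ} {z : ZMod 3} {Q : Fin k → HeightOneSpectrum (𝓞 F)} (hD : ∀ i, D1 (Q i))
    (hA : ∀ i j, i ≠ j → Apt (Q i) (Q j)) {L : IntermediateField ℚ Ω} (h : Rl c z Q L) :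
    Rl c (-z) (fun i => cj c.σ (Q i)) L := by
  obtain ⟨hL, x, hx, hLx⟩ := h
  have hD0 := DD_ne c z Q
  have hD' : ∀ i, D1 (cj c.σ (Q i)) := fun i => d1_cj c.σ (hD i)
  have hA' : ∀ i j, i ≠ j → Apt (cj c.σ (Q i)) (cj c.σ (Q j)) := by
    intro i j hij
    unfold Apt
    rw [norm_cj, norm_cj]
    exact hA i j hij
  obtain ⟨z', w, hw0, hw⟩ := rep c hD' hA' (a := (DD c z Q)⁻¹) (b := 1) (inv_ne_zero hD0)
    (by rw [map_inv₀, conj_DD, inv_inv, inv_mul_cancel₀ hD0, one_pow])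
    (fun i => by rw [vl_inv t_BAS _ hD0, vl_DD_conj c Q hD hA, neg_neg])
    (fun v _ h1 h2 => by
      rw [vl_inv t_BAS _ hD0, vl_DD_ne c Q _ (fun i => ?_) h1, neg_zero]
      have := h2 i
      rwa [cj_cj c.σ c.inv] at this)
  have hz : z' = -z := by
    have h1 := congrArg (c.t c.lam 2) hw
    rw [t_cube c (DD_ne c _ _) hw0, t_two_DD] at h1
    have h2 : c.t c.lam 2 (DD c z Q)⁻¹ = - c.t c.lam 2 (DD c z Q) := by
      rw [c.anti _ _ _ two_ne_zero (inv_ne_zero hD0), t_inv c c.lam hD0 two_ne_zero, c.anti _ _ _ hD0 two_ne_zero,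
        neg_neg]
    rw [h2, t_two_DD] at h1
    have h3 : (z' + z) * c.t c.lam 2 c.ζ = 0 := by linear_combination -h1
    have h4 := (mul_eq_zero.mp h3).resolve_right (t_lam_two c)
    exact eq_neg_of_add_eq_zero_left h4
  rw [hz] at hw
  have hD0' : ((DD c z Q : F) : Ω) ≠ 0 := fun h => hD0 (Subtype.ext h)
  have hw0' : (w : Ω) ≠ 0 := fun h => hw0 (Subtype.ext h)
  have hx0 : x ≠ 0 := by
    rintro rfl
    rw [zero_pow (by norm_num)] at hx
    exact hD0' hx.symm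
  refine ⟨hL, (x * w)⁻¹, ?_, ?_⟩
  · have h1 := congrArg (fun s : F => (s : Ω)) hw
    push_cast at h1
    rw [inv_pow, mul_pow, hx, mul_inv, h1, mul_assoc, mul_inv_cancel₀ (pow_ne_zero _ hw0'), mul_one]
  · rw [hLx]
    refine sup_adj fun g hg => ?_
    have h2 : g (w : Ω) = w := (IntermediateField.mem_fixingSubgroup_iff _ g).mp hg w w.2
    rw [map_inv₀, map_mul, h2, inv_inj]
    exact (mul_left_inj' hw0').symm

theorem rl_two {n : ℕ} {z z' : ZMod 3} {Q Q' : Fin (n + 1) → HeightOneSpectrum (𝓞 F)} (hD : ∀ i, D1 (Q i))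
    (hA : ∀ i j, i ≠ j → Apt (Q i) (Q j)) (hD' : ∀ i, D1 (Q' i)) (hA' : ∀ i j, i ≠ j → Apt (Q' i) (Q' j))
    (hN : ∀ i, Ideal.absNorm (Q' i).asIdeal = Ideal.absNorm (Q i).asIdeal) {L : IntermediateField ℚ Ω}
    (h : Rl c z Q L) (h' : Rl c z' Q' L) :
    (Q' = Q ∧ z' = z) ∨ (Q' = (fun i => cj c.σ (Q i)) ∧ z' = -z) := by
  obtain ⟨hL, x, hx, hLx⟩ := h
  obtain ⟨-, x', hx', hLx'⟩ := h'
  have hD0 := DD_ne c z Q
  obtain ⟨j, w, hw0, hj, hw⟩ := kum_rel c hD0 (DD_ne c z' Q') hx hx' (DD_np c hD hA z) (by rw [← hLx, ← hLx'])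
  have hn := fun i => same_norm c (hD i) (hD' i) (hN i)
  have ht := congrArg (c.t c.lam 2) hw
  have hv := fun v => congrArg (vl 3 v) hw
  rw [t_cube c (pow_ne_zero _ hD0) hw0, t_two_DD, t_pow' c c.lam hD0 two_ne_zero, t_two_DD] at ht
  simp only [vl_cube _ (pow_ne_zero j hD0) hw0, vl_pow t_BAS _ hD0] at hv
  have h12 : (2 : ZMod 3) ≠ 1 := by decide
  rcases hj with rfl | rfl
  · left
    constructor
    · funext i
      rcases hn i with h | h
      · exact h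
      · exfalso
        have h1 := hv (Q' i)
        rw [vl_DD_self c Q' hD' hA', h, vl_DD_conj c Q hD hA] at h1
        exact absurd h1 (by decide)
    · have h3 : (z' - z) * c.t c.lam 2 c.ζ = 0 := by
        rw [Nat.cast_one] at ht
        linear_combination ht
      exact sub_eq_zero.mp ((mul_eq_zero.mp h3).resolve_right (t_lam_two c))
  · right
    constructor
    · funext i
      rcases hn i with h | h
      · exfalso
        have h1 := hv (Q' i)
        rw [vl_DD_self c Q' hD' hA', h, vl_DD_self c Q hD hA] at h1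
        exact absurd h1 (by decide)
      · exact h
    · have h3 : (z' + z) * c.t c.lam 2 c.ζ = 0 := by
        have h4 : ((2 : ℕ) : ZMod 3) = -1 := by decide
        rw [h4] at ht
        linear_combination ht
      exact eq_neg_of_add_eq_zero_left ((mul_eq_zero.mp h3).resolve_right (t_lam_two c))

end

end Pool.Agent.H16.CC
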