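import Pool.Agent.H16.CC.Sym2
import Pool.Graph.R_pool_sql_team_seeded_3997aac3.Q150.LK.HS1A0

/-!
# Cyclic cubic fields (helper16): ramification and the discriminant
-/

set_option autoImplicit false
set_option linter.deprecated false
set_option linter.unusedSectionVars false

namespace Pool.Agent.H16.CC

open NumberField IsDedekindDomain
open Pool.Agent.Q7.LK (Dp vl Lpw IsPow Cond AT Sy sy mon t_BAS t_HS2 t_CPL t_CHEB)

section

variable {L : Type} [Field L] [NumberField L]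

theorem under_eq_span {P : Ideal (𝓞 L)} [P.IsPrime] {l : ℕ} (hl : l.Prime) (h : (l : 𝓞 L) ∈ P) :
    P.under ℤ = Ideal.span {(l : ℤ)} := by
  have hmax : (Ideal.span {(l : ℤ)}).IsMaximal := by
    have hp : Prime (l : ℤ) := Nat.prime_iff_prime_int.mp hl
    exact ((Ideal.span_singleton_prime hp.ne_zero).mpr hp).isMaximal (by
      rw [Ne, Ideal.span_singleton_eq_bot]
      exact hp.ne_zero)
  symm
  refine hmax.eq_of_le (Ideal.IsPrime.ne_top inferInstance) ?_
  rw [Ideal.span_singleton_le_iff_mem, Ideal.under_def, Ideal.mem_comap]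
  simpa using h

/-- at a prime which does not divide the discriminant the prime numbers have order one -/
theorem val_of_not_dvd {l : ℕ} (hl : l.Prime) (h : ¬ (l : ℤ) ∣ discr L) {P : HeightOneSpectrum (𝓞 L)}
    (hP : (l : 𝓞 L) ∈ P.asIdeal) : P.valuation L (l : L) = WithZero.exp (-1 : ℤ) := by
  have hp : Prime (l : ℤ) := Nat.prime_iff_prime_int.mp hl
  have h1 := (not_dvd_discr_iff_forall_mem L (𝓞 L) hp).mp h P.asIdeal P.isPrime (by exact_mod_cast hP)
  have hl0 : (l : 𝓞 L) ≠ 0 := by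
    rw [Ne, Nat.cast_eq_zero]
    exact hl.ne_zero
  have h2 : P.asIdeal.ramificationIdx ℤ = 1 := Ideal.ramificationIdx_eq_one _ _
  have h3 : (P.asIdeal.under ℤ).map (algebraMap ℤ (𝓞 L)) = Ideal.span {(l : 𝓞 L)} := by
    rw [under_eq_span hl hP, Ideal.map_span, Set.image_singleton]
    simp
  have h4 := Ideal.IsDedekindDomain.ramificationIdx_eq_multiplicity (P.asIdeal.under ℤ) P.asIdeal (by
    rw [h3, Ne, Ideal.span_singleton_eq_bot]
    exact hl0)
  rw [h2, h3] at h4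
  have h5 : (l : L) = algebraMap (𝓞 L) L (l : 𝓞 L) := by rw [map_natCast]
  rw [h5, HeightOneSpectrum.valuation_of_algebraMap, HeightOneSpectrum.intValuation_eq_exp_neg_multiplicity P hl0,
    ← h4]
  simp

end

/-- **tame ramification is seen by the discriminant** -/
theorem dvd_discr_of_vl {F L M : Type} [Field F] [NumberField F] [Field L] [NumberField L] [Field M] [NumberField M]
    [Algebra F M] [Algebra L M] (h2 : Module.finrank L M ≤ 2) {y : M} {a : F}
    (hy : y ^ 3 = algebraMap F M a) {v : HeightOneSpectrum (𝓞 F)} {l : ℕ} (hl : l.Prime)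
    (hv : (l : 𝓞 F) ∈ v.asIdeal) (h : vl 3 v a ≠ 0) : (l : ℤ) ∣ discr L := by
  by_contra hnd
  have hvm : v.asIdeal.IsMaximal := v.isMaximal
  obtain ⟨B, hB1, hB2⟩ := Ideal.exists_maximal_ideal_liesOver_of_isIntegral (S := 𝓞 M) v.asIdeal
  have hlM0 : (l : 𝓞 M) ≠ 0 := by
    rw [Ne, Nat.cast_eq_zero]
    exact hl.ne_zero
  have hlB : (l : 𝓞 M) ∈ B := by
    have h3 : algebraMap (𝓞 F) (𝓞 M) (l : 𝓞 F) ∈ B := by
      rw [← Ideal.mem_comap, ← Ideal.under_def, ← hB2.over]
      exact hv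
    rwa [map_natCast] at h3
  have hB0 : B ≠ ⊥ := by
    rintro rfl
    exact hlM0 (by simpa using hlB)
  set w : HeightOneSpectrum (𝓞 M) := ⟨B, hB1.isPrime, hB0⟩ with hw
  have hwv : w.asIdeal.LiesOver v.asIdeal := hB2
  set P : HeightOneSpectrum (𝓞 L) := w.under (𝓞 L) with hP
  have hwP : w.asIdeal.LiesOver P.asIdeal := ⟨rfl⟩
  have hlP : (l : 𝓞 L) ∈ P.asIdeal := by
    change (l : 𝓞 L) ∈ w.asIdeal.under (𝓞 L)
    rw [Ideal.under_def, Ideal.mem_comap, map_natCast]
    exact hlB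
  have hPm : P.asIdeal.IsMaximal := P.isMaximal
  set e1 := v.asIdeal.ramificationIdx' w.asIdeal with he1
  set e2 := P.asIdeal.ramificationIdx' w.asIdeal with he2
  have hnz : NoZeroSMulDivisors (𝓞 L) (𝓞 M) := ⟨fun {c x} h0 => by
    rw [Algebra.smul_def, mul_eq_zero] at h0
    refine h0.imp_left fun h1 => ?_
    exact (FaithfulSMul.algebraMap_injective (𝓞 L) (𝓞 M)) (by rw [h1, map_zero])⟩
  have he2le : e2 ≤ 2 := le_trans (Ideal.ramificationIdx_le_finrank (𝓞 M) L M w.asIdeal) h2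
  have he10 : e1 ≠ 0 := Ideal.IsDedekindDomain.ramificationIdx'_ne_zero_of_liesOver w.asIdeal v.ne_bot
  have hval1 : ∀ x : F, v.valuation F x ^ e1 = w.valuation M (algebraMap F M x) := fun x =>
    HeightOneSpectrum.valuation_liesOver M v w x
  have hval2 : ∀ x : L, P.valuation L x ^ e2 = w.valuation M (algebraMap L M x) := fun x =>
    HeightOneSpectrum.valuation_liesOver M P w x
  have hl1 := hval1 (l : F)
  have hl2 := hval2 (l : L)
  rw [map_natCast (algebraMap F M)] at hl1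
  rw [map_natCast (algebraMap L M)] at hl2
  rw [val_of_not_dvd hl hnd hlP, ← hl1] at hl2
  have hlF : (l : F) = algebraMap (𝓞 F) F (l : 𝓞 F) := by rw [map_natCast]
  have hlF0 : (l : 𝓞 F) ≠ 0 := by
    rw [Ne, Nat.cast_eq_zero]
    exact hl.ne_zero
  have h4 : v.intValuation (l : 𝓞 F) ≤ WithZero.exp (-((1 : ℕ) : ℤ)) := by
    rw [HeightOneSpectrum.intValuation_le_pow_iff_mem, pow_one]
    exact hv
  rw [hlF, HeightOneSpectrum.valuation_of_algebraMap, HeightOneSpectrum.intValuation_if_neg v hlF0] at hl2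
  rw [HeightOneSpectrum.intValuation_if_neg v hlF0, WithZero.exp_le_exp] at h4
  set f := (Associates.mk v.asIdeal).count (Associates.mk (Ideal.span {(l : 𝓞 F)})).factors with hf
  have h5 := congrArg WithZero.log hl2
  rw [WithZero.log_pow, WithZero.log_pow, WithZero.log_exp, WithZero.log_exp] at h5
  simp only [nsmul_eq_mul, Int.mul_neg, mul_one] at h5
  have h6 : (e2 : ℤ) = e1 * f := by linarith
  -- `3 ∣ e1`
  have h7 := congrArg WithZero.log (hval1 a)
  rw [← hy, map_pow, WithZero.log_pow, WithZero.log_pow] at h7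
  simp only [nsmul_eq_mul] at h7
  have h8 : (3 : ℤ) ∣ (e1 : ℤ) * WithZero.log (v.valuation F a) := ⟨_, by rw [h7]; push_cast; ring⟩
  have h9 : ¬ (3 : ℤ) ∣ WithZero.log (v.valuation F a) := by
    intro h10
    apply h
    unfold vl
    rw [neg_eq_zero]
    exact (ZMod.intCast_zmod_eq_zero_iff_dvd _ 3).mpr (by exact_mod_cast h10)
  have h10 : (3 : ℤ) ∣ e1 := (Int.Prime.dvd_mul' Nat.prime_three (by exact_mod_cast h8)).resolve_right
    (by exact_mod_cast h9)
  have h11 : 3 ∣ e1 := by exact_mod_cast h10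
  have h12 : 3 ≤ e1 := Nat.le_of_dvd (Nat.pos_of_ne_zero he10) h11
  have h13 : 1 ≤ f := by
    push_cast at h4
    omega
  have h14 : (e1 : ℤ) * 1 ≤ e1 * f := mul_le_mul_of_nonneg_left (by exact_mod_cast h13) (by positivity)
  have h15 : (3 : ℤ) ≤ e1 := by exact_mod_cast h12
  have h16 : (e2 : ℤ) ≤ 2 := by exact_mod_cast he2le
  linarith

section

variable {L : Type} [Field L] [NumberField L]

theorem not_dvd_of_val {l : ℕ} (hl : l.Prime) (h : ∀ P : HeightOneSpectrum (𝓞 L), (l : 𝓞 L) ∈ P.asIdeal →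
    P.valuation L (l : L) = WithZero.exp (-1 : ℤ)) : ¬ (l : ℤ) ∣ discr L := by
  have hp : Prime (l : ℤ) := Nat.prime_iff_prime_int.mp hl
  rw [not_dvd_discr_iff_forall_mem L (𝓞 L) hp]
  intro P hP hlP
  have hlP' : (l : 𝓞 L) ∈ P := by exact_mod_cast hlP
  have hl0 : (l : 𝓞 L) ≠ 0 := by
    rw [Ne, Nat.cast_eq_zero]
    exact hl.ne_zero
  have hP0 : P ≠ ⊥ := by
    rintro rfl
    exact hl0 (by simpa using hlP')
  have h3 : (P.under ℤ).map (algebraMap ℤ (𝓞 L)) = Ideal.span {(l : 𝓞 L)} := by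
    rw [under_eq_span hl hlP', Ideal.map_span, Set.image_singleton]
    simp
  have h4 := Ideal.IsDedekindDomain.ramificationIdx_eq_multiplicity (P.under ℤ) P (by
    rw [h3, Ne, Ideal.span_singleton_eq_bot]
    exact hl0)
  rw [← Ideal.ramificationIdx_eq_one_iff, h4, h3]
  have h5 := h ⟨P, hP, hP0⟩ hlP'
  have h6 : (l : L) = algebraMap (𝓞 L) L (l : 𝓞 L) := by rw [map_natCast]
  rw [h6, HeightOneSpectrum.valuation_of_algebraMap, HeightOneSpectrum.intValuation_eq_exp_neg_multiplicity _ hl0,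
    WithZero.exp_inj] at h5
  have h7 : ((multiplicity P (Ideal.span {(l : 𝓞 L)}) : ℕ) : ℤ) = 1 := by
    have := neg_injective h5
    exact this
  exact_mod_cast h7

end

/-- **the unramified primes** -/
theorem not_dvd_discr_of_vl {F L M : Type} [Field F] [NumberField F] [Field L] [NumberField L] [Field M]
    [NumberField M] [Algebra F M] [Algebra L M] [IsGalois F M] {ζ : F} (hζ : IsPrimitiveRoot ζ 3) {a : F}
    (hK : Pool.Agent.Q7.LK.Kum 3 F M a) (ha : ¬ IsPow 3 a) {l : ℕ} (hl : l.Prime) (hl3 : l ≠ 3)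
    (hF : ¬ (l : ℤ) ∣ discr F)
    (h : ∀ v : HeightOneSpectrum (𝓞 F), (l : 𝓞 F) ∈ v.asIdeal → vl 3 v a = 0) : ¬ (l : ℤ) ∣ discr L := by
  refine not_dvd_of_val hl fun P hlP => ?_
  have hPm : P.asIdeal.IsMaximal := P.isMaximal
  obtain ⟨B, hB1, hB2⟩ := Ideal.exists_maximal_ideal_liesOver_of_isIntegral (S := 𝓞 M) P.asIdeal
  have hlM0 : (l : 𝓞 M) ≠ 0 := by
    rw [Ne, Nat.cast_eq_zero]
    exact hl.ne_zero
  have hlB : (l : 𝓞 M) ∈ B := by
    have h3 : algebraMap (𝓞 L) (𝓞 M) (l : 𝓞 L) ∈ B := by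
      rw [← Ideal.mem_comap, ← Ideal.under_def, ← hB2.over]
      exact hlP
    rwa [map_natCast] at h3
  have hB0 : B ≠ ⊥ := by
    rintro rfl
    exact hlM0 (by simpa using hlB)
  set w : HeightOneSpectrum (𝓞 M) := ⟨B, hB1.isPrime, hB0⟩ with hw
  have hwP : w.asIdeal.LiesOver P.asIdeal := hB2
  set v : HeightOneSpectrum (𝓞 F) := w.under (𝓞 F) with hv
  have hwv : w.asIdeal.LiesOver v.asIdeal := ⟨rfl⟩
  have hlv : (l : 𝓞 F) ∈ v.asIdeal := by
    change (l : 𝓞 F) ∈ w.asIdeal.under (𝓞 F)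
    rw [Ideal.under_def, Ideal.mem_comap, map_natCast]
    exact hlB
  have hv3 : ¬ Dp 3 v := by
    intro h3
    have h5 : Nat.Coprime l 3 := (Nat.coprime_primes hl Nat.prime_three).mpr hl3
    have h6 := Int.isCoprime_iff_gcd_eq_one.mpr (by exact_mod_cast h5 : Int.gcd (l : ℤ) (3 : ℤ) = 1)
    obtain ⟨s, t, hst⟩ := h6
    have h7 : (1 : 𝓞 F) ∈ v.asIdeal := by
      have h8 : (1 : 𝓞 F) = (s : 𝓞 F) * (l : 𝓞 F) + (t : 𝓞 F) * ((3 : ℕ) : 𝓞 F) := by
        have h9 := congrArg (Int.cast : ℤ → 𝓞 F) hst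
        push_cast at h9
        rw [← h9]
        push_cast
        ring
      rw [h8]
      exact Ideal.add_mem _ (Ideal.mul_mem_left _ _ hlv) (Ideal.mul_mem_left _ _ h3)
    exact v.isPrime.ne_top ((Ideal.eq_top_iff_one _).mpr h7)
  have hun := Pool.Agent.Q150.LK.unram t_BAS hζ ha hK hv3 (h v hlv)
  have he1 : v.asIdeal.ramificationIdx' w.asIdeal = 1 := by
    by_contra h1
    have hle : v.asIdeal.map (algebraMap (𝓞 F) (𝓞 M)) ≤ w.asIdeal := by
      rw [Ideal.map_le_iff_le_comap]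
      exact le_of_eq hwv.over
    exact hun w rfl ((Ideal.ramificationIdx'_ne_one_iff hle).1 h1)
  have hval1 := HeightOneSpectrum.valuation_liesOver M v w (l : F)
  have hval2 := HeightOneSpectrum.valuation_liesOver M P w (l : L)
  rw [map_natCast (algebraMap F M)] at hval1
  rw [map_natCast (algebraMap L M)] at hval2
  rw [he1, pow_one, val_of_not_dvd hl hF hlv] at hval1
  rw [← hval1] at hval2
  have hlL0 : (l : 𝓞 L) ≠ 0 := by
    rw [Ne, Nat.cast_eq_zero]
    exact hl.ne_zero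
  have hlL : (l : L) = algebraMap (𝓞 L) L (l : 𝓞 L) := by rw [map_natCast]
  rw [hlL, HeightOneSpectrum.valuation_of_algebraMap, HeightOneSpectrum.intValuation_if_neg P hlL0] at hval2 ⊢
  set f := (Associates.mk P.asIdeal).count (Associates.mk (Ideal.span {(l : 𝓞 L)})).factors with hf
  have h5 := congrArg WithZero.log hval2
  rw [WithZero.log_pow, WithZero.log_exp, WithZero.log_exp] at h5
  simp only [nsmul_eq_mul] at h5
  have h6 : ((P.asIdeal.ramificationIdx' w.asIdeal : ℕ) : ℤ) * (f : ℤ) = 1 := by linarith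
  have h7 : P.asIdeal.ramificationIdx' w.asIdeal * f = 1 := by exact_mod_cast h6
  have h8 : f = 1 := Nat.dvd_one.mp ⟨_, by rw [mul_comm]; exact h7.symm⟩
  rw [h8]
  rfl

end Pool.Agent.H16.CC
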