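import Pool.Agent.H16.CC.Shr
import Pool.Agent.H16.CC.Ram

/-!
# Cyclic cubic fields (helper16): Galois theory over `ℚ(ζ₃)`
-/

set_option autoImplicit false
set_option linter.unusedSectionVars false

namespace Pool.Agent.H16.CC

open NumberField IsDedekindDomain
open Pool.Agent.Q7.LK (Dp vl Lpw IsPow Cond AT Sy sy mon t_BAS t_HS2 t_CPL t_CHEB)

section

variable {Ω : Type} [Field Ω] [CharZero Ω] [IsAlgClosed Ω] [Algebra.IsAlgebraic ℚ Ω]

theorem gal : IsGalois ℚ Ω := by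
  have : IsAlgClosure ℚ Ω := ⟨inferInstance, inferInstance⟩
  exact IsAlgClosure.isGalois ℚ Ω

theorem ext_fix {L M : IntermediateField ℚ Ω}
    (h : ∀ g : Ω ≃ₐ[ℚ] Ω, g ∈ L.fixingSubgroup ↔ g ∈ M.fixingSubgroup) : L = M := by
  have := gal (Ω := Ω)
  rw [← InfiniteGalois.fixedField_fixingSubgroup L, ← InfiniteGalois.fixedField_fixingSubgroup M, Subgroup.ext h]

theorem fix_adj (g : Ω ≃ₐ[ℚ] Ω) (y : Ω) : g ∈ (IntermediateField.adjoin ℚ {y}).fixingSubgroup ↔ g y = y := by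
  have h := IntermediateField.forall_mem_adjoin_smul_eq_self_iff ℚ (S := {y}) g
  rw [IntermediateField.mem_fixingSubgroup_iff]
  constructor
  · intro h1
    exact h1 y (IntermediateField.mem_adjoin_simple_self ℚ y)
  · intro h1
    exact h.mpr (by rintro z rfl; exact h1)

theorem fix_sup {L M : IntermediateField ℚ Ω} (g : Ω ≃ₐ[ℚ] Ω) :
    g ∈ (L ⊔ M).fixingSubgroup ↔ g ∈ L.fixingSubgroup ∧ g ∈ M.fixingSubgroup := by
  rw [IntermediateField.fixingSubgroup_sup, Subgroup.mem_inf]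

theorem normal_fix {L : IntermediateField ℚ Ω} : L.fixingSubgroup.Normal ↔ IsGalois ℚ L := by
  have := gal (Ω := Ω)
  exact InfiniteGalois.normal_iff_isGalois L

theorem index_fix (L : IntermediateField ℚ Ω) : L.fixingSubgroup.index = Module.finrank ℚ L := by
  have := gal (Ω := Ω)
  exact (IntermediateField.finrank_eq_fixingSubgroup_index Ω L).symm

theorem not_mem_fix {F : IntermediateField ℚ Ω} {x : Ω} (h : x ∉ F) : ∃ g ∈ F.fixingSubgroup, g x ≠ x := by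
  by_contra hc
  push Not at hc
  apply h
  have := gal (Ω := Ω)
  rw [← InfiniteGalois.fixedField_fixingSubgroup F]
  intro g
  exact hc g.1 g.2

/-- galois cubic fields -/
def Cub (L : IntermediateField ℚ Ω) : Prop := IsGalois ℚ L ∧ Module.finrank ℚ L = 3

theorem cube_fix {L : IntermediateField ℚ Ω} (hL : Cub L) (g : Ω ≃ₐ[ℚ] Ω) : g ^ 3 ∈ L.fixingSubgroup := by
  have := normal_fix.mpr hL.1
  have h1 := L.fixingSubgroup.pow_index_mem g
  rwa [index_fix, hL.2] at h1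

variable {F : IntermediateField ℚ Ω} [NumberField F] (c : Ctx F)

include c

theorem om_prim : IsPrimitiveRoot (c.ζ : Ω) 3 := c.prim.map_of_injective (f := algebraMap F Ω) (algebraMap F Ω).injective

theorem om3 : (c.ζ : Ω) ^ 3 = 1 := (om_prim c).pow_eq_one

theorem om0 : (c.ζ : Ω) ≠ 0 := (om_prim c).ne_zero (by norm_num)

theorem om_sq_ne : (c.ζ : Ω) ≠ (c.ζ : Ω) ^ 2 := by
  intro h
  have h1 := (om_prim c).pow_inj (i := 1) (j := 2) (by norm_num) (by norm_num) (by rw [pow_one]; exact h)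
  omega

theorem om_cases (g : Ω ≃ₐ[ℚ] Ω) : g (c.ζ : Ω) = c.ζ ∨ g (c.ζ : Ω) = (c.ζ : Ω) ^ 2 := by
  have h1 : (g (c.ζ : Ω)) ^ 3 = 1 := by rw [← map_pow, om3, map_one]
  obtain ⟨i, hi, h2⟩ := (om_prim c).eq_pow_of_pow_eq_one h1
  interval_cases i
  · exfalso
    rw [pow_zero] at h2
    have h3 := g.injective (h2.symm.trans (map_one g).symm)
    exact (om_prim c).ne_one (by norm_num) h3
  · left
    rw [← h2, pow_one]
  · right
    exact h2.symm

theorem eq_adj : F = IntermediateField.adjoin ℚ {(c.ζ : Ω)} := by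
  symm
  apply IntermediateField.eq_of_le_of_finrank_eq
  · rw [IntermediateField.adjoin_simple_le_iff]
    exact c.ζ.2
  · rw [c.deg, IntermediateField.adjoin.finrank ((om_prim c).isIntegral (by norm_num)).tower_top,
      ← Polynomial.cyclotomic_eq_minpoly_rat (om_prim c) (by norm_num), Polynomial.natDegree_cyclotomic]
    decide

theorem cyc : IsCyclotomicExtension {3} ℚ F := by
  have key : ∀ (E : IntermediateField ℚ Ω), E = IntermediateField.adjoin ℚ {(c.ζ : Ω)} →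
      IsCyclotomicExtension {3} ℚ E := by
    rintro _ rfl
    exact (om_prim c).intermediateField_adjoin_isCyclotomicExtension ℚ
  exact key F (eq_adj c)

theorem fixF (g : Ω ≃ₐ[ℚ] Ω) : g ∈ F.fixingSubgroup ↔ g (c.ζ : Ω) = c.ζ := by
  have key : ∀ (E : IntermediateField ℚ Ω), E = IntermediateField.adjoin ℚ {(c.ζ : Ω)} →
      (g ∈ E.fixingSubgroup ↔ g (c.ζ : Ω) = c.ζ) := by
    rintro _ rfl
    exact fix_adj g _
  exact key F (eq_adj c)

theorem act1 {g : Ω ≃ₐ[ℚ] Ω} (h : g (c.ζ : Ω) = c.ζ) (a : F) : g (a : Ω) = a :=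
  (IntermediateField.mem_fixingSubgroup_iff _ g).mp ((fixF c g).mpr h) a a.2

theorem act2 {g : Ω ≃ₐ[ℚ] Ω} (h : g (c.ζ : Ω) = (c.ζ : Ω) ^ 2) (a : F) : g (a : Ω) = ((c.σ a : F) : Ω) := by
  have := cyc c
  have h1 : (g : Ω →ₐ[ℚ] Ω).comp F.val = F.val.comp ((c.σ : F →+* F).toRatAlgHom) := by
    refine (c.prim.powerBasis ℚ).algHom_ext ?_
    rw [IsPrimitiveRoot.powerBasis_gen]
    change g (c.ζ : Ω) = ((c.σ c.ζ : F) : Ω)
    rw [h, c.conj]
    rfl
  exact DFunLike.congr_fun h1 a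

theorem fixF_normal : F.fixingSubgroup.Normal := by
  rw [normal_fix]
  have := cyc c
  exact IsCyclotomicExtension.isGalois {3} ℚ F

theorem sq_fixF (g : Ω ≃ₐ[ℚ] Ω) : g ^ 2 ∈ F.fixingSubgroup := by
  have := fixF_normal c
  have h1 := F.fixingSubgroup.pow_index_mem g
  rwa [index_fix, c.deg] at h1

theorem exists_tau : ∃ τ : Ω ≃ₐ[ℚ] Ω, τ (c.ζ : Ω) = (c.ζ : Ω) ^ 2 := by
  by_contra hc
  push Not at hc
  have h1 : F.fixingSubgroup = ⊤ := by
    rw [Subgroup.eq_top_iff']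
    intro g
    rw [fixF c]
    exact (om_cases c g).resolve_right (hc g)
  have h2 := index_fix F
  rw [h1, Subgroup.index_top, c.deg] at h2
  omega

theorem cub_iff {L : IntermediateField ℚ Ω} (hL : Cub L) (g : Ω ≃ₐ[ℚ] Ω) :
    g ∈ L.fixingSubgroup ↔ g ^ 2 ∈ (L ⊔ F).fixingSubgroup := by
  rw [fix_sup]
  constructor
  · intro h
    exact ⟨L.fixingSubgroup.pow_mem h 2, sq_fixF c g⟩
  · rintro ⟨h, -⟩
    have h1 := cube_fix hL g
    have h2 : g = g ^ 3 * (g ^ 2)⁻¹ := by group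
    rw [h2]
    exact L.fixingSubgroup.mul_mem h1 (L.fixingSubgroup.inv_mem h)

theorem cub_unique {L L' : IntermediateField ℚ Ω} (hL : Cub L) (hL' : Cub L') (h : L ⊔ F = L' ⊔ F) : L = L' := by
  refine ext_fix fun g => ?_
  rw [cub_iff c hL, cub_iff c hL', h]

theorem cub_normal {L : IntermediateField ℚ Ω} (hL : Cub L) : (L ⊔ F).fixingSubgroup.Normal := by
  rw [IntermediateField.fixingSubgroup_sup]
  have h1 := normal_fix.mpr hL.1
  have h2 := fixF_normal c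
  exact inferInstance

theorem cub_index {L : IntermediateField ℚ Ω} (hL : Cub L) : Module.finrank ℚ (L ⊔ F : IntermediateField ℚ Ω) = 6 := by
  rw [← index_fix, IntermediateField.fixingSubgroup_sup]
  have h1 := Subgroup.index_inf_le (H := L.fixingSubgroup) (K := F.fixingSubgroup)
  rw [index_fix L, index_fix F, hL.2, c.deg] at h1
  have h2 : 3 ∣ (L.fixingSubgroup ⊓ F.fixingSubgroup).index := by
    have h3 := Subgroup.index_dvd_of_le (inf_le_left : L.fixingSubgroup ⊓ F.fixingSubgroup ≤ _)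
    rwa [index_fix L, hL.2] at h3
  have h3 : 2 ∣ (L.fixingSubgroup ⊓ F.fixingSubgroup).index := by
    have h3 := Subgroup.index_dvd_of_le (inf_le_right : L.fixingSubgroup ⊓ F.fixingSubgroup ≤ _)
    rwa [index_fix F, c.deg] at h3
  have h4 : (L.fixingSubgroup ⊓ F.fixingSubgroup).index ≠ 0 := by
    have h5 : L.fixingSubgroup.index ≠ 0 := by rw [index_fix, hL.2]; norm_num
    have h6 : F.fixingSubgroup.index ≠ 0 := by rw [index_fix, c.deg]; norm_num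
    exact Subgroup.index_inf_ne_zero h5 h6
  omega

/-! ### The characters -/

/-- the action on `x` -/
def Pr (ω x : Ω) (g : Ω ≃ₐ[ℚ] Ω) (n : ZMod 3) : Prop :=
  (g ω = ω ∧ g x = ω ^ n.val * x) ∨ (g ω = ω ^ 2 ∧ g x = (ω ^ n.val * x)⁻¹)

theorem om_pow_inj {n m : ZMod 3} (h : (c.ζ : Ω) ^ n.val = (c.ζ : Ω) ^ m.val) : n = m :=
  ZMod.val_injective 3 ((om_prim c).pow_inj n.val_lt m.val_lt h)

theorem om_pow_add (n m : ZMod 3) : (c.ζ : Ω) ^ (n + m).val = (c.ζ : Ω) ^ n.val * (c.ζ : Ω) ^ m.val := by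
  rw [ZMod.val_add, ← pow_add]
  conv_rhs => rw [← Nat.mod_add_div (n.val + m.val) 3, pow_add, pow_mul, om3 c, one_pow, mul_one]

theorem om_root {y : Ω} (h : y ^ 3 = 1) : ∃ n : ZMod 3, y = (c.ζ : Ω) ^ n.val := by
  obtain ⟨i, hi, h2⟩ := (om_prim c).eq_pow_of_pow_eq_one h
  refine ⟨(i : ZMod 3), ?_⟩
  rw [ZMod.val_natCast, Nat.mod_eq_of_lt hi, h2]

theorem om_inv (k : ℕ) : ((c.ζ : Ω) ^ 2) ^ k = ((c.ζ : Ω) ^ k)⁻¹ := by
  have h := om3 c
  have h0 := om0 c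
  apply eq_inv_of_mul_eq_one_left
  have h1 : (c.ζ : Ω) ^ 2 * c.ζ = 1 := by rw [← h]; ring
  rw [← mul_pow, h1, one_pow]

theorem pr_exists {D : F} {x : Ω} (hD0 : D ≠ 0) (hD : c.σ D = D⁻¹) (hx : x ^ 3 = (D : Ω)) (g : Ω ≃ₐ[ℚ] Ω) :
    ∃ n, Pr (c.ζ : Ω) x g n := by
  have hD0' : (D : Ω) ≠ 0 := by
    intro h
    exact hD0 (Subtype.ext h)
  have hx0 : x ≠ 0 := by
    rintro rfl
    rw [zero_pow (by norm_num)] at hx
    exact hD0' hx.symm
  rcases om_cases c g with h | h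
  · have h1 : (g x / x) ^ 3 = 1 := by
      rw [div_pow, ← map_pow, hx, act1 c h, div_self hD0']
    obtain ⟨n, hn⟩ := om_root c h1
    refine ⟨n, Or.inl ⟨h, ?_⟩⟩
    rw [← hn, div_mul_cancel₀ _ hx0]
  · have h1 : ((g x * x)⁻¹) ^ 3 = 1 := by
      rw [inv_pow, mul_pow, ← map_pow, hx, act2 c h, hD]
      push_cast
      rw [inv_mul_cancel₀ hD0', inv_one]
    obtain ⟨n, hn⟩ := om_root c h1
    refine ⟨n, Or.inr ⟨h, ?_⟩⟩
    rw [← hn, mul_inv, inv_inv, mul_assoc, mul_inv_cancel₀ hx0, mul_one]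

theorem pr_unique {x : Ω} (hx0 : x ≠ 0) {g : Ω ≃ₐ[ℚ] Ω} {n m : ZMod 3} (h1 : Pr (c.ζ : Ω) x g n)
    (h2 : Pr (c.ζ : Ω) x g m) : n = m := by
  apply om_pow_inj c
  rcases h1 with ⟨h1, h3⟩ | ⟨h1, h3⟩ <;> rcases h2 with ⟨h2, h4⟩ | ⟨h2, h4⟩
  · rw [h3] at h4
    exact mul_right_cancel₀ hx0 h4
  · exact absurd (h1.symm.trans h2) (om_sq_ne c)
  · exact absurd (h2.symm.trans h1) (om_sq_ne c)
  · rw [h3] at h4
    exact mul_right_cancel₀ hx0 (inv_injective h4)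

theorem pr_mul {x : Ω} {g h : Ω ≃ₐ[ℚ] Ω} {n m : ZMod 3} (h1 : Pr (c.ζ : Ω) x g n)
    (h2 : Pr (c.ζ : Ω) x h m) : Pr (c.ζ : Ω) x (g * h) (n + m) := by
  have h0 := om0 c
  have hk := om_inv c
  have h3 := om3 c
  unfold Pr
  simp only [AlgEquiv.mul_apply, om_pow_add c n m]
  rcases h1 with ⟨h1, h3⟩ | ⟨h1, h3⟩ <;> rcases h2 with ⟨h2, h4⟩ | ⟨h2, h4⟩
  · left
    rw [h2, h1, h4, map_mul, map_pow, h1, h3]
    exact ⟨rfl, by ring⟩
  · right
    rw [h2, h4, map_inv₀, map_mul, map_pow, map_pow, h1, h3]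
    exact ⟨rfl, by rw [mul_inv, mul_inv, mul_inv, mul_inv]; ring⟩
  · right
    rw [h2, h1, h4, map_mul, map_pow, h1, h3, hk m.val]
    exact ⟨rfl, by rw [mul_inv, mul_inv, mul_inv]; ring⟩
  · left
    rw [h2, h4, map_inv₀, map_mul, map_pow, map_pow, h1, h3, hk m.val]
    refine ⟨?_, by rw [mul_inv, mul_inv, mul_inv, inv_inv, inv_inv, inv_inv]; ring⟩
    calc ((c.ζ : Ω) ^ 2) ^ 2 = (c.ζ : Ω) ^ 3 * (c.ζ : Ω) := by ring
      _ = (c.ζ : Ω) := by rw [om3 c, one_mul]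

end

end Pool.Agent.H16.CC
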