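import Pool.Agent.H16.CC.Gal

/-!
# Cyclic cubic fields (helper16): the cubic field which belongs to a number, and the converse
-/

set_option autoImplicit false
set_option linter.unusedSectionVars false

namespace Pool.Agent.H16.CC

open NumberField IsDedekindDomain
open Pool.Agent.Q7.LK (Dp vl Lpw IsPow Cond AT Sy sy mon t_BAS t_HS2 t_CPL t_CHEB)

section

variable {Ω : Type} [Field Ω] [CharZero Ω] [IsAlgClosed Ω] [Algebra.IsAlgebraic ℚ Ω]
variable {F : IntermediateField ℚ Ω} [NumberField F] (c : Ctx F)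

include c

theorem pr_zero {D : F} {x : Ω} (hD : c.σ D = D⁻¹) (hnp : ¬ IsPow 3 D) (hx : x ^ 3 = (D : Ω)) (g : Ω ≃ₐ[ℚ] Ω) :
    Pr (c.ζ : Ω) x g 0 ↔ g (x + x⁻¹) = x + x⁻¹ := by
  have hD0 : D ≠ 0 := by
    rintro rfl
    exact hnp ⟨0, by rw [zero_pow (by norm_num)]⟩
  have hD0' : (D : Ω) ≠ 0 := by
    intro h
    exact hD0 (Subtype.ext h)
  have hx0 : x ≠ 0 := by
    rintro rfl
    rw [zero_pow (by norm_num)] at hx
    exact hD0' hx.symm
  constructor
  · rintro (⟨h1, h2⟩ | ⟨h1, h2⟩)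
    · rw [ZMod.val_zero, pow_zero, one_mul] at h2
      rw [map_add, map_inv₀, h2]
    · rw [ZMod.val_zero, pow_zero, one_mul] at h2
      rw [map_add, map_inv₀, h2, inv_inv, add_comm]
  · intro h
    obtain ⟨n, hn⟩ := pr_exists c hD0 hD hx g
    set Y := (c.ζ : Ω) ^ n.val * x with hY
    have hY0 : Y ≠ 0 := mul_ne_zero (pow_ne_zero _ (om0 c)) hx0
    have h1 : Y + Y⁻¹ = x + x⁻¹ := by
      rw [← h]
      rcases hn with ⟨-, h2⟩ | ⟨-, h2⟩
      · rw [map_add, map_inv₀, h2]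
      · rw [map_add, map_inv₀, h2, inv_inv, add_comm]
    have h2 : (Y - x) * (x * Y - 1) = 0 := by
      field_simp at h1
      linear_combination h1
    rcases mul_eq_zero.mp h2 with h3 | h3
    · have h4 : (c.ζ : Ω) ^ n.val = (c.ζ : Ω) ^ (0 : ZMod 3).val := by
        rw [ZMod.val_zero, pow_zero]
        apply mul_right_cancel₀ hx0
        rw [one_mul, ← hY]
        exact sub_eq_zero.mp h3
      rw [om_pow_inj c h4] at hn
      exact hn
    · exfalso
      have h4 : x * Y = 1 := sub_eq_zero.mp h3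
      have h5 : (D : Ω) ^ 2 = 1 := by
        have h6 : (x * Y) ^ 3 = 1 := by rw [h4, one_pow]
        have h7 : ((c.ζ : Ω) ^ n.val) ^ 3 = 1 := by rw [← pow_mul, mul_comm, pow_mul, om3 c, one_pow]
        calc (D : Ω) ^ 2 = x ^ 3 * x ^ 3 := by rw [hx]; ring
          _ = x ^ 3 * (((c.ζ : Ω) ^ n.val) ^ 3 * x ^ 3) := by rw [h7, one_mul]
          _ = (x * Y) ^ 3 := by rw [hY]; ring
          _ = 1 := h6
      have h6 : D ^ 2 = 1 := by
        apply Subtype.ext
        push_cast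
        exact h5
      have h7 : (D - 1) * (D + 1) = 0 := by linear_combination h6
      rcases mul_eq_zero.mp h7 with h8 | h8
      · exact hnp ⟨1, by rw [sub_eq_zero.mp h8]; norm_num⟩
      · exact hnp ⟨-1, by rw [eq_neg_of_add_eq_zero_left h8]; norm_num⟩

theorem not_mem_of_not_pow {D : F} {x : Ω} (hnp : ¬ IsPow 3 D) (hx : x ^ 3 = (D : Ω)) : x ∉ F := by
  intro h
  exact hnp ⟨⟨x, h⟩, Subtype.ext hx.symm⟩

/-- **the cubic field** -/
theorem cub_exists {D : F} {x : Ω} (hD : c.σ D = D⁻¹) (hnp : ¬ IsPow 3 D) (hx : x ^ 3 = (D : Ω)) :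
    ∃ L : IntermediateField ℚ Ω, Cub L ∧ L ⊔ F = F ⊔ IntermediateField.adjoin ℚ {x} := by
  have hD0 : D ≠ 0 := by
    rintro rfl
    exact hnp ⟨0, by rw [zero_pow (by norm_num)]⟩
  have hx0 : x ≠ 0 := by
    rintro rfl
    rw [zero_pow (by norm_num)] at hx
    exact hD0 (Subtype.ext hx.symm)
  choose f hf using pr_exists c hD0 hD hx
  let φ : (Ω ≃ₐ[ℚ] Ω) →* Multiplicative (ZMod 3) := MonoidHom.mk' (fun g => Multiplicative.ofAdd (f g))
    (fun g h => by
      rw [← ofAdd_add]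
      congr 1
      exact pr_unique c hx0 (hf _) (pr_mul c (hf g) (hf h)))
  have hφ : ∀ g, φ g = Multiplicative.ofAdd (f g) := fun _ => rfl
  have hker : ∀ g, g ∈ φ.ker ↔ Pr (c.ζ : Ω) x g 0 := by
    intro g
    rw [MonoidHom.mem_ker, hφ, ofAdd_eq_one]
    constructor
    · intro h
      have h1 := hf g
      rwa [h] at h1
    · intro h
      exact pr_unique c hx0 (hf g) h
  have hL : (IntermediateField.adjoin ℚ {x + x⁻¹} : IntermediateField ℚ Ω).fixingSubgroup = φ.ker := by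
    ext g
    rw [fix_adj, hker, pr_zero c hD hnp hx]
  refine ⟨IntermediateField.adjoin ℚ {x + x⁻¹}, ⟨?_, ?_⟩, ?_⟩
  · rw [← normal_fix, hL]
    exact inferInstance
  · rw [← index_fix, hL, Subgroup.index_ker]
    have h1 : Nat.card φ.range ∣ 3 := by
      have h2 := Subgroup.card_subgroup_dvd_card φ.range
      rwa [Nat.card_eq_fintype_card (α := Multiplicative (ZMod 3)), Fintype.card_multiplicative, ZMod.card] at h2
    rcases (Nat.dvd_prime Nat.prime_three).mp h1 with h2 | h2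
    · exfalso
      obtain ⟨g, hg1, hg2⟩ := not_mem_fix (not_mem_of_not_pow c hnp hx)
      rw [Subgroup.card_eq_one] at h2
      have h3 : φ g ∈ φ.range := ⟨g, rfl⟩
      rw [h2, Subgroup.mem_bot, ← MonoidHom.mem_ker, hker] at h3
      rcases h3 with ⟨-, h4⟩ | ⟨h4, -⟩
      · rw [ZMod.val_zero, pow_zero, one_mul] at h4
        exact hg2 h4
      · exact om_sq_ne c (((fixF c g).mp hg1).symm.trans h4)
    · exact h2
  · refine ext_fix fun g => ?_
    rw [fix_sup, fix_sup, fix_adj, fix_adj, ← pr_zero c hD hnp hx, fixF c]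
    constructor
    · rintro ⟨⟨-, h4⟩ | ⟨h4, -⟩, h2⟩
      · rw [ZMod.val_zero, pow_zero, one_mul] at h4
        exact ⟨h2, h4⟩
      · exact absurd (h2.symm.trans h4) (om_sq_ne c)
    · rintro ⟨h2, h4⟩
      exact ⟨Or.inl ⟨h2, by rw [ZMod.val_zero, pow_zero, one_mul, h4]⟩, h2⟩

/-- **Kummer theory** -/
theorem cub_kum {L : IntermediateField ℚ Ω} (hL : Cub L) : ∃ (a : F) (y : Ω), a ≠ 0 ∧ y ^ 3 = (a : Ω) ∧
    ¬ IsPow 3 a ∧ (∃ b : F, a * c.σ a = b ^ 3) ∧ L ⊔ F = F ⊔ IntermediateField.adjoin ℚ {y} := by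
  have hn := normal_fix.mpr hL.1
  have hcard : Nat.card ((Ω ≃ₐ[ℚ] Ω) ⧸ L.fixingSubgroup) = 3 := by
    have h1 := index_fix L
    rw [hL.2] at h1
    exact h1
  have hcard2 : Nat.card (Multiplicative (ZMod 3)) = 3 := by
    rw [Nat.card_eq_fintype_card, Fintype.card_multiplicative, ZMod.card]
  let e : ((Ω ≃ₐ[ℚ] Ω) ⧸ L.fixingSubgroup) ≃* Multiplicative (ZMod 3) := mulEquivOfPrimeCardEq (p := 3) hcard hcard2
  let ψ : (Ω ≃ₐ[ℚ] Ω) →* Multiplicative (ZMod 3) := e.toMonoidHom.comp (QuotientGroup.mk' L.fixingSubgroup)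
  have hψ : ∀ g, ψ g = 1 ↔ g ∈ L.fixingSubgroup := by
    intro g
    change e (QuotientGroup.mk' L.fixingSubgroup g) = 1 ↔ _
    rw [MulEquiv.map_eq_one_iff, ← MonoidHom.mem_ker, QuotientGroup.ker_mk']
  set φ : (Ω ≃ₐ[ℚ] Ω) → ZMod 3 := fun g => Multiplicative.toAdd (ψ g) with hφ
  have hφm : ∀ g h, φ (g * h) = φ g + φ h := by
    intro g h
    rw [hφ]
    change Multiplicative.toAdd (ψ (g * h)) = _
    rw [map_mul, toAdd_mul]
  have hφ0 : ∀ g, φ g = 0 ↔ g ∈ L.fixingSubgroup := by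
    intro g
    rw [← hψ]
    exact toAdd_eq_zero
  have hfd : FiniteDimensional ℚ L := by
    apply FiniteDimensional.of_finrank_pos
    rw [hL.2]
    norm_num
  have hopen : IsOpen (L.fixingSubgroup : Set (Ω ≃ₐ[ℚ] Ω)) := IntermediateField.fixingSubgroup_isOpen L
  have hlc : IsLocallyConstant (fun g : F.fixingSubgroup => φ g.1) := by
    rw [IsLocallyConstant.iff_exists_open]
    intro g
    refine ⟨{h | g.1⁻¹ * h.1 ∈ L.fixingSubgroup}, ?_, ?_, ?_⟩
    · exact hopen.preimage (continuous_const.mul continuous_subtype_val)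
    · change g.1⁻¹ * g.1 ∈ L.fixingSubgroup
      rw [inv_mul_cancel]
      exact one_mem _
    · intro h hh
      have h1 : φ (g.1⁻¹ * h.1) = 0 := (hφ0 _).mpr hh
      have h2 : h.1 = g.1 * (g.1⁻¹ * h.1) := by group
      change φ h.1 = φ g.1
      rw [h2, hφm, h1, add_zero]
  obtain ⟨a, y, ha, hy, hact⟩ := Pool.Agent.Q283.SP.t_KUM 3 Ω F c.ζ c.prim (fun g => φ g.1) hlc
    (fun g h => hφm g.1 h.1)
  have hy0 : y ≠ 0 := by
    rintro rfl
    rw [zero_pow (by norm_num)] at hy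
    exact ha (Subtype.ext hy.symm)
  have hfix : ∀ g ∈ F.fixingSubgroup, (g y = y ↔ g ∈ L.fixingSubgroup) := by
    intro g hg
    rw [hact ⟨g, hg⟩, ← hφ0]
    constructor
    · intro h
      have h1 : (c.ζ : Ω) ^ (φ g).val = (c.ζ : Ω) ^ (0 : ZMod 3).val := by
        rw [ZMod.val_zero, pow_zero]
        apply mul_right_cancel₀ hy0
        rw [one_mul]
        exact h
      exact om_pow_inj c h1
    · intro h
      change (c.ζ : Ω) ^ (φ g).val * y = y
      rw [h, ZMod.val_zero, pow_zero, one_mul]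
  refine ⟨a, y, ha, hy, ?_, ?_, ?_⟩
  · rintro ⟨s, hs⟩
    have h1 : y ∈ F := by
      have h2 : (y / s) ^ 3 = 1 := by
        rw [div_pow, hy, hs]
        push_cast
        apply div_self
        intro h3
        apply ha
        apply Subtype.ext
        rw [hs]
        push_cast
        exact h3
      obtain ⟨n, hn⟩ := om_root c h2
      have hs0 : (s : Ω) ≠ 0 := by
        intro h3
        apply ha
        apply Subtype.ext
        rw [hs]
        push_cast
        rw [h3]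
        norm_num
      rw [div_eq_iff hs0] at hn
      rw [hn]
      exact mul_mem (pow_mem c.ζ.2 _) s.2
    have h2 : F.fixingSubgroup ≤ L.fixingSubgroup := by
      intro g hg
      rw [← hfix g hg]
      exact (IntermediateField.mem_fixingSubgroup_iff _ g).mp hg y h1
    have h3 := Subgroup.index_dvd_of_le h2
    rw [index_fix, index_fix, hL.2, c.deg] at h3
    omega
  · obtain ⟨τ, hτ⟩ := exists_tau c
    have hb : y * τ y ∈ F := by
      by_contra hc
      obtain ⟨g, hg1, hg2⟩ := not_mem_fix hc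
      apply hg2
      have h1 : τ⁻¹ * g * τ ∈ F.fixingSubgroup := by
        have h2 := (fixF_normal c).conj_mem g hg1 τ⁻¹
        rwa [inv_inv] at h2
      have h2 : φ (τ⁻¹ * g * τ) = φ g := by
        have h3 : φ τ + φ (τ⁻¹ * g * τ) = φ τ + φ g := by
          rw [add_comm (φ τ) (φ g), ← hφm, ← hφm]
          congr 1
          group
        exact add_left_cancel h3
      have h3 : g (τ y) = τ ((τ⁻¹ * g * τ) y) := by
        rw [← AlgEquiv.mul_apply, ← AlgEquiv.mul_apply]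
        congr 1
        group
      have h4 := hact ⟨_, h1⟩
      have h5 := hact ⟨g, hg1⟩
      change (τ⁻¹ * g * τ) y = (c.ζ : Ω) ^ (φ (τ⁻¹ * g * τ)).val * y at h4
      change g y = (c.ζ : Ω) ^ (φ g).val * y at h5
      rw [map_mul, h3, h4, h5, h2, map_mul, map_pow, hτ, om_inv c]
      have h6 : (c.ζ : Ω) ^ (φ g).val ≠ 0 := pow_ne_zero _ (om0 c)
      field_simp
    refine ⟨⟨_, hb⟩, Subtype.ext ?_⟩
    push_cast
    rw [mul_pow, ← map_pow, hy, act2 c hτ]
  · refine ext_fix fun g => ?_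
    rw [fix_sup, fix_sup, fix_adj]
    constructor
    · rintro ⟨h1, h2⟩
      exact ⟨h2, (hfix g h2).mpr h1⟩
    · rintro ⟨h1, h2⟩
      exact ⟨(hfix g h1).mp h2, h1⟩

end

end Pool.Agent.H16.CC
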