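import Pool.Agent.H16.CC.Nst

/-!
# Cyclic cubic fields (helper16): linear algebra and the count of the good tables
-/

set_option autoImplicit false

namespace Pool.Agent.H16.CC

open Finset

/-- the matrix of the table, with the first column replaced by the symbols of `ζ` -/
def MM {n : ℕ} (z : ZMod 3) (τ : Fin (n + 1) → Fin (n + 1) → ZMod 3) : Matrix (Fin (n + 1)) (Fin (n + 1)) (ZMod 3) :=
  fun i l => if l = 0 then τ i i else pm z τ i l

theorem pm_ne {k : ℕ} (z : ZMod 3) (τ : Fin k → Fin k → ZMod 3) {i l : Fin k} (h : l ≠ i) : pm z τ i l = τ i l := by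
  unfold pm
  rw [if_neg h]

theorem pm_self {k : ℕ} (z : ZMod 3) (τ : Fin k → Fin k → ZMod 3) (i : Fin k) :
    pm z τ i i = -(z * τ i i + ∑ l' ∈ univ.erase i, τ i l') := by
  unfold pm
  rw [if_pos rfl]

theorem pm_sum {k : ℕ} (z : ZMod 3) (τ : Fin k → Fin k → ZMod 3) (i : Fin k) : ∑ l, pm z τ i l = - (z * τ i i) := by
  rw [← Finset.add_sum_erase _ _ (mem_univ i), pm_self]
  have h : ∑ l ∈ univ.erase i, pm z τ i l = ∑ l ∈ univ.erase i, τ i l :=
    Finset.sum_congr rfl fun l hl => pm_ne z τ (ne_of_mem_erase hl)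
  rw [h]
  ring

theorem MM_inj {n : ℕ} (z : ZMod 3) : Function.Injective (MM (n := n) z) := by
  intro τ τ' h
  have h0 : ∀ i, τ i i = τ' i i := by
    intro i
    have h1 := congrFun (congrFun h i) 0
    unfold MM at h1
    rwa [if_pos rfl, if_pos rfl] at h1
  have h1 : ∀ i l, l ≠ 0 → pm z τ i l = pm z τ' i l := by
    intro i l hl
    have h1 := congrFun (congrFun h i) l
    unfold MM at h1
    rwa [if_neg hl, if_neg hl] at h1
  have h2 : ∀ i l, l ≠ 0 → l ≠ i → τ i l = τ' i l := by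
    intro i l hl hli
    have h3 := h1 i l hl
    rwa [pm_ne z τ hli, pm_ne z τ' hli] at h3
  funext i l
  by_cases hli : l = i
  · rw [hli, h0]
  by_cases hl : l = 0
  · subst hl
    have hi : i ≠ 0 := fun h => hli h.symm
    have h3 := h1 i i hi
    rw [pm_self, pm_self, h0 i] at h3
    have h0i : (0 : Fin (n + 1)) ∈ univ.erase i := mem_erase.mpr ⟨hli, mem_univ _⟩
    rw [← Finset.add_sum_erase _ _ h0i, ← Finset.add_sum_erase _ (fun l' => τ' i l') h0i] at h3
    have h4 : ∑ x ∈ (univ.erase i).erase 0, τ i x = ∑ x ∈ (univ.erase i).erase 0, τ' i x := by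
      refine Finset.sum_congr rfl fun x hx => ?_
      rw [mem_erase, mem_erase] at hx
      exact h2 i x hx.1 hx.2.1
    rw [h4] at h3
    have h5 := neg_injective h3
    have h6 := add_left_cancel h5
    exact add_right_cancel h6
  · exact h2 i l hl hli

theorem good1 {n : ℕ} (z : ZMod 3) (τ : Fin (n + 1) → Fin (n + 1) → ZMod 3) (h : (MM z τ).det ≠ 0)
    (x : Fin (n + 1) → ZMod 3) (x0 : ZMod 3) (hx : ∀ i, ∑ l, x l * pm z τ i l + x0 * τ i i = 0) :
    ∃ y, (∀ l, x l = y) ∧ x0 = z * y := by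
  have h1 : (MM z τ).mulVec (fun l => if l = 0 then x0 - z * x 0 else x l - x 0) = 0 := by
    funext i
    rw [Matrix.mulVec, dotProduct, Pi.zero_apply, ← Finset.add_sum_erase _ _ (mem_univ 0)]
    unfold MM
    simp only [if_true]
    have h2 : ∑ l ∈ univ.erase (0 : Fin (n + 1)), (if l = 0 then τ i i else pm z τ i l) *
        (if l = 0 then x0 - z * x 0 else x l - x 0) = ∑ l, pm z τ i l * (x l - x 0) := by
      rw [← Finset.add_sum_erase univ (fun l => pm z τ i l * (x l - x 0)) (mem_univ 0), sub_self, mul_zero, zero_add]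
      refine Finset.sum_congr rfl fun l hl => ?_
      rw [if_neg (ne_of_mem_erase hl), if_neg (ne_of_mem_erase hl)]
    rw [h2]
    have h3 : ∑ l, pm z τ i l * (x l - x 0) = ∑ l, x l * pm z τ i l - x 0 * ∑ l, pm z τ i l := by
      rw [Finset.mul_sum, ← Finset.sum_sub_distrib]
      exact Finset.sum_congr rfl fun l _ => by ring
    rw [h3, pm_sum]
    linear_combination hx i
  have h2 := Matrix.eq_zero_of_mulVec_eq_zero h h1
  refine ⟨x 0, fun l => ?_, ?_⟩
  · by_cases hl : l = 0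
    · rw [hl]
    · have h3 := congrFun h2 l
      simp only [if_neg hl, Pi.zero_apply] at h3
      exact sub_eq_zero.mp h3
  · have h3 := congrFun h2 0
    simp only [if_true, Pi.zero_apply] at h3
    exact sub_eq_zero.mp h3

theorem good2 {n : ℕ} (z : ZMod 3) (τ : Fin (n + 1) → Fin (n + 1) → ZMod 3) (h : (MM z τ).det ≠ 0)
    (m : Fin (n + 1) → ZMod 3) (h1 : ∀ l, ∑ i, m i * pm z τ i l = 0) (h2 : ∑ i, m i * τ i i = 0) : m = 0 := by
  refine Matrix.eq_zero_of_vecMul_eq_zero h ?_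
  funext l
  rw [Matrix.vecMul, dotProduct, Pi.zero_apply]
  unfold MM
  by_cases hl : l = 0
  · simp only [if_pos hl]
    exact h2
  · simp only [if_neg hl]
    exact h1 l

/-- the number of the good tables -/
theorem card_good (n : ℕ) (z : ZMod 3) :
    (univ.filter fun τ : Fin (n + 1) → Fin (n + 1) → ZMod 3 => (MM z τ).det ≠ 0).card =
      ∏ i : Fin (n + 1), (3 ^ (n + 1) - 3 ^ (i : ℕ)) := by
  classical
  have h1 := Matrix.card_GL_field (𝔽 := ZMod 3) (n + 1)
  rw [ZMod.card] at h1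
  rw [← h1]
  have hbij : Function.Bijective (MM (n := n) z) := by
    have h2 : Function.Injective (MM (n := n) z) := MM_inj z
    exact (Finite.injective_iff_bijective (α := Fin (n + 1) → Fin (n + 1) → ZMod 3)).mp h2
  have h2 : (univ.filter fun τ : Fin (n + 1) → Fin (n + 1) → ZMod 3 => (MM z τ).det ≠ 0).card =
      (univ.filter fun A : Matrix (Fin (n + 1)) (Fin (n + 1)) (ZMod 3) => A.det ≠ 0).card := by
    refine Finset.card_bij (fun τ _ => MM z τ) ?_ ?_ ?_
    · intro τ hτ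
      rw [mem_filter] at hτ ⊢
      exact ⟨mem_univ _, hτ.2⟩
    · intro τ _ τ' _ h
      exact hbij.1 h
    · intro A hA
      obtain ⟨τ, hτ⟩ := hbij.2 A
      refine ⟨τ, ?_, hτ⟩
      rw [mem_filter] at hA ⊢
      rw [hτ]
      exact ⟨mem_univ _, hA.2⟩
  rw [h2, Nat.card_eq_fintype_card]
  symm
  refine Finset.card_bij (s := (univ : Finset (GL (Fin (n + 1)) (ZMod 3)))) (fun g _ => (g : Matrix _ _ (ZMod 3)))
    ?_ ?_ ?_
  · intro g _
    rw [mem_filter]
    exact ⟨mem_univ _, (Matrix.isUnits_det_units g).ne_zero⟩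
  · intro g _ g' _ h
    exact Units.ext h
  · intro A hA
    rw [mem_filter] at hA
    exact ⟨Matrix.GeneralLinearGroup.mkOfDetNeZero A hA.2, mem_univ _, rfl⟩

/-- `∏_{j=1}^k (1 - 3^(-j))` -/
noncomputable def shr (k : ℕ) : ℝ := ∏ j ∈ range k, (1 - 1 / 3 ^ (j + 1))

theorem shr_eq (n : ℕ) :
    ((∏ i : Fin (n + 1), (3 ^ (n + 1) - 3 ^ (i : ℕ)) : ℕ) : ℝ) * (1 / (3 : ℝ) ^ ((n + 1) ^ 2)) = shr (n + 1) := by
  have h1 : (1 / (3 : ℝ) ^ ((n + 1) ^ 2)) = ∏ _i : Fin (n + 1), (1 / (3 : ℝ) ^ (n + 1)) := by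
    rw [prod_const, card_univ, Fintype.card_fin, one_div, one_div, ← inv_pow, ← inv_pow, ← pow_mul, sq]
  rw [h1, Nat.cast_prod, ← prod_mul_distrib]
  unfold shr
  rw [← prod_range_reflect, Fin.prod_univ_eq_prod_range
    (fun i => ((3 ^ (n + 1) - 3 ^ i : ℕ) : ℝ) * (1 / (3 : ℝ) ^ (n + 1))) (n + 1)]
  refine prod_congr rfl fun i hi => ?_
  rw [mem_range] at hi
  have h2 : 3 ^ i ≤ 3 ^ (n + 1) := Nat.pow_le_pow_right (by norm_num) hi.le
  have h3 : n + 1 - 1 - i + 1 = n + 1 - i := by omega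
  rw [Nat.cast_sub h2, h3]
  push_cast
  have h4 : (3 : ℝ) ^ (n + 1) = 3 ^ (n + 1 - i) * 3 ^ i := by
    rw [← pow_add]
    congr 1
    omega
  have h5 : (3 : ℝ) ^ i ≠ 0 := by positivity
  have h6 : (3 : ℝ) ^ (n + 1 - i) ≠ 0 := by positivity
  rw [h4]
  field_simp

theorem shr_ge (k : ℕ) : 0.56 < shr k := by
  have key : ∀ m : ℕ, shr 8 * (1 - (1 / 3 ^ 8 - 1 / 3 ^ (8 + m)) / 2) ≤ shr (8 + m) := by
    intro m
    induction m with
    | zero => simp
    | succ m ih =>
      have h1 : shr (8 + (m + 1)) = shr (8 + m) * (1 - 1 / 3 ^ (8 + m + 1)) := by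
        unfold shr
        rw [← add_assoc, prod_range_succ]
      have h8 : 0 ≤ shr 8 := by
        unfold shr
        refine prod_nonneg fun j _ => ?_
        have : (1 : ℝ) / 3 ^ (j + 1) ≤ 1 := by
          rw [div_le_one (by positivity)]
          exact one_le_pow₀ (by norm_num)
        linarith
      set u : ℝ := 1 / 3 ^ (8 + m) with hu
      have hu0 : 0 < u := by positivity
      have hu1 : u ≤ 1 / 3 ^ 8 := by
        rw [hu]
        apply one_div_le_one_div_of_le (by positivity)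
        exact pow_le_pow_right₀ (by norm_num) (by omega)
      have h2 : (1 : ℝ) / 3 ^ (8 + m + 1) = u / 3 := by
        rw [hu, pow_succ]
        field_simp
      have h3 : (1 : ℝ) / 3 ^ (8 + (m + 1)) = u / 3 := by
        rw [← h2]
        rfl
      rw [h1, h2, h3]
      have h4 : (1 : ℝ) / 3 ^ 8 ≤ 1 := by norm_num
      have h5 : (0 : ℝ) ≤ 1 - u / 3 := by linarith
      refine le_trans ?_ (mul_le_mul_of_nonneg_right ih h5)
      rw [mul_assoc]
      refine mul_le_mul_of_nonneg_left ?_ h8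
      nlinarith
  by_cases hk : 8 ≤ k
  · obtain ⟨m, rfl⟩ := Nat.exists_eq_add_of_le hk
    refine lt_of_lt_of_le ?_ (key m)
    have h1 : (0 : ℝ) < 1 / 3 ^ (8 + m) := by positivity
    have h2 : shr 8 * (1 - 1 / 3 ^ 8 / 2) ≤ shr 8 * (1 - (1 / 3 ^ 8 - 1 / 3 ^ (8 + m)) / 2) := by
      refine mul_le_mul_of_nonneg_left (by linarith) ?_
      unfold shr
      refine prod_nonneg fun j _ => ?_
      have : (1 : ℝ) / 3 ^ (j + 1) ≤ 1 := by
        rw [div_le_one (by positivity)]
        exact one_le_pow₀ (by norm_num)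
      linarith
    refine lt_of_lt_of_le ?_ h2
    unfold shr
    norm_num [prod_range_succ]
  · rw [not_le] at hk
    unfold shr
    interval_cases k <;> norm_num [prod_range_succ]

end Pool.Agent.H16.CC
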