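import Pool.Agent.H16.CC.Dens
import Pool.Agent.H16.CC.Crit2
import Pool.Graph.R_pool_sql_team_seeded_3997aac3.Q153.LK.NEST

/-!
# Cyclic cubic fields (helper16): equidistribution of the tables
-/

set_option autoImplicit false

namespace Pool.Agent.H16.CC

open NumberField IsDedekindDomain Filter Topology
open Pool.Agent.Q7.LK (Dp vl Lpw IsPow Cond AT Sy sy mon t_BAS t_HS2 t_CPL t_CHEB)
open Pool.Agent.Q265.LK
open Pool.Agent.Q283.LQ (Nest)
open Pool.Agent.Q53.LQ2.NEST (Cs Nm fin_Cs tend_top ratio_congr fin_norm fin_dvd ncard_le nest_mono)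

variable {F : Type} [Field F] [NumberField F] (c : Ctx F)

/-- the tuples of primes of degree one over different prime numbers -/
def Bx {k : ℕ} (X : Fin k → ℕ) : Set (Fin k → HeightOneSpectrum (𝓞 F)) :=
  {Q | (∀ i, D1 (Q i) ∧ Ideal.absNorm (Q i).asIdeal ≤ X i) ∧ ∀ i j, i ≠ j → Apt (Q i) (Q j)}

/-- `v` may be added to the tuple `q` -/
def Wd {k : ℕ} (q : Fin k → HeightOneSpectrum (𝓞 F)) (v : HeightOneSpectrum (𝓞 F)) : Prop :=
  D1 v ∧ ∀ i, Apt (q i) v

theorem mem_bx_snoc {k : ℕ} {X : Fin k → ℕ} {x : ℕ} {q : Fin k → HeightOneSpectrum (𝓞 F)}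
    {v : HeightOneSpectrum (𝓞 F)} :
    (Fin.snoc (α := fun _ => HeightOneSpectrum (𝓞 F)) q v : Fin (k + 1) → _) ∈
        (Bx (Fin.snoc (α := fun _ => ℕ) X x) : Set (Fin (k + 1) → HeightOneSpectrum (𝓞 F))) ↔
      q ∈ (Bx X : Set (Fin k → HeightOneSpectrum (𝓞 F))) ∧ Ideal.absNorm v.asIdeal ≤ x ∧ Wd q v := by
  constructor
  · rintro ⟨h1, h2⟩
    refine ⟨⟨?_, ?_⟩, ?_, ?_, ?_⟩
    · intro i
      have := h1 i.castSucc
      rwa [Fin.snoc_castSucc, Fin.snoc_castSucc] at this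
    · intro i j hij
      have := h2 i.castSucc j.castSucc (fun h => hij (Fin.castSucc_injective _ h))
      rwa [Fin.snoc_castSucc, Fin.snoc_castSucc] at this
    · have := (h1 (Fin.last k)).2
      rwa [Fin.snoc_last, Fin.snoc_last] at this
    · have := (h1 (Fin.last k)).1
      rwa [Fin.snoc_last] at this
    · intro i
      have := h2 i.castSucc (Fin.last k) (Fin.castSucc_lt_last i).ne
      rwa [Fin.snoc_castSucc, Fin.snoc_last] at this
  · rintro ⟨⟨h1, h2⟩, h3, h4, h5⟩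
    refine ⟨?_, ?_⟩
    · intro i
      refine Fin.lastCases ?_ ?_ i
      · rw [Fin.snoc_last, Fin.snoc_last]
        exact ⟨h4, h3⟩
      · intro j
        rw [Fin.snoc_castSucc, Fin.snoc_castSucc]
        exact h1 j
    · intro i j
      refine Fin.lastCases ?_ ?_ i
      · refine Fin.lastCases ?_ ?_ j
        · intro h
          exact absurd rfl h
        · intro j' _
          rw [Fin.snoc_castSucc, Fin.snoc_last]
          exact (h5 j').symm
      · intro i'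
        refine Fin.lastCases ?_ ?_ j
        · intro _
          rw [Fin.snoc_castSucc, Fin.snoc_last]
          exact h5 i'
        · intro j' h
          rw [Fin.snoc_castSucc, Fin.snoc_castSucc]
          exact h2 i' j' (fun h' => h (by rw [h']))

open Classical in
theorem bx_sum {k : ℕ} {X : Fin k → ℕ}
    (hB : (Bx X : Set (Fin k → HeightOneSpectrum (𝓞 F))).Finite) (x : ℕ)
    (R : (Fin (k + 1) → HeightOneSpectrum (𝓞 F)) → Prop) :
    {q' ∈ (Bx (Fin.snoc (α := fun _ => ℕ) X x) : Set (Fin (k + 1) → HeightOneSpectrum (𝓞 F))) |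
        R q'}.Finite ∧
    {q' ∈ (Bx (Fin.snoc (α := fun _ => ℕ) X x) : Set (Fin (k + 1) → HeightOneSpectrum (𝓞 F))) |
        R q'}.ncard =
      ∑ q ∈ hB.toFinset,
        (Cs (fun v => Wd q v ∧ R (Fin.snoc (α := fun _ => HeightOneSpectrum (𝓞 F)) q v)) x).ncard := by
  set C : (Fin k → HeightOneSpectrum (𝓞 F)) → Finset (HeightOneSpectrum (𝓞 F)) := fun q =>
    (fin_Cs (fun v => Wd q v ∧ R (Fin.snoc (α := fun _ => HeightOneSpectrum (𝓞 F)) q v)) x).toFinset
    with hC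
  set φ : (Σ _ : Fin k → HeightOneSpectrum (𝓞 F), HeightOneSpectrum (𝓞 F)) →
      (Fin (k + 1) → HeightOneSpectrum (𝓞 F)) :=
    fun p => Fin.snoc (α := fun _ => HeightOneSpectrum (𝓞 F)) p.1 p.2 with hφ
  have hinj : Function.Injective φ := by
    rintro ⟨q, v⟩ ⟨q', v'⟩ h
    have h1 := Fin.snoc_injective2 h
    obtain ⟨h2, h3⟩ := h1
    subst h2
    subst h3
    rfl
  have hset : {q' ∈ (Bx (Fin.snoc (α := fun _ => ℕ) X x) :
      Set (Fin (k + 1) → HeightOneSpectrum (𝓞 F))) | R q'} =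
      (((hB.toFinset.sigma C).image φ : Finset _) : Set _) := by
    ext q'
    rw [Finset.coe_image, Set.mem_image]
    constructor
    · rintro ⟨h1, h2⟩
      have e : Fin.snoc (α := fun _ => HeightOneSpectrum (𝓞 F)) (Fin.init q') (q' (Fin.last k)) = q' :=
        Fin.snoc_init_self q'
      rw [← e] at h1 h2
      rw [mem_bx_snoc] at h1
      refine ⟨⟨Fin.init q', q' (Fin.last k)⟩, ?_, e⟩
      rw [Finset.mem_coe, Finset.mem_sigma]
      refine ⟨(Set.Finite.mem_toFinset hB).2 h1.1, ?_⟩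
      exact (Set.Finite.mem_toFinset _).2 ⟨h1.2.1, h1.2.2, h2⟩
    · rintro ⟨⟨q, v⟩, h1, rfl⟩
      rw [Finset.mem_coe, Finset.mem_sigma] at h1
      have h2 := (Set.Finite.mem_toFinset hB).1 h1.1
      have h3 := (Set.Finite.mem_toFinset _).1 h1.2
      exact ⟨mem_bx_snoc.2 ⟨h2, h3.1, h3.2.1⟩, h3.2.2⟩
  rw [hset]
  refine ⟨Finset.finite_toSet _, ?_⟩
  rw [Set.ncard_coe_finset, Finset.card_image_of_injective _ hinj, Finset.card_sigma]
  refine Finset.sum_congr rfl fun q _ => ?_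
  rw [Set.ncard_eq_toFinset_card _ (fin_Cs _ x)]

/-- the table of the first `k` primes -/
def rs {k : ℕ} (τ : Fin (k + 1) → Fin (k + 1) → ZMod 3) (i l : Fin k) : ZMod 3 := τ i.castSucc l.castSucc

/-- the conditions on the last prime -/
def NewC {k : ℕ} (τ : Fin (k + 1) → Fin (k + 1) → ZMod 3) (q : Fin k → HeightOneSpectrum (𝓞 F))
    (v : HeightOneSpectrum (𝓞 F)) : Prop :=
  (∀ i : Fin k, sy 3 c.ζ v (dd c (q i)) = τ (Fin.last k) i.castSucc) ∧
    (∀ i : Fin k, sy 3 c.ζ v (nq (q i)) = τ i.castSucc (Fin.last k)) ∧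
    sy 3 c.ζ v c.ζ = τ (Fin.last k) (Fin.last k)

theorem tab_snoc {k : ℕ} {τ : Fin (k + 1) → Fin (k + 1) → ZMod 3} {q : Fin k → HeightOneSpectrum (𝓞 F)}
    (hq : ∀ i, D1 (q i)) {v : HeightOneSpectrum (𝓞 F)} (hv : Wd q v) :
    tab c (Fin.snoc (α := fun _ => HeightOneSpectrum (𝓞 F)) q v) = τ ↔ tab c q = rs τ ∧ NewC c τ q v := by
  have hne : ∀ i : Fin k, Fin.last k ≠ i.castSucc := fun i => (Fin.castSucc_lt_last i).ne'
  have h1 : ∀ i l : Fin k, tab c (Fin.snoc (α := fun _ => HeightOneSpectrum (𝓞 F)) q v) i.castSucc l.castSucc =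
      tab c q i l := by
    intro i l
    unfold tab
    simp only [Fin.snoc_castSucc, Fin.castSucc_inj]
  have h2 : ∀ i : Fin k, tab c (Fin.snoc (α := fun _ => HeightOneSpectrum (𝓞 F)) q v) i.castSucc (Fin.last k) =
      sy 3 c.ζ v (nq (q i)) := by
    intro i
    unfold tab
    rw [if_neg (hne i), Fin.snoc_castSucc, Fin.snoc_last]
    exact swap c hv.1 (hq i) (hv.2 i).symm
  have h3 : ∀ i : Fin k, tab c (Fin.snoc (α := fun _ => HeightOneSpectrum (𝓞 F)) q v) (Fin.last k) i.castSucc =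
      sy 3 c.ζ v (dd c (q i)) := by
    intro i
    unfold tab
    rw [if_neg (hne i).symm, Fin.snoc_castSucc, Fin.snoc_last]
  have h4 : tab c (Fin.snoc (α := fun _ => HeightOneSpectrum (𝓞 F)) q v) (Fin.last k) (Fin.last k) =
      sy 3 c.ζ v c.ζ := by
    unfold tab
    rw [if_pos rfl, Fin.snoc_last]
  constructor
  · intro h
    refine ⟨?_, ?_, ?_, ?_⟩
    · funext i l
      rw [← h1, h]
      rfl
    · intro i
      rw [← h3, h]
    · intro i
      rw [← h2, h]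
    · rw [← h4, h]
  · rintro ⟨h5, h6, h7, h8⟩
    funext i l
    refine Fin.lastCases ?_ ?_ i
    · refine Fin.lastCases ?_ ?_ l
      · rw [h4, h8]
      · intro l'
        rw [h3, h6]
    · intro i'
      refine Fin.lastCases ?_ ?_ l
      · rw [h2, h7]
      · intro l'
        rw [h1, h5]
        rfl

/-- the elements whose symbols are prescribed -/
noncomputable def uu {k : ℕ} (q : Fin k → HeightOneSpectrum (𝓞 F)) : Fin (k + k + 1) → F :=
  Fin.snoc (α := fun _ => F) (Fin.append (fun i => dd c (q i)) fun i => nq (q i)) c.ζ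

theorem uu_ne {k : ℕ} {q : Fin k → HeightOneSpectrum (𝓞 F)} (hq : ∀ i, D1 (q i)) (j : Fin (k + k + 1)) :
    uu c q j ≠ 0 := by
  unfold uu
  refine Fin.lastCases ?_ ?_ j
  · rw [Fin.snoc_last]
    exact z_ne c
  · intro i
    rw [Fin.snoc_castSucc]
    refine Fin.addCases ?_ ?_ i
    · intro l
      rw [Fin.append_left]
      exact dd_ne c (q l)
    · intro l
      rw [Fin.append_right]
      exact nq_ne c (hq l)

theorem uu_indep {k : ℕ} {q : Fin k → HeightOneSpectrum (𝓞 F)} (hq : ∀ i, D1 (q i))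
    (hA : ∀ i j, i ≠ j → Apt (q i) (q j)) (e : Fin (k + k + 1) → ZMod 3) (he : IsPow 3 (mon (uu c q) e)) : e = 0 := by
  have hu0 := uu_ne c hq
  obtain ⟨r, hr⟩ := he
  have hr0 : r ≠ 0 := by
    rintro rfl
    rw [zero_pow (by norm_num)] at hr
    exact mon_ne _ hu0 e hr
  have hv : ∀ v : HeightOneSpectrum (𝓞 F), (∑ i : Fin k, e (Fin.castAdd k i).castSucc * vl 3 v (dd c (q i))) +
      (∑ i : Fin k, e (Fin.natAdd k i).castSucc * vl 3 v (nq (q i) : F)) = 0 := by
    intro v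
    have h1 : vl 3 v (mon (uu c q) e) = 0 := by
      rw [hr]
      exact vl_ppow t_BAS v hr0
    rw [vl_mon t_BAS v _ hu0, Fin.sum_univ_castSucc, Fin.sum_univ_add] at h1
    unfold uu at h1
    simp only [Fin.snoc_castSucc, Fin.snoc_last, Fin.append_left, Fin.append_right, vl_z, mul_zero, add_zero] at h1
    exact h1
  have hd : ∀ i l, l ≠ i → vl 3 (q i) (dd c (q l)) = 0 ∧ vl 3 (cj c.σ (q i)) (dd c (q l)) = 0 ∧
      vl 3 (q i) (nq (q l) : F) = 0 ∧ vl 3 (cj c.σ (q i)) (nq (q l) : F) = 0 := by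
    intro i l hl
    obtain ⟨h1, h2⟩ := apt_ne c (hA l i hl)
    have h3 := apt_ne c (hA i l hl.symm)
    have h4 : cj c.σ (q i) ≠ cj c.σ (q l) := fun h4 => h3.1 (by
      rw [← cj_cj c.σ c.inv (q l), ← h4, cj_cj c.σ c.inv])
    exact ⟨vl_dd_ne c h1 h2, vl_dd_ne c h3.2.symm h4, vl_out c (hq l) h1 h2, vl_out c (hq l) h3.2.symm h4⟩
  have hi : ∀ i : Fin k, e (Fin.castAdd k i).castSucc = 0 ∧ e (Fin.natAdd k i).castSucc = 0 := by
    intro i
    have h1 := hv (q i)
    have h2 := hv (cj c.σ (q i))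
    rw [Finset.sum_eq_single i (fun l _ hl => by rw [(hd i l hl).1, mul_zero])
      (fun h => absurd (Finset.mem_univ i) h),
      Finset.sum_eq_single i (fun l _ hl => by rw [(hd i l hl).2.2.1, mul_zero])
      (fun h => absurd (Finset.mem_univ i) h), vl_dd_self c (hq i), vl_in c (hq i)] at h1
    rw [Finset.sum_eq_single i (fun l _ hl => by rw [(hd i l hl).2.1, mul_zero])
      (fun h => absurd (Finset.mem_univ i) h),
      Finset.sum_eq_single i (fun l _ hl => by rw [(hd i l hl).2.2.2, mul_zero])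
      (fun h => absurd (Finset.mem_univ i) h), vl_dd_conj c (hq i), vl_in' c (hq i)] at h2
    generalize e (Fin.castAdd k i).castSucc = x at h1 h2 ⊢
    generalize e (Fin.natAdd k i).castSucc = y at h1 h2 ⊢
    revert x y
    decide
  have hl : e (Fin.last (k + k)) = 0 := by
    have h1 : mon (uu c q) e = c.ζ ^ (e (Fin.last (k + k))).val := by
      unfold mon
      rw [Fin.prod_univ_castSucc, Fin.prod_univ_add]
      have h2 : ∏ i : Fin k, uu c q (Fin.castAdd k i).castSucc ^ (e (Fin.castAdd k i).castSucc).val = 1 :=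
        Finset.prod_eq_one fun i _ => by rw [(hi i).1, ZMod.val_zero, pow_zero]
      have h3 : ∏ i : Fin k, uu c q (Fin.natAdd k i).castSucc ^ (e (Fin.natAdd k i).castSucc).val = 1 :=
        Finset.prod_eq_one fun i _ => by rw [(hi i).2, ZMod.val_zero, pow_zero]
      rw [h2, h3, one_mul, one_mul]
      unfold uu
      rw [Fin.snoc_last]
    rw [h1] at hr
    have h2 : c.t c.lam 2 (c.ζ ^ (e (Fin.last (k + k))).val) = 0 := by
      rw [hr]
      exact tpow' c c.lam (lpw_pow t_BAS _ hr0) two_ne_zero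
    rw [t_pow' c c.lam (z_ne c) two_ne_zero, ZMod.natCast_zmod_val] at h2
    exact (mul_eq_zero.mp h2).resolve_right (t_lam_two c)
  funext j
  refine Fin.lastCases ?_ ?_ j
  · exact hl
  · intro i
    refine Fin.addCases ?_ ?_ i
    · intro l
      exact (hi l).1
    · intro l
      exact (hi l).2

theorem fin_apt {k : ℕ} (q : Fin k → HeightOneSpectrum (𝓞 F)) :
    {v : HeightOneSpectrum (𝓞 F) | ∃ i, ¬ Apt (q i) v}.Finite := by
  refine (fin_norm (F := F) (∑ i, Ideal.absNorm (q i).asIdeal)).subset ?_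
  rintro v ⟨i, hi⟩
  unfold Apt at hi
  rw [not_not] at hi
  change Ideal.absNorm v.asIdeal ≤ _
  rw [← hi]
  exact Finset.single_le_sum (f := fun i => Ideal.absNorm (q i).asIdeal) (fun _ _ => Nat.zero_le _) (Finset.mem_univ i)

theorem lim_wd {k : ℕ} {q : Fin k → HeightOneSpectrum (𝓞 F)} (P : HeightOneSpectrum (𝓞 F) → Prop) {L : ℝ}
    (h : Tendsto (fun x : ℕ => ((Cs P x).ncard : ℝ) / Nm F x) atTop (𝓝 L)) (c : Ctx F) :
    Tendsto (fun x : ℕ => ((Cs (fun v => Wd q v ∧ P v) x).ncard : ℝ) / Nm F x) atTop (𝓝 L) := by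
  refine ratio_congr (fin_apt q) ?_ (dens_d1 c P h)
  intro v hv
  have h1 : ∀ i, Apt (q i) v := by
    intro i
    by_contra hc
    exact hv ⟨i, hc⟩
  constructor
  · rintro ⟨h2, h3⟩
    exact ⟨⟨h2, h1⟩, h3⟩
  · rintro ⟨⟨h2, _⟩, h3⟩
    exact ⟨h2, h3⟩

theorem lim_new {k : ℕ} {q : Fin k → HeightOneSpectrum (𝓞 F)} (hq : ∀ i, D1 (q i))
    (hA : ∀ i j, i ≠ j → Apt (q i) (q j)) (τ : Fin (k + 1) → Fin (k + 1) → ZMod 3) :
    Tendsto (fun x : ℕ => ((Cs (fun v => Wd q v ∧ NewC c τ q v) x).ncard : ℝ) / Nm F x) atTop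
      (𝓝 (1 / (3 : ℝ) ^ (2 * k + 1))) := by
  refine lim_wd _ ?_ c
  have h1 := t_CHEB 3 F c.ζ c.prim (k + k + 1) (uu c q) (uu_ne c hq) (uu_indep c hq hA)
    (Fin.snoc (α := fun _ => ZMod 3) (Fin.append (fun i => τ (Fin.last k) i.castSucc)
      fun i => τ i.castSucc (Fin.last k)) (τ (Fin.last k) (Fin.last k)))
  have h2 : k + k + 1 = 2 * k + 1 := by ring
  rw [← h2]
  have h3 : ∀ v : HeightOneSpectrum (𝓞 F), (∀ i, sy 3 c.ζ v (uu c q i) =
      (Fin.snoc (α := fun _ => ZMod 3) (Fin.append (fun i => τ (Fin.last k) i.castSucc)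
      fun i => τ i.castSucc (Fin.last k)) (τ (Fin.last k) (Fin.last k)) : Fin (k + k + 1) → ZMod 3) i) ↔
      NewC c τ q v := by
    intro v
    constructor
    · intro h
      refine ⟨fun i => ?_, fun i => ?_, ?_⟩
      · have h4 := h (Fin.castAdd k i).castSucc
        unfold uu at h4
        rwa [Fin.snoc_castSucc, Fin.snoc_castSucc, Fin.append_left, Fin.append_left] at h4
      · have h4 := h (Fin.natAdd k i).castSucc
        unfold uu at h4
        rwa [Fin.snoc_castSucc, Fin.snoc_castSucc, Fin.append_right, Fin.append_right] at h4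
      · have h4 := h (Fin.last (k + k))
        unfold uu at h4
        rwa [Fin.snoc_last, Fin.snoc_last] at h4
    · rintro ⟨h4, h5, h6⟩ j
      unfold uu
      refine Fin.lastCases ?_ ?_ j
      · rw [Fin.snoc_last, Fin.snoc_last]
        exact h6
      · intro i
        rw [Fin.snoc_castSucc, Fin.snoc_castSucc]
        refine Fin.addCases ?_ ?_ i
        · intro l
          rw [Fin.append_left, Fin.append_left]
          exact h4 l
        · intro l
          rw [Fin.append_right, Fin.append_right]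
          exact h5 l
  have h4 : (NewC c τ q : HeightOneSpectrum (𝓞 F) → Prop) = fun v => ∀ i, sy 3 c.ζ v (uu c q i) =
      (Fin.snoc (α := fun _ => ZMod 3) (Fin.append (fun i => τ (Fin.last k) i.castSucc)
      fun i => τ i.castSucc (Fin.last k)) (τ (Fin.last k) (Fin.last k)) : Fin (k + k + 1) → ZMod 3) i := by
    funext v
    exact propext (h3 v).symm
  rw [h4]
  exact_mod_cast h1

theorem lim_not {k : ℕ} {q : Fin k → HeightOneSpectrum (𝓞 F)} (hq : ∀ i, D1 (q i))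
    {τ : Fin (k + 1) → Fin (k + 1) → ZMod 3} (hτ : tab c q ≠ rs τ) :
    Tendsto (fun x : ℕ => ((Cs (fun v => Wd q v ∧
      tab c (Fin.snoc (α := fun _ => HeightOneSpectrum (𝓞 F)) q v) = τ) x).ncard : ℝ) / Nm F x)
      atTop (𝓝 0) := by
  have h1 : ∀ x, (Cs (fun v => Wd q v ∧
      tab c (Fin.snoc (α := fun _ => HeightOneSpectrum (𝓞 F)) q v) = τ) x) = ∅ := by
    intro x
    refine Set.eq_empty_of_forall_notMem fun v hv => ?_
    have h2 := hv.2.2
    rw [tab_snoc c hq hv.2.1] at h2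
    exact hτ h2.1
  simp only [h1, Set.ncard_empty, Nat.cast_zero, zero_div]
  exact tendsto_const_nhds

theorem lim_yes {k : ℕ} {q : Fin k → HeightOneSpectrum (𝓞 F)} (hq : ∀ i, D1 (q i))
    (hA : ∀ i j, i ≠ j → Apt (q i) (q j)) {τ : Fin (k + 1) → Fin (k + 1) → ZMod 3} (hτ : tab c q = rs τ) :
    Tendsto (fun x : ℕ => ((Cs (fun v => Wd q v ∧
      tab c (Fin.snoc (α := fun _ => HeightOneSpectrum (𝓞 F)) q v) = τ) x).ncard : ℝ) / Nm F x)
      atTop (𝓝 (1 / (3 : ℝ) ^ (2 * k + 1))) := by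
  refine ratio_congr Set.finite_empty ?_ (lim_new c hq hA τ)
  intro v _
  constructor
  · rintro ⟨h1, h2⟩
    exact ⟨h1, (tab_snoc c hq h1).mpr ⟨hτ, h2⟩⟩
  · rintro ⟨h1, h2⟩
    exact ⟨h1, ((tab_snoc c hq h1).mp h2).2⟩

open Classical in
theorem step {k : ℕ} (τ : Fin (k + 1) → Fin (k + 1) → ZMod 3) {ε : ℝ} (hε : 0 < ε) {X : Fin k → ℕ}
    (h1 : (Bx X : Set (Fin k → HeightOneSpectrum (𝓞 F))).Finite)
    (h2 : 0 < ((Bx X : Set (Fin k → HeightOneSpectrum (𝓞 F))).ncard : ℝ))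
    (h3 : |({q ∈ (Bx X : Set (Fin k → HeightOneSpectrum (𝓞 F))) | tab c q = rs τ}.ncard : ℝ) /
      ((Bx X : Set (Fin k → HeightOneSpectrum (𝓞 F))).ncard : ℝ) - 1 / (3 : ℝ) ^ (k ^ 2)| ≤ ε / 2) :
    ∀ᶠ x : ℕ in atTop,
    (Bx (Fin.snoc (α := fun _ => ℕ) X x) : Set (Fin (k + 1) → HeightOneSpectrum (𝓞 F))).Finite ∧
    0 < ((Bx (Fin.snoc (α := fun _ => ℕ) X x) : Set (Fin (k + 1) → HeightOneSpectrum (𝓞 F))).ncard : ℝ) ∧
    |({q ∈ (Bx (Fin.snoc (α := fun _ => ℕ) X x) : Set (Fin (k + 1) → HeightOneSpectrum (𝓞 F))) |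
        tab c q = τ}.ncard : ℝ) /
      ((Bx (Fin.snoc (α := fun _ => ℕ) X x) : Set (Fin (k + 1) → HeightOneSpectrum (𝓞 F))).ncard : ℝ) -
        1 / (3 : ℝ) ^ ((k + 1) ^ 2)| ≤ ε := by
  set B := h1.toFinset with hBdef
  have hBc : ((Bx X : Set (Fin k → HeightOneSpectrum (𝓞 F))).ncard : ℝ) = (B.card : ℝ) := by
    rw [Set.ncard_eq_toFinset_card _ h1]
  have hBt : ({q ∈ (Bx X : Set (Fin k → HeightOneSpectrum (𝓞 F))) |
      tab c q = rs τ}.ncard : ℝ) = ((B.filter fun q => tab c q = rs τ).card : ℝ) := by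
    rw [← Set.ncard_coe_finset]
    congr 2
    ext q
    rw [Finset.mem_coe, Finset.mem_filter, hBdef, Set.Finite.mem_toFinset]
    exact Iff.rfl
  have hall : ∀ x, (Bx (Fin.snoc (α := fun _ => ℕ) X x) :
      Set (Fin (k + 1) → HeightOneSpectrum (𝓞 F))) =
      {q' ∈ (Bx (Fin.snoc (α := fun _ => ℕ) X x) :
        Set (Fin (k + 1) → HeightOneSpectrum (𝓞 F))) | True} := by
    intro x
    ext q
    exact ⟨fun h => ⟨h, trivial⟩, fun h => h.1⟩
  have hW : ∀ q : Fin k → HeightOneSpectrum (𝓞 F),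
      Tendsto (fun x : ℕ => ((Cs (fun v => Wd q v ∧ True) x).ncard : ℝ) / Nm F x) atTop (𝓝 1) := by
    intro q
    refine lim_wd _ ?_ c
    have h4 : ∀ᶠ x : ℕ in atTop, ((Cs (fun _ : HeightOneSpectrum (𝓞 F) => True) x).ncard : ℝ) / Nm F x = 1 := by
      filter_upwards [(tend_top F).eventually_gt_atTop 0] with x hx
      have h5 : (Cs (fun _ : HeightOneSpectrum (𝓞 F) => True) x) =
          {v : HeightOneSpectrum (𝓞 F) | Ideal.absNorm v.asIdeal ≤ x} := by
        ext v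
        exact ⟨fun h => h.1, fun h => ⟨h, trivial⟩⟩
      rw [h5]
      exact div_self hx.ne'
    exact (tendsto_congr' h4).mpr tendsto_const_nhds
  have l1 : Tendsto (fun x : ℕ => ((Bx (Fin.snoc (α := fun _ => ℕ) X x) :
      Set (Fin (k + 1) → HeightOneSpectrum (𝓞 F))).ncard : ℝ) / Nm F x) atTop
      (𝓝 (B.card : ℝ)) := by
    have h4 : ∀ x : ℕ, ((Bx (Fin.snoc (α := fun _ => ℕ) X x) :
        Set (Fin (k + 1) → HeightOneSpectrum (𝓞 F))).ncard : ℝ) / Nm F x =
        ∑ q ∈ B, ((Cs (fun v => Wd q v ∧ True) x).ncard : ℝ) / Nm F x := by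
      intro x
      rw [hall x, (bx_sum h1 x fun _ => True).2, Nat.cast_sum, Finset.sum_div]
    simp only [h4]
    have h5 := tendsto_finsetSum B fun q (_ : q ∈ B) => hW q
    rw [Finset.sum_const, nsmul_eq_mul, mul_one] at h5
    exact h5
  have l2 : Tendsto (fun x : ℕ => ({q ∈ (Bx (Fin.snoc (α := fun _ => ℕ) X x) :
      Set (Fin (k + 1) → HeightOneSpectrum (𝓞 F))) | tab c q = τ}.ncard : ℝ) / Nm F x) atTop
      (𝓝 (((B.filter fun q => tab c q = rs τ).card : ℝ) * (1 / (3 : ℝ) ^ (2 * k + 1)))) := by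
    have h4 : ∀ x : ℕ, ({q ∈ (Bx (Fin.snoc (α := fun _ => ℕ) X x) :
        Set (Fin (k + 1) → HeightOneSpectrum (𝓞 F))) | tab c q = τ}.ncard : ℝ) / Nm F x =
        ∑ q ∈ B, ((Cs (fun v => Wd q v ∧
          tab c (Fin.snoc (α := fun _ => HeightOneSpectrum (𝓞 F)) q v) = τ) x).ncard : ℝ) /
            Nm F x := by
      intro x
      rw [(bx_sum h1 x fun q => tab c q = τ).2, Nat.cast_sum, Finset.sum_div]
    simp only [h4]
    have h6 : ((B.filter fun q => tab c q = rs τ).card : ℝ) * (1 / (3 : ℝ) ^ (2 * k + 1)) =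
        ∑ q ∈ B, if tab c q = rs τ then (1 / (3 : ℝ) ^ (2 * k + 1) : ℝ) else 0 := by
      rw [← Finset.sum_filter, Finset.sum_const, nsmul_eq_mul]
    rw [h6]
    refine tendsto_finsetSum B fun q hq => ?_
    rw [hBdef, Set.Finite.mem_toFinset] at hq
    by_cases hT : tab c q = rs τ
    · rw [if_pos hT]
      exact lim_yes c (fun i => (hq.1 i).1) hq.2 hT
    · rw [if_neg hT]
      exact lim_not c (fun i => (hq.1 i).1) hT
  rw [hBc] at h2 h3
  rw [hBt] at h3
  have l3 := l2.div l1 h2.ne'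
  set L : ℝ := ((B.filter fun q => tab c q = rs τ).card : ℝ) * (1 / (3 : ℝ) ^ (2 * k + 1)) / (B.card : ℝ)
    with hL
  have hL2 : |L - 1 / (3 : ℝ) ^ ((k + 1) ^ 2)| ≤ ε / 2 := by
    have e1 : (k + 1) ^ 2 = k ^ 2 + (2 * k + 1) := by ring
    have e2 : L - 1 / (3 : ℝ) ^ ((k + 1) ^ 2) =
        (((B.filter fun q => tab c q = rs τ).card : ℝ) / (B.card : ℝ) -
          1 / (3 : ℝ) ^ (k ^ 2)) * (1 / (3 : ℝ) ^ (2 * k + 1)) := by
      rw [hL, e1]
      exact Pool.Agent.Q153.LK.alg _ _ _ _ _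
    rw [e2, abs_mul]
    have h7 : |(1 / (3 : ℝ) ^ (2 * k + 1) : ℝ)| ≤ 1 := by
      rw [abs_of_nonneg (by positivity), div_le_one (by positivity)]
      exact one_le_pow₀ (by norm_num)
    calc _ ≤ (ε / 2) * 1 := mul_le_mul h3 h7 (abs_nonneg _) (by positivity)
      _ = ε / 2 := mul_one _
  have h8 := (Metric.tendsto_nhds.1 l3) (ε / 2) (by positivity)
  filter_upwards [h8, l1.eventually_const_lt h2, (tend_top F).eventually_gt_atTop 0]
    with x h9 h10 h11
  refine ⟨?_, ?_, ?_⟩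
  · rw [hall x]
    exact (bx_sum h1 x fun _ => True).1
  · by_contra hcon
    have h12 : ((Bx (Fin.snoc (α := fun _ => ℕ) X x) :
      Set (Fin (k + 1) → HeightOneSpectrum (𝓞 F))).ncard : ℝ) = 0 :=
      le_antisymm (not_lt.1 hcon) (Nat.cast_nonneg _)
    rw [h12, zero_div] at h10
    exact lt_irrefl _ h10
  · have h12 : ∀ a b : ℝ, a / Nm F x / (b / Nm F x) = a / b := fun a b =>
      div_div_div_cancel_right₀ h11.ne' a b
    rw [Pi.div_apply, h12, Real.dist_eq] at h9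
    rw [abs_le] at hL2 ⊢
    rw [abs_lt] at h9
    constructor <;> linarith

/-- **equidistribution of the tables** -/
theorem nst (k : ℕ) : ∀ (τ : Fin k → Fin k → ZMod 3) (ε : ℝ), 0 < ε → Nest k fun X =>
    (Bx X : Set (Fin k → HeightOneSpectrum (𝓞 F))).Finite ∧
    0 < ((Bx X : Set (Fin k → HeightOneSpectrum (𝓞 F))).ncard : ℝ) ∧
    |({q ∈ (Bx X : Set (Fin k → HeightOneSpectrum (𝓞 F))) | tab c q = τ}.ncard : ℝ) /
      ((Bx X : Set (Fin k → HeightOneSpectrum (𝓞 F))).ncard : ℝ) - 1 / (3 : ℝ) ^ (k ^ 2)| ≤ ε := by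
  induction k with
  | zero =>
    intro τ ε hε
    have h1 : (Bx (Fin.elim0 : Fin 0 → ℕ) : Set (Fin 0 → HeightOneSpectrum (𝓞 F))) = Set.univ := by
      refine Set.eq_univ_of_forall fun q => ⟨fun i => i.elim0, fun i => i.elim0⟩
    have h2 : {q ∈ (Set.univ : Set (Fin 0 → HeightOneSpectrum (𝓞 F))) | tab c q = τ} = Set.univ := by
      refine Set.eq_univ_of_forall fun q => ⟨trivial, ?_⟩
      funext i
      exact i.elim0
    show (Bx (Fin.elim0 : Fin 0 → ℕ) : Set (Fin 0 → HeightOneSpectrum (𝓞 F))).Finite ∧ _ ∧ _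
    rw [h1, h2]
    have h3 : (Set.univ : Set (Fin 0 → HeightOneSpectrum (𝓞 F))).ncard = 1 := by
      rw [Set.ncard_univ, Nat.card_unique]
    refine ⟨Set.toFinite _, ?_, ?_⟩
    · rw [h3]
      norm_num
    · rw [h3]
      norm_num
      exact hε.le
  | succ k ih =>
    intro τ ε hε
    refine nest_mono k ?_ (ih (rs τ) (ε / 2) (by positivity))
    rintro X ⟨h1, h2, h3⟩
    exact step c τ hε h1 h2 h3

end Pool.Agent.H16.CC
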