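import Pool.Agent.H16.CC.Gal2

/-!
# Cyclic cubic fields (helper16): the ramified primes of the cubic field
-/

set_option autoImplicit false
set_option linter.unusedSectionVars false

namespace Pool.Agent.H16.CC

open NumberField IsDedekindDomain
open Pool.Agent.Q7.LK (Dp vl Lpw IsPow Cond AT Sy sy mon t_BAS t_HS2 t_CPL t_CHEB)

section

variable {Ω : Type} [Field Ω] [CharZero Ω] [IsAlgClosed Ω] [Algebra.IsAlgebraic ℚ Ω]
variable {F : IntermediateField ℚ Ω} [NumberField F] (c : Ctx F)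

include c

theorem discr_F : discr F = -3 := by
  have h1 := cyc c
  have h2 : Fact (Nat.Prime 3) := ⟨Nat.prime_three⟩
  have h3 := IsCyclotomicExtension.Rat.discr_prime 3 F
  rw [h3]
  norm_num

theorem not_dvd_F {l : ℕ} (hl : l.Prime) (hl3 : l ≠ 3) : ¬ (l : ℤ) ∣ discr F := by
  rw [discr_F c, Int.dvd_neg]
  intro h
  have h1 : l ∣ 3 := by exact_mod_cast h
  exact hl3 ((Nat.prime_dvd_prime_iff_eq hl Nat.prime_three).mp h1)

/-- **the ramified primes** -/
theorem ram_iff {L : IntermediateField ℚ Ω} [NumberField L] (hL : Cub L) {a : F} {y : Ω}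
    (hy : y ^ 3 = (a : Ω)) (hnp : ¬ IsPow 3 a) (h : L ⊔ F = F ⊔ IntermediateField.adjoin ℚ {y})
    {l : ℕ} (hl : l.Prime) (hl3 : l ≠ 3) :
    (l : ℤ) ∣ discr L ↔ ∃ v : HeightOneSpectrum (𝓞 F), (l : 𝓞 F) ∈ v.asIdeal ∧ vl 3 v a ≠ 0 := by
  have h6 := cub_index c hL
  have hfd : FiniteDimensional ℚ (L ⊔ F : IntermediateField ℚ Ω) := by
    apply FiniteDimensional.of_finrank_pos
    rw [h6]
    norm_num
  have hyM : y ∈ L ⊔ F := by
    rw [h]
    exact (le_sup_right : IntermediateField.adjoin ℚ {y} ≤ F ⊔ IntermediateField.adjoin ℚ {y})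
      (IntermediateField.mem_adjoin_simple_self ℚ y)
  have hgal : IsGalois ℚ (L ⊔ F : IntermediateField ℚ Ω) := by
    rw [← normal_fix]
    exact cub_normal c hL
  have hLM : L ≤ L ⊔ F := le_sup_left
  have hFM : F ≤ L ⊔ F := le_sup_right
  generalize L ⊔ F = M at *
  have hM : NumberField M := ⟨⟩
  letI : Algebra F M := (IntermediateField.inclusion hFM).toRingHom.toAlgebra
  letI : Algebra L M := (IntermediateField.inclusion hLM).toRingHom.toAlgebra
  have hst1 : IsScalarTower ℚ F M := IsScalarTower.of_algebraMap_eq fun r => by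
    simp [eq_ratCast]
  have hst2 : IsScalarTower ℚ L M := IsScalarTower.of_algebraMap_eq fun r => by
    simp [eq_ratCast]
  have h7 := Module.finrank_mul_finrank ℚ F M
  have h8 := Module.finrank_mul_finrank ℚ L M
  rw [c.deg, h6] at h7
  rw [hL.2, h6] at h8
  have hyr : (⟨y, hyM⟩ : M) ^ 3 = algebraMap F M a := by
    apply Subtype.ext
    change y ^ 3 = (a : Ω)
    exact hy
  constructor
  · intro h1
    by_contra hc
    push Not at hc
    have hgal2 : IsGalois F M := IsGalois.tower_top_of_isGalois ℚ F M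
    exact not_dvd_discr_of_vl (L := L) (M := M) c.prim (a := a) ⟨by omega, ⟨_, hyr⟩⟩ hnp hl hl3
      (not_dvd_F c hl hl3) hc h1
  · rintro ⟨v, hv, hva⟩
    exact dvd_discr_of_vl (F := F) (L := L) (M := M) (by omega) hyr hl hv hva

end

end Pool.Agent.H16.CC
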