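import Pool.Agent.H16.CC.Ram2

/-!
# Cyclic cubic fields (helper16): the numbers `DD z Q` represent all classes
-/

set_option autoImplicit false
set_option linter.unusedSectionVars false

namespace Pool.Agent.H16.CC

open NumberField IsDedekindDomain
open Pool.Agent.Q7.LK (Dp vl Lpw IsPow Cond AT Sy sy mon t_BAS t_HS2 t_CPL t_CHEB)
open Pool.Agent.Q265.LK

section

variable {F : Type} [Field F] [NumberField F] (c : Ctx F)

theorem coprime_one {l m : ℕ} (h : Nat.Coprime l m) {v : HeightOneSpectrum (𝓞 F)} (hl : (l : 𝓞 F) ∈ v.asIdeal)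
    (hm : (m : 𝓞 F) ∈ v.asIdeal) : False := by
  have h6 := Int.isCoprime_iff_gcd_eq_one.mpr (by exact_mod_cast h : Int.gcd (l : ℤ) (m : ℤ) = 1)
  obtain ⟨s, t, hst⟩ := h6
  have h7 : (1 : 𝓞 F) ∈ v.asIdeal := by
    have h8 : (1 : 𝓞 F) = (s : 𝓞 F) * (l : 𝓞 F) + (t : 𝓞 F) * (m : 𝓞 F) := by
      have h9 := congrArg (Int.cast : ℤ → 𝓞 F) hst
      push_cast at h9
      exact h9.symm
    rw [h8]
    exact Ideal.add_mem _ (Ideal.mul_mem_left _ _ hl) (Ideal.mul_mem_left _ _ hm)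
  exact v.isPrime.ne_top ((Ideal.eq_top_iff_one _).mpr h7)

theorem same_prime {l m : ℕ} (hl : l.Prime) (hm : m.Prime) {v : HeightOneSpectrum (𝓞 F)}
    (hlv : (l : 𝓞 F) ∈ v.asIdeal) (hmv : (m : 𝓞 F) ∈ v.asIdeal) : l = m := by
  by_contra h
  exact coprime_one ((Nat.coprime_primes hl hm).mpr h) hlv hmv

theorem ndp_of {l : ℕ} (hl : l.Prime) (hl3 : l ≠ 3) {v : HeightOneSpectrum (𝓞 F)} (hlv : (l : 𝓞 F) ∈ v.asIdeal) :
    ¬ Dp 3 v := fun h => hl3 (same_prime hl Nat.prime_three hlv h)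

include c

theorem d1_of_cj_ne {v : HeightOneSpectrum (𝓞 F)} (h2 : ¬ Dp 3 v) (h : cj c.σ v ≠ v) : D1 v := by
  by_contra h1
  apply h
  obtain ⟨l, hl, hlv⟩ := Pool.Agent.Q129.LQ.exists_above v
  have h3 : l ≠ 3 := by
    rintro rfl
    exact h2 hlv
  have h4 : l % 3 ≠ 1 := fun h => h1 ⟨l, hl, h, hlv⟩
  have h5 : ¬ 3 ∣ l := fun h => h3 ((Nat.prime_dvd_prime_iff_eq Nat.prime_three hl).mp h).symm
  have h6 : l % 3 = 2 := by omega
  have h7 : 3 ∣ Ideal.absNorm v.asIdeal - 1 := ((t_BAS 3 F v).2.2.2.2.2.2 h2 c.ζ c.prim).1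
  have h9' : v.asIdeal ∣ Ideal.span {(l : 𝓞 F)} := by
    rw [Ideal.dvd_span_singleton]
    exact hlv
  have h8 : Ideal.absNorm v.asIdeal ∣ l ^ 2 := by
    have h10 := map_dvd Ideal.absNorm h9'
    rwa [norm_nat c] at h10
  obtain ⟨f, hf, hf2⟩ := (Nat.dvd_prime_pow hl).mp h8
  have h9 : f = 2 := by
    interval_cases f
    · rw [pow_zero, Ideal.absNorm_eq_one_iff] at hf2
      exact absurd hf2 v.isPrime.ne_top
    · exfalso
      rw [pow_one] at hf2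
      rw [hf2] at h7
      have := hl.one_lt
      omega
    · rfl
  rw [h9] at hf2
  obtain ⟨J, hJ⟩ := h9'
  have h10 : Ideal.absNorm J = 1 := by
    have h11 := congrArg Ideal.absNorm hJ
    rw [norm_nat c, map_mul, hf2] at h11
    have h12 : 0 < l ^ 2 := pow_pos hl.pos 2
    exact (Nat.eq_of_mul_eq_mul_left h12 (by rw [mul_one]; exact h11)).symm
  rw [Ideal.absNorm_eq_one_iff] at h10
  rw [h10, Ideal.mul_top] at hJ
  symm
  apply eq_of_le
  rw [← hJ, Ideal.span_singleton_le_iff_mem]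
  exact mem_cj_nat c.σ hlv

theorem vl_anti {a b : F} (ha : a ≠ 0) (hb : a * c.σ a = b ^ 3) (v : HeightOneSpectrum (𝓞 F)) :
    vl 3 (cj c.σ v) a = - vl 3 v a := by
  have ha' : c.σ a ≠ 0 := by rwa [Ne, map_eq_zero_iff _ c.σ.injective]
  have hb0 : b ≠ 0 := by
    rintro rfl
    rw [zero_pow (by norm_num)] at hb
    exact (mul_ne_zero ha ha') hb
  have h1 := (t_BAS 3 F v).2.2.2.2.1 a (c.σ a) ha ha'
  rw [hb, vl_ppow t_BAS _ hb0] at h1
  have h2 := vl_cj c.σ 3 (cj c.σ v) a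
  rw [cj_cj c.σ c.inv] at h2
  rw [h2] at h1
  exact eq_neg_of_add_eq_zero_right h1.symm

/-- **all classes are represented** -/
theorem rep {k : ℕ} {Q : Fin k → HeightOneSpectrum (𝓞 F)} (hD : ∀ i, D1 (Q i))
    (hA : ∀ i j, i ≠ j → Apt (Q i) (Q j)) {a b : F} (ha : a ≠ 0) (hb : a * c.σ a = b ^ 3)
    (h1 : ∀ i, vl 3 (Q i) a = 1)
    (h2 : ∀ v, ¬ Dp 3 v → (∀ i, v ≠ Q i) → (∀ i, v ≠ cj c.σ (Q i)) → vl 3 v a = 0) :
    ∃ (z : ZMod 3) (w : F), w ≠ 0 ∧ a = DD c z Q * w ^ 3 := by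
  set D := DD c 0 Q with hDD
  have hD0 : D ≠ 0 := DD_ne c 0 Q
  have he0 : a / D ≠ 0 := div_ne_zero ha hD0
  have hlam : ∀ x y : F, x ≠ 0 → x * c.σ x = y ^ 3 → vl 3 c.lam x = 0 := by
    intro x y hx hxy
    have h3 := vl_anti c hx hxy c.lam
    rw [cj_lam c] at h3
    have h4 : ∀ s : ZMod 3, s = -s → s = 0 := by decide
    exact h4 _ h3
  obtain ⟨j, w, hw⟩ := c.unit (a / D) he0 (fun v => by
    have h3 := (t_BAS 3 F v).2.2.2.2.1 (a / D) D he0 hD0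
    rw [div_mul_cancel₀ _ hD0] at h3
    suffices h4 : vl 3 v a = vl 3 v D by
      rw [h4] at h3
      exact (left_eq_add.mp (by rw [add_comm]; exact h3) : vl 3 v (a / D) = 0)
    by_cases h4 : Dp 3 v
    · rw [c.ulam v h4, hlam a b ha hb, hlam D 1 hD0 (by rw [conj_DD, mul_inv_cancel₀ hD0, one_pow])]
    by_cases h5 : ∃ i, v = Q i
    · obtain ⟨i, rfl⟩ := h5
      rw [h1 i, vl_DD_self c Q hD hA]
    by_cases h6 : ∃ i, v = cj c.σ (Q i)
    · obtain ⟨i, rfl⟩ := h6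
      rw [vl_anti c ha hb, h1 i, vl_DD_conj c Q hD hA]
    push Not at h5 h6
    rw [h2 v h4 h5 h6, vl_DD_ne c Q _ h5 h6])
  have hw0 : w ≠ 0 := by
    rintro rfl
    rw [zero_pow (by norm_num)] at hw
    exact (mul_ne_zero he0 (pow_ne_zero _ (z_ne c))) hw
  refine ⟨-(j : ZMod 3), w, hw0, ?_⟩
  have h3 : c.ζ ^ (-(j : ZMod 3)).val * c.ζ ^ j = 1 := by
    rw [← pow_add]
    have h4 : 3 ∣ (-(j : ZMod 3)).val + j := by
      rw [← ZMod.natCast_eq_zero_iff]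
      push_cast
      rw [ZMod.natCast_zmod_val, neg_add_cancel]
    obtain ⟨m, hm⟩ := h4
    rw [hm, pow_mul, z_cube c, one_pow]
  have h4 : D = ∏ l, dd c (Q l) := by
    rw [hDD]
    unfold DD
    rw [ZMod.val_zero, pow_zero, one_mul]
  unfold DD
  rw [← h4, ← hw]
  field_simp
  rw [h3]

end

end Pool.Agent.H16.CC
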