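import Pool.Agent.H16.CC.Lin

/-!
# Cyclic cubic fields (helper16): the share of the good tuples, and the cohomology
-/

set_option autoImplicit false

namespace Pool.Agent.H16.CC

open NumberField IsDedekindDomain Filter Topology
open Pool.Agent.Q7.LK (Dp vl Lpw IsPow Cond AT Many Sy sy mon t_BAS t_HS2 t_CPL t_CHEB)
open Pool.Agent.Q265.LK
open Pool.Agent.Q283.LQ (Nest)
open Pool.Agent.Q283.LS (Dec Inr)
open Pool.Agent.Q283.SP (chi RankSha InSha IsCoc t_BF t_DES t_CRI t_TF t_NT)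

section

variable {F : Type} [Field F] [NumberField F] (c : Ctx F)

/-- the good tuples -/
def Gd {n : ℕ} (z : ZMod 3) (Q : Fin (n + 1) → HeightOneSpectrum (𝓞 F)) : Prop := (MM z (tab c Q)).det ≠ 0

open Classical in
theorem share (n : ℕ) (z : ZMod 3) (ε : ℝ) (hε : 0 < ε) : Nest (n + 1) fun X =>
    (Bx X : Set (Fin (n + 1) → HeightOneSpectrum (𝓞 F))).Finite ∧
    0 < ((Bx X : Set (Fin (n + 1) → HeightOneSpectrum (𝓞 F))).ncard : ℝ) ∧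
    (shr (n + 1) - ε) * ((Bx X : Set (Fin (n + 1) → HeightOneSpectrum (𝓞 F))).ncard : ℝ) ≤
      ({Q ∈ (Bx X : Set (Fin (n + 1) → HeightOneSpectrum (𝓞 F))) | Gd c z Q}.ncard : ℝ) := by
  set G := (Finset.univ.filter fun τ : Fin (n + 1) → Fin (n + 1) → ZMod 3 => (MM z τ).det ≠ 0) with hG
  set e : ℝ := ε / (G.card + 1) with he
  have he0 : 0 < e := by positivity
  have h0 := nst c (n + 1) 0 1 one_pos
  have h1 := Pool.Agent.Q14.LK.nest_all (n + 1) G _ fun τ _ => nst c (n + 1) τ e he0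
  refine Pool.Agent.Q14.LK.nest_mono (n + 1) ?_ (Pool.Agent.Q14.LK.nest_and (n + 1) h0 h1)
  rintro X ⟨⟨hf, hpos, -⟩, h2⟩
  refine ⟨hf, hpos, ?_⟩
  have h3 : ({Q ∈ (Bx X : Set (Fin (n + 1) → HeightOneSpectrum (𝓞 F))) | Gd c z Q}.ncard : ℝ) =
      ∑ τ ∈ G, ({Q ∈ (Bx X : Set (Fin (n + 1) → HeightOneSpectrum (𝓞 F))) | tab c Q = τ}.ncard : ℝ) := by
    have h4 : {Q ∈ (Bx X : Set (Fin (n + 1) → HeightOneSpectrum (𝓞 F))) | Gd c z Q} =
        (hf.toFinset.filter fun Q => tab c Q ∈ G : Finset _) := by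
      ext Q
      rw [Finset.mem_coe, Finset.mem_filter, Set.Finite.mem_toFinset, hG, Finset.mem_filter]
      constructor
      · rintro ⟨h5, h6⟩
        exact ⟨h5, Finset.mem_univ _, h6⟩
      · rintro ⟨h5, -, h6⟩
        exact ⟨h5, h6⟩
    have h5 : ∀ τ, {Q ∈ (Bx X : Set (Fin (n + 1) → HeightOneSpectrum (𝓞 F))) | tab c Q = τ} =
        (hf.toFinset.filter fun Q => tab c Q = τ : Finset _) := by
      intro τ
      ext Q
      rw [Finset.mem_coe, Finset.mem_filter, Set.Finite.mem_toFinset]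
      exact Iff.rfl
    rw [h4, Set.ncard_coe_finset]
    simp only [h5, Set.ncard_coe_finset]
    have h6 := Finset.card_eq_sum_card_fiberwise (s := hf.toFinset.filter fun Q => tab c Q ∈ G)
      (f := fun Q => tab c Q) (t := G) (fun Q hQ => (Finset.mem_filter.mp hQ).2)
    rw [h6, Nat.cast_sum]
    refine Finset.sum_congr rfl fun τ hτ => ?_
    congr 2
    ext Q
    simp only [Finset.mem_filter]
    constructor
    · rintro ⟨⟨h6, _⟩, h7⟩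
      exact ⟨h6, h7⟩
    · rintro ⟨h6, h7⟩
      exact ⟨⟨h6, by rw [h7]; exact hτ⟩, h7⟩
  rw [h3]
  set B : ℝ := ((Bx X : Set (Fin (n + 1) → HeightOneSpectrum (𝓞 F))).ncard : ℝ) with hB
  have h4 : ∀ τ ∈ G, (1 / (3 : ℝ) ^ ((n + 1) ^ 2) - e) * B ≤
      ({Q ∈ (Bx X : Set (Fin (n + 1) → HeightOneSpectrum (𝓞 F))) | tab c Q = τ}.ncard : ℝ) := by
    intro τ hτ
    have h5 := (h2 τ hτ).2.2
    rw [abs_le] at h5
    have h6 : 1 / (3 : ℝ) ^ ((n + 1) ^ 2) - e ≤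
        ({Q ∈ (Bx X : Set (Fin (n + 1) → HeightOneSpectrum (𝓞 F))) | tab c Q = τ}.ncard : ℝ) / B := by
      linarith [h5.1]
    rwa [le_div_iff₀ hpos] at h6
  have h5 := Finset.card_nsmul_le_sum G _ _ h4
  refine le_trans ?_ h5
  rw [nsmul_eq_mul]
  have h6 : (G.card : ℝ) * (1 / (3 : ℝ) ^ ((n + 1) ^ 2)) = shr (n + 1) := by
    rw [← shr_eq, ← card_good n z]
  have h7 : (G.card : ℝ) * e ≤ ε := by
    rw [he, mul_div_assoc']
    rw [div_le_iff₀ (by positivity)]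
    nlinarith
  have h8 : (G.card : ℝ) * ((1 / (3 : ℝ) ^ ((n + 1) ^ 2) - e) * B) = (shr (n + 1) - G.card * e) * B := by
    rw [← h6]
    ring
  rw [h8]
  exact mul_le_mul_of_nonneg_right (by linarith) hpos.le

theorem gd_crit {n : ℕ} {X : Fin (n + 1) → ℕ} {z : ZMod 3} {Q : Fin (n + 1) → HeightOneSpectrum (𝓞 F)}
    (hQ : Q ∈ (Bx X : Set (Fin (n + 1) → HeightOneSpectrum (𝓞 F)))) (hg : Gd c z Q) {a : F}
    (ha : Cond 3 (AT 3) (DD c z Q) a) : ∃ j : ℕ, IsPow 3 (a * DD c z Q ^ j) :=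
  crit c Q (fun i => (hQ.1 i).1) hQ.2 z (good1 z _ hg) (good2 z _ hg) ha

end

section

variable {Ω : Type} [Field Ω] [CharZero Ω]

/-- triviality of `Ш¹` -/
def Van (S : Set ℕ) (r : ℕ) (K : IntermediateField ℚ Ω) : Prop :=
  ∀ f : K.fixingSubgroup → ℤ_[3], InSha S (fun σ : K.fixingSubgroup => chi 3 σ.1 ^ r) f →
    ∃ b : ℤ_[3], ∀ σ : K.fixingSubgroup, f σ = (chi 3 σ.1 ^ r - 1) * b

theorem chi_mul (σ τ : Ω ≃ₐ[ℚ] Ω) : chi 3 (σ * τ) = chi 3 σ * chi 3 τ := by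
  unfold chi
  rw [← Units.val_mul, ← map_mul]
  rfl

variable [IsAlgClosed Ω] [Algebra.IsAlgebraic ℚ Ω]

theorem van_iff (S : Set ℕ) (r : ℕ) (K : IntermediateField ℚ Ω) [NumberField K] (hS : 3 ∈ S) (hr : 1 ≤ r) :
    ¬ RankSha 3 S r K 1 ↔ Van S r K := t_TF 3 Ω K S r hS hr

/-- descent along a normal subgroup -/
theorem van_down {L M : IntermediateField ℚ Ω} [NumberField M] (hLM : L ≤ M) (hn : M.fixingSubgroup.Normal)
    {S : Set ℕ} {r : ℕ} (hr : 1 ≤ r) (h : Van S r M) : Van S r L := by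
  intro f hf
  have hle : M.fixingSubgroup ≤ L.fixingSubgroup := IntermediateField.fixingSubgroup_le hLM
  have hcont : Continuous (fun σ : M.fixingSubgroup => (⟨σ.1, hle σ.2⟩ : L.fixingSubgroup)) :=
    Continuous.subtype_mk continuous_subtype_val _
  obtain ⟨b, hb⟩ := h (fun σ => f ⟨σ.1, hle σ.2⟩) ⟨⟨hf.coc.cont.comp hcont, fun σ τ => by
      exact hf.coc.coc ⟨σ.1, hle σ.2⟩ ⟨τ.1, hle τ.2⟩⟩, fun l _ hl j σ hσ => hf.unr l hl j ⟨σ.1, hle σ.2⟩ hσ,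
    fun l _ hl j => by
      obtain ⟨b, hb⟩ := hf.loc l hl j
      exact ⟨b, fun σ hσ => hb ⟨σ.1, hle σ.2⟩ hσ⟩⟩
  refine ⟨b, fun σ => ?_⟩
  obtain ⟨j⟩ : Nonempty (Ω →+* PadicAlgCl 3) := by
    have h1 : Nonempty (Ω →ₐ[ℚ] PadicAlgCl 3) := ⟨IsAlgClosed.lift⟩
    obtain ⟨g⟩ := h1
    exact ⟨(g : Ω →+* PadicAlgCl 3)⟩
  obtain ⟨ν, hν, -, hχ⟩ := t_NT 3 Ω M 3 j r hr
  -- `g = f - (χ^r - 1) b` vanishes on `M.fixingSubgroup`
  set g : L.fixingSubgroup → ℤ_[3] := fun τ => f τ - (chi 3 τ.1 ^ r - 1) * b with hg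
  have hg0 : ∀ τ : L.fixingSubgroup, τ.1 ∈ M.fixingSubgroup → g τ = 0 := by
    intro τ hτ
    have h1 := hb ⟨τ.1, hτ⟩
    rw [hg]
    change f τ - _ = 0
    rw [sub_eq_zero]
    exact h1
  have hgc : ∀ τ τ' : L.fixingSubgroup, g (τ * τ') = g τ + chi 3 τ.1 ^ r * g τ' := by
    intro τ τ'
    rw [hg]
    change f (τ * τ') - (chi 3 (τ.1 * τ'.1) ^ r - 1) * b = f τ - (chi 3 τ.1 ^ r - 1) * b +
      chi 3 τ.1 ^ r * (f τ' - (chi 3 τ'.1 ^ r - 1) * b)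
    rw [hf.coc.coc, chi_mul, mul_pow]
    ring
  have hs : σ.1⁻¹ * ν * σ.1 ∈ M.fixingSubgroup := by
    have h1 := hn.conj_mem ν hν σ.1⁻¹
    rwa [inv_inv] at h1
  have h1 := hgc ⟨ν, hle hν⟩ σ
  have h2 := hgc σ ⟨σ.1⁻¹ * ν * σ.1, hle hs⟩
  rw [hg0 ⟨ν, hle hν⟩ hν, zero_add] at h1
  rw [hg0 ⟨σ.1⁻¹ * ν * σ.1, hle hs⟩ hs, mul_zero, add_zero] at h2
  have h3 : (⟨ν, hle hν⟩ : L.fixingSubgroup) * σ = σ * ⟨σ.1⁻¹ * ν * σ.1, hle hs⟩ := by
    apply Subtype.ext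
    change ν * σ.1 = σ.1 * (σ.1⁻¹ * ν * σ.1)
    group
  rw [h3, h2] at h1
  have h4 : (chi 3 ν ^ r - 1) * g σ = 0 := by
    rw [sub_mul, one_mul, sub_eq_zero]
    exact h1.symm
  have h5 : g σ = 0 := (mul_eq_zero.mp h4).resolve_left (sub_ne_zero.mpr hχ)
  rw [hg] at h5
  exact sub_eq_zero.mp h5

/-- **Schneider's conjecture for the good tuples** -/
theorem van_good (F : IntermediateField ℚ Ω) [NumberField F] (c : Ctx F) {n : ℕ} {X : Fin (n + 1) → ℕ} {z : ZMod 3}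
    {Q : Fin (n + 1) → HeightOneSpectrum (𝓞 F)}
    (hQ : Q ∈ (Bx X : Set (Fin (n + 1) → HeightOneSpectrum (𝓞 F)))) (hg : Gd c z Q) {x : Ω}
    (hx : x ^ 3 = ((DD c z Q : F) : Ω)) {S : Set ℕ} {r : ℕ} (hS : 3 ∈ S) (hr : 1 ≤ r) :
    Van S r (F ⊔ IntermediateField.adjoin ℚ {x}) := by
  have : NumberField (F ⊔ IntermediateField.adjoin ℚ {x} : IntermediateField ℚ Ω) := Pool.Agent.Q283.SP.nf_adjoin x
  rw [← van_iff S r _ hS hr]
  intro hL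
  have hF := t_BF 3 (by decide) Ω F c.ζ c.prim c.cls (fun v v' hv hv' => by rw [c.ulam v hv, c.ulam v' hv']) S r hS hr
  have hnp : ¬ IsPow 3 (DD c z Q) := by
    rintro ⟨y, hy⟩
    have hy0 : y ≠ 0 := by
      rintro rfl
      rw [zero_pow (by norm_num)] at hy
      exact DD_ne c z Q hy
    have h1 := vl_DD_self c Q (fun i => (hQ.1 i).1) hQ.2 z 0
    rw [hy, vl_ppow t_BAS _ hy0] at h1
    exact zero_ne_one h1
  obtain ⟨g, hg1, hg2⟩ := t_DES 3 (by decide) Ω F c.ζ (DD c z Q) x c.prim hx hnp S r 0 1 hS hr hF hL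
  obtain ⟨a, ha, -⟩ := t_CRI 3 (by decide) Ω F c.ζ c.prim r (DD c z Q) x 1 1 g hr hx hnp (by norm_num) hg1 hg2
  have h1 := ha ⟨0, by norm_num⟩
  obtain ⟨j, hj⟩ := gd_crit c hQ hg h1.1
  exact h1.2 j hj

end

end Pool.Agent.H16.CC
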