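import Pool.Agent.H16.CC.Base
import Pool.Graph.R_pool_sql_team_seeded_3997aac3.Q265.LK.Bas2

/-!
# Cyclic cubic fields (helper16): primes of degree one and symbols
-/

set_option autoImplicit false

namespace Pool.Agent.H16.CC

open NumberField IsDedekindDomain
open Pool.Agent.Q7.LK (Dp vl Lpw IsPow Cond AT Sy sy t_BAS t_HS2 t_CPL)
open Pool.Agent.Q265.LK

variable {F : Type} [Field F] [NumberField F]

/-- `v` lies above a prime number `q ≡ 1` modulo `3` -/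
def D1 (v : HeightOneSpectrum (𝓞 F)) : Prop := ∃ q : ℕ, q.Prime ∧ q % 3 = 1 ∧ (q : 𝓞 F) ∈ v.asIdeal

/-- the norm, as an element of `F` -/
noncomputable def nq (v : HeightOneSpectrum (𝓞 F)) : F := ((Ideal.absNorm v.asIdeal : ℕ) : F)

theorem d1_ndp {v : HeightOneSpectrum (𝓞 F)} (h : D1 v) : ¬ Dp 3 v := by
  obtain ⟨q, hq, hq1, hqv⟩ := h
  intro h3
  unfold Dp at h3
  apply v.isPrime.ne_top
  rw [Ideal.eq_top_iff_one]
  have h4 : (1 : 𝓞 F) = (q : 𝓞 F) - ((3 : ℕ) : 𝓞 F) * ((q / 3 : ℕ) : 𝓞 F) := by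
    have h5 : q = 3 * (q / 3) + 1 := by omega
    have h6 : (q : 𝓞 F) = ((3 * (q / 3) + 1 : ℕ) : 𝓞 F) := by rw [← h5]
    rw [h6]
    push_cast
    ring
  rw [h4]
  exact v.asIdeal.sub_mem hqv (Ideal.mul_mem_right _ _ h3)

theorem exists_root {q : ℕ} (hq : q.Prime) (hq1 : q % 3 = 1) : ∃ m : ℕ, q ∣ m ^ 2 + m + 1 := by
  have : Fact q.Prime := ⟨hq⟩
  have : Fact (Nat.Prime 3) := ⟨Nat.prime_three⟩
  have h1 : 3 ∣ Nat.card (ZMod q)ˣ := by
    rw [Nat.card_eq_fintype_card, ZMod.card_units_eq_totient, Nat.totient_prime hq]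
    omega
  obtain ⟨x, hx⟩ := exists_prime_orderOf_dvd_card' 3 h1
  have h2 : ((x : ZMod q)) ^ 3 = 1 := by
    rw [← Units.val_pow_eq_pow_val, ← hx, pow_orderOf_eq_one, Units.val_one]
  have h3 : (x : ZMod q) ≠ 1 := by
    intro h
    have h4 : x = 1 := Units.ext h
    rw [h4, orderOf_one] at hx
    omega
  refine ⟨(x : ZMod q).val, ?_⟩
  rw [← ZMod.natCast_eq_zero_iff]
  push_cast
  rw [ZMod.natCast_zmod_val]
  have h5 : ((x : ZMod q) - 1) * ((x : ZMod q) ^ 2 + (x : ZMod q) + 1) = 0 := by linear_combination h2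
  exact (mul_eq_zero.mp h5).resolve_left (sub_ne_zero.mpr h3)

theorem three_mem {ζ : F} (hζ : IsPrimitiveRoot ζ 3) {v : HeightOneSpectrum (𝓞 F)}
    (h : hζ.toInteger ^ 2 - hζ.toInteger ∈ v.asIdeal) : Dp 3 v := by
  have hu : IsUnit hζ.toInteger := (hζ.toInteger_isPrimitiveRoot).isUnit (by decide)
  have h1 : hζ.toInteger - 1 ∈ v.asIdeal := by
    rw [← Ideal.mul_unit_mem_iff_mem _ hu]
    convert h using 1
    ring
  have h2 : (hζ.toInteger - 1) ^ 2 ∈ v.asIdeal := Ideal.pow_mem_of_mem _ h1 2 (by norm_num)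
  rw [three_eq hζ, Ideal.mul_unit_mem_iff_mem _ hu] at h2
  unfold Dp
  have h5 := (Ideal.neg_mem_iff _).mpr h2
  rw [neg_neg] at h5
  exact_mod_cast h5

theorem norm_nat (c : Ctx F) (q : ℕ) : Ideal.absNorm (Ideal.span {(q : 𝓞 F)}) = q ^ 2 := by
  rw [Ideal.absNorm_span_singleton]
  have h1 : (q : 𝓞 F) = algebraMap ℤ (𝓞 F) (q : ℤ) := by simp
  rw [h1, Algebra.norm_algebraMap, RingOfIntegers.rank, c.deg]
  rw [Int.natAbs_pow, Int.natAbs_natCast]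

theorem d1_cj_ne (c : Ctx F) {v : HeightOneSpectrum (𝓞 F)} (h : D1 v) : cj c.σ v ≠ v := by
  intro heq
  have h3 := d1_ndp h
  obtain ⟨q, hq, hq1, hqv⟩ := h
  obtain ⟨m, hm⟩ := exists_root hq hq1
  apply h3
  have h4 : (c.prim.toInteger) ^ 2 + c.prim.toInteger + 1 = 0 :=
    IsCyclotomicExtension.Rat.Three.eta_sq_add_eta_add_one c.prim
  have h5 : (c.prim.toInteger - (m : 𝓞 F)) * (c.prim.toInteger + (m : 𝓞 F) + 1) ∈ v.asIdeal := by
    have h6 : (c.prim.toInteger - (m : 𝓞 F)) * (c.prim.toInteger + (m : 𝓞 F) + 1) =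
        - ((m ^ 2 + m + 1 : ℕ) : 𝓞 F) := by
      push_cast
      linear_combination h4
    rw [h6, Ideal.neg_mem_iff]
    obtain ⟨n, hn⟩ := hm
    rw [hn, Nat.cast_mul]
    exact Ideal.mul_mem_right _ _ hqv
  have h7 : ∃ n : ℤ, c.prim.toInteger - (n : 𝓞 F) ∈ v.asIdeal := by
    rcases v.isPrime.mem_or_mem h5 with h8 | h8
    · exact ⟨m, by exact_mod_cast h8⟩
    · refine ⟨- (m : ℤ) - 1, ?_⟩
      convert h8 using 1
      push_cast
      ring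
  obtain ⟨n, hn⟩ := h7
  have h9 : c.prim.toInteger ^ 2 - (n : 𝓞 F) ∈ v.asIdeal := by
    have h10 := (mem_cj c.σ v _).mpr hn
    rw [heq] at h10
    convert h10 using 1
    rw [map_sub, map_intCast]
    congr 1
    apply RingOfIntegers.ext
    exact c.conj.symm
  apply three_mem c.prim
  have h11 := v.asIdeal.sub_mem h9 hn
  convert h11 using 1
  ring

theorem mem_cj_nat (σ : F ≃+* F) {v : HeightOneSpectrum (𝓞 F)} {q : ℕ} (h : (q : 𝓞 F) ∈ v.asIdeal) :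
    (q : 𝓞 F) ∈ (cj σ v).asIdeal := by
  have h1 := (mem_cj σ v _).mpr h
  rwa [map_natCast] at h1

theorem d1_cj (σ : F ≃+* F) {v : HeightOneSpectrum (𝓞 F)} (h : D1 v) : D1 (cj σ v) := by
  obtain ⟨q, hq, hq1, hqv⟩ := h
  exact ⟨q, hq, hq1, mem_cj_nat σ hqv⟩

theorem d1_span (c : Ctx F) {v : HeightOneSpectrum (𝓞 F)} {q : ℕ} (hq : q.Prime) (hq1 : q % 3 = 1)
    (hqv : (q : 𝓞 F) ∈ v.asIdeal) :
    Ideal.absNorm v.asIdeal = q ∧ Ideal.span {(q : 𝓞 F)} = v.asIdeal * (cj c.σ v).asIdeal := by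
  have hne := d1_cj_ne c ⟨q, hq, hq1, hqv⟩
  have h1 : v.asIdeal ∣ Ideal.span {(q : 𝓞 F)} := by
    rw [Ideal.dvd_span_singleton]
    exact hqv
  have h2 : (cj c.σ v).asIdeal ∣ Ideal.span {(q : 𝓞 F)} := by
    rw [Ideal.dvd_span_singleton]
    exact mem_cj_nat c.σ hqv
  have h3 : v.asIdeal * (cj c.σ v).asIdeal ∣ Ideal.span {(q : 𝓞 F)} := by
    refine IsCoprime.mul_dvd ?_ h1 h2
    exact HeightOneSpectrum.isCoprime_of_ne v (cj c.σ v) hne.symm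
  have h4 := map_dvd Ideal.absNorm h3
  rw [map_mul, norm_nat c, norm_cj, ← sq, Nat.pow_dvd_pow_iff (by norm_num)] at h4
  have h5 : Ideal.absNorm v.asIdeal ≠ 1 := by
    rw [Ne, Ideal.absNorm_eq_one_iff]
    exact v.isPrime.ne_top
  have h6 : Ideal.absNorm v.asIdeal = q := ((Nat.dvd_prime hq).mp h4).resolve_left h5
  refine ⟨h6, ?_⟩
  obtain ⟨J, hJ⟩ := h3
  have h7 : Ideal.absNorm J = 1 := by
    have h8 := congrArg Ideal.absNorm hJ
    rw [map_mul, map_mul, norm_nat c, norm_cj, h6, ← sq] at h8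
    have h9 : 0 < q ^ 2 := pow_pos hq.pos 2
    exact (Nat.eq_of_mul_eq_mul_left h9 (by rw [mul_one]; exact h8)).symm
  rw [Ideal.absNorm_eq_one_iff] at h7
  rw [hJ, h7, Ideal.mul_top]

theorem d1_prime (c : Ctx F) {v : HeightOneSpectrum (𝓞 F)} (h : D1 v) :
    (Ideal.absNorm v.asIdeal).Prime ∧ Ideal.absNorm v.asIdeal % 3 = 1 ∧
      ((Ideal.absNorm v.asIdeal : ℕ) : 𝓞 F) ∈ v.asIdeal := by
  obtain ⟨q, hq, hq1, hqv⟩ := h
  obtain ⟨h1, -⟩ := d1_span c hq hq1 hqv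
  rw [h1]
  exact ⟨hq, hq1, hqv⟩

theorem eq_of_le {v w : HeightOneSpectrum (𝓞 F)} (h : v.asIdeal ≤ w.asIdeal) : v = w := by
  ext1
  exact v.isMaximal.eq_of_le w.isPrime.ne_top h

theorem vl_out (c : Ctx F) {v w : HeightOneSpectrum (𝓞 F)} (h : D1 v) (h1 : w ≠ v) (h2 : w ≠ cj c.σ v) :
    vl 3 w (nq v : F) = 0 := by
  obtain ⟨hq, hq1, hqv⟩ := d1_prime c h
  obtain ⟨-, hs⟩ := d1_span c hq hq1 hqv
  apply vl_of_val_one
  have h3 : (nq v : F) = algebraMap (𝓞 F) F ((Ideal.absNorm v.asIdeal : ℕ) : 𝓞 F) := by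
    unfold nq
    rw [map_natCast]
  rw [h3, HeightOneSpectrum.valuation_of_algebraMap, HeightOneSpectrum.intValuation_eq_one_iff]
  intro hmem
  rw [← Ideal.span_singleton_le_iff_mem, hs] at hmem
  rcases w.isPrime.mul_le.mp hmem with h4 | h4
  · exact h1 (eq_of_le h4).symm
  · exact h2 (eq_of_le h4).symm

theorem val_in (c : Ctx F) {v : HeightOneSpectrum (𝓞 F)} (h : D1 v) :
    v.valuation F (nq v) = WithZero.exp (-1 : ℤ) := by
  have hne := d1_cj_ne c h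
  obtain ⟨hq, hq1, hqv⟩ := d1_prime c h
  obtain ⟨-, hs⟩ := d1_span c hq hq1 hqv
  have h3 : (nq v : F) = algebraMap (𝓞 F) F ((Ideal.absNorm v.asIdeal : ℕ) : 𝓞 F) := by
    unfold nq
    rw [map_natCast]
  have h0 : ((Ideal.absNorm v.asIdeal : ℕ) : 𝓞 F) ≠ 0 := by
    rw [Ne, Nat.cast_eq_zero]
    exact hq.ne_zero
  rw [h3, HeightOneSpectrum.valuation_of_algebraMap]
  have e1 := HeightOneSpectrum.intValuation_if_neg v h0
  have h4 : v.intValuation ((Ideal.absNorm v.asIdeal : ℕ) : 𝓞 F) ≤ WithZero.exp (-((1 : ℕ) : ℤ)) := by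
    rw [HeightOneSpectrum.intValuation_le_pow_iff_mem, pow_one]
    exact hqv
  have h5 : ¬ v.intValuation ((Ideal.absNorm v.asIdeal : ℕ) : 𝓞 F) ≤ WithZero.exp (-((2 : ℕ) : ℤ)) := by
    rw [HeightOneSpectrum.intValuation_le_pow_iff_mem, ← Ideal.span_singleton_le_iff_mem, hs,
      ← Ideal.dvd_iff_le, sq]
    intro hd
    have h6 := (mul_dvd_mul_iff_left v.ne_bot).mp hd
    rw [Ideal.dvd_iff_le] at h6
    exact hne (eq_of_le h6)
  rw [e1] at h4 h5 ⊢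
  rw [WithZero.exp_le_exp] at h4 h5
  congr 1
  push_cast at h4 h5 ⊢
  omega

theorem vl_in (c : Ctx F) {v : HeightOneSpectrum (𝓞 F)} (h : D1 v) : vl 3 v (nq v : F) = 1 := by
  unfold vl
  rw [val_in c h, WithZero.log_exp]
  simp

theorem conj_nq (σ : F ≃+* F) (v : HeightOneSpectrum (𝓞 F)) : σ (nq v) = nq v := by
  unfold nq
  rw [map_natCast]

theorem vl_in' (c : Ctx F) {v : HeightOneSpectrum (𝓞 F)} (h : D1 v) : vl 3 (cj c.σ v) (nq v : F) = 1 := by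
  rw [← conj_nq c.σ v, vl_cj]
  exact vl_in c h

theorem nq_ne (c : Ctx F) {v : HeightOneSpectrum (𝓞 F)} (h : D1 v) : (nq v : F) ≠ 0 := by
  unfold nq
  rw [Ne, Nat.cast_eq_zero]
  exact (d1_prime c h).1.ne_zero

end Pool.Agent.H16.CC
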