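import Pool.Agent.H16.CC.Sym
import Pool.Graph.R_pool_sql_team_seeded_3997aac3.Q123.LK.SH2

/-!
# Cyclic cubic fields (helper16): normalised generators and the reciprocity law
-/

set_option autoImplicit false

namespace Pool.Agent.H16.CC

open NumberField IsDedekindDomain
open Pool.Agent.Q7.LK (Dp vl Lpw IsPow Cond AT Sy sy t_BAS t_HS2 t_CPL)
open Pool.Agent.Q265.LK

variable {F : Type} [Field F] [NumberField F]

instance fact3 : Fact (Nat.Prime 3) := ⟨Nat.prime_three⟩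

section

variable (c : Ctx F)

theorem z_ne : c.ζ ≠ 0 := c.prim.ne_zero (by norm_num)

theorem z_cube : c.ζ ^ 3 = 1 := c.prim.pow_eq_one

theorem vl_z (v : HeightOneSpectrum (𝓞 F)) : vl 3 v c.ζ = 0 := by
  apply vl_of_val_one
  have h1 : (v.valuation F c.ζ) ^ 3 = 1 := by rw [← map_pow, z_cube, map_one]
  exact (pow_eq_one_iff.mp h1).resolve_right (by norm_num)

theorem sy_cj_z {v : HeightOneSpectrum (𝓞 F)} (hv : ¬ Dp 3 v) : sy 3 c.ζ (cj c.σ v) c.ζ = sy 3 c.ζ v c.ζ := by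
  have h1 : c.σ (c.ζ⁻¹) = c.ζ := by
    rw [map_inv₀, c.conj]
    symm
    apply eq_inv_of_mul_eq_one_left
    rw [← pow_succ']
    exact z_cube c
  have h2 : sy 3 c.ζ (cj c.σ v) c.ζ = sy 3 c.ζ (cj c.σ v) (c.σ (c.ζ⁻¹)) := by rw [h1]
  rw [h2, sy_cj c.σ c.prim c.conj v hv _ (inv_ne_zero (z_ne c)) (by rw [vl_inv t_BAS v (z_ne c), vl_z, neg_zero]),
    sy_inv t_BAS hv c.prim (z_ne c) (vl_z c v), neg_neg]

theorem sy_cj_plus {v : HeightOneSpectrum (𝓞 F)} (hv : ¬ Dp 3 v) {a : F} (ha : a ≠ 0) (hva : vl 3 v a = 0)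
    (h : c.σ a = a) : sy 3 c.ζ (cj c.σ v) a = - sy 3 c.ζ v a := by
  have h1 := sy_cj c.σ c.prim c.conj v hv a ha hva
  rwa [h] at h1

theorem sy_cj_minus {v : HeightOneSpectrum (𝓞 F)} (hv : ¬ Dp 3 v) {a : F} (ha : a ≠ 0) (hva : vl 3 v a = 0)
    (h : c.σ a = a⁻¹) : sy 3 c.ζ (cj c.σ v) a = sy 3 c.ζ v a := by
  have h1 := sy_cj c.σ c.prim c.conj v hv a⁻¹ (inv_ne_zero ha) (by rw [vl_inv t_BAS v ha, hva, neg_zero])
  rwa [map_inv₀, h, inv_inv, sy_inv t_BAS hv c.prim ha hva, neg_neg] at h1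

/-! ## Hilbert symbols -/

theorem tmul' (v : HeightOneSpectrum (𝓞 F)) {a b d : F} (ha : a ≠ 0) (hb : b ≠ 0) (hd : d ≠ 0) :
    c.t v d (a * b) = c.t v d a + c.t v d b := by
  rw [c.anti v d (a * b) hd (mul_ne_zero ha hb), c.tmul v a b d ha hb hd, c.anti v a d ha hd, c.anti v b d hb hd]
  ring

theorem t_self (v : HeightOneSpectrum (𝓞 F)) {a : F} (ha : a ≠ 0) : c.t v a a = 0 := by
  have h := c.anti v a a ha ha
  generalize c.t v a a = x at h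
  revert x
  decide

theorem t_one (v : HeightOneSpectrum (𝓞 F)) {a : F} (ha : a ≠ 0) : c.t v 1 a = 0 :=
  c.tpow v 1 a (lpw_one t_BAS v) ha

theorem t_one' (v : HeightOneSpectrum (𝓞 F)) {a : F} (ha : a ≠ 0) : c.t v a 1 = 0 := by
  rw [c.anti v a 1 ha one_ne_zero, t_one c v ha, neg_zero]

theorem t_pow (v : HeightOneSpectrum (𝓞 F)) {a b : F} (ha : a ≠ 0) (hb : b ≠ 0) (n : ℕ) :
    c.t v (a ^ n) b = n * c.t v a b := by
  induction n with
  | zero => rw [pow_zero, t_one c v hb, Nat.cast_zero, zero_mul]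
  | succ n ih =>
    rw [pow_succ, c.tmul v _ _ _ (pow_ne_zero n ha) ha hb, ih]
    push_cast
    ring

theorem t_pow' (v : HeightOneSpectrum (𝓞 F)) {a b : F} (ha : a ≠ 0) (hb : b ≠ 0) (n : ℕ) :
    c.t v b (a ^ n) = n * c.t v b a := by
  rw [c.anti v _ _ hb (pow_ne_zero n ha), t_pow c v ha hb, c.anti v a b ha hb]
  ring

theorem t_inv (v : HeightOneSpectrum (𝓞 F)) {a b : F} (ha : a ≠ 0) (hb : b ≠ 0) :
    c.t v a⁻¹ b = - c.t v a b := by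
  have h := c.tmul v a a⁻¹ b ha (inv_ne_zero ha) hb
  rw [mul_inv_cancel₀ ha, t_one c v hb] at h
  exact eq_neg_of_add_eq_zero_right h.symm

theorem tpow' (v : HeightOneSpectrum (𝓞 F)) {a b : F} (h : Lpw 3 v b) (ha : a ≠ 0) : c.t v a b = 0 := by
  rw [c.anti v a b ha (lpw_ne t_BAS h), c.tpow v b a h ha, neg_zero]

theorem tame' {v : HeightOneSpectrum (𝓞 F)} (hv : ¬ Dp 3 v) {a b : F} (ha : a ≠ 0) (hb : b ≠ 0)
    (h : vl 3 v a = 0) : c.t v a b = - (vl 3 v b * sy 3 c.ζ v a) := by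
  rw [c.anti v a b ha hb, c.tame v hv a ha h b hb]

theorem tsum_eq {a b : F} (ha : a ≠ 0) (hb : b ≠ 0) (s : Finset (HeightOneSpectrum (𝓞 F)))
    (h : ∀ v, v ∉ s → c.t v a b = 0) : ∑ v ∈ s, c.t v a b = 0 := by
  rw [← (c.tsum a b ha hb).2]
  symm
  apply finsum_eq_sum_of_support_subset
  intro v hv
  by_contra hvs
  exact hv (h v hvs)

/-! ## The prime `2` -/

include c in
theorem exists_two : ∃ v : HeightOneSpectrum (𝓞 F), ¬ Dp 3 v ∧ Ideal.absNorm v.asIdeal = 4 ∧ vl 3 v (2 : F) = 1 ∧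
    ∀ w, w ≠ v → vl 3 w (2 : F) = 0 := by
  have h0 : Ideal.absNorm (Ideal.span {((2 : ℕ) : 𝓞 F)}) = 2 ^ 2 := norm_nat c 2
  have h1 : Ideal.span {((2 : ℕ) : 𝓞 F)} ≠ ⊤ := by
    rw [Ne, ← Ideal.absNorm_eq_one_iff, h0]
    norm_num
  obtain ⟨M, hM, hle⟩ := Ideal.exists_le_maximal _ h1
  have h20 : ((2 : ℕ) : 𝓞 F) ≠ 0 := by
    rw [Ne, Nat.cast_eq_zero]
    norm_num
  have hMb : M ≠ ⊥ := by
    rintro rfl
    rw [le_bot_iff, Ideal.span_singleton_eq_bot] at hle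
    exact h20 hle
  set v : HeightOneSpectrum (𝓞 F) := ⟨M, hM.isPrime, hMb⟩ with hv
  have hvM : v.asIdeal = M := rfl
  have h2v : ((2 : ℕ) : 𝓞 F) ∈ v.asIdeal := by
    rw [hvM]
    exact hle (Ideal.mem_span_singleton_self _)
  have h3 : ¬ Dp 3 v := by
    intro h3
    unfold Dp at h3
    apply v.isPrime.ne_top
    rw [Ideal.eq_top_iff_one]
    have h4 : (1 : 𝓞 F) = ((3 : ℕ) : 𝓞 F) - ((2 : ℕ) : 𝓞 F) := by push_cast; ring
    rw [h4]
    exact v.asIdeal.sub_mem h3 h2v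
  have h4 : 3 ∣ Ideal.absNorm v.asIdeal - 1 := ((t_BAS 3 F v).2.2.2.2.2.2 h3 c.ζ c.prim).1
  have h5 : Ideal.absNorm v.asIdeal ∣ 4 := by
    have h6 := map_dvd Ideal.absNorm ((Ideal.dvd_iff_le).mpr (hvM ▸ hle))
    rwa [h0] at h6
  have h7 : Ideal.absNorm v.asIdeal ≠ 1 := by
    rw [Ne, Ideal.absNorm_eq_one_iff]
    exact v.isPrime.ne_top
  have h8 : Ideal.absNorm v.asIdeal = 4 := by
    have h9 := Nat.le_of_dvd (by norm_num) h5
    interval_cases (Ideal.absNorm v.asIdeal) <;> omega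
  have h10 : v.asIdeal = Ideal.span {((2 : ℕ) : 𝓞 F)} := by
    obtain ⟨J, hJ⟩ := (Ideal.dvd_iff_le).mpr (hvM ▸ hle : Ideal.span {((2 : ℕ) : 𝓞 F)} ≤ v.asIdeal)
    have h11 := congrArg Ideal.absNorm hJ
    rw [map_mul, h0, h8] at h11
    have h12 : Ideal.absNorm J = 1 := by omega
    rw [Ideal.absNorm_eq_one_iff] at h12
    rw [hJ, h12, Ideal.mul_top]
  have h13 : (2 : F) = algebraMap (𝓞 F) F ((2 : ℕ) : 𝓞 F) := by
    rw [map_natCast]
    norm_num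
  refine ⟨v, h3, h8, ?_, ?_⟩
  · unfold vl
    rw [h13, HeightOneSpectrum.valuation_of_algebraMap, HeightOneSpectrum.intValuation_singleton v h20 h10,
      WithZero.log_exp]
    simp
  · intro w hw
    apply vl_of_val_one
    rw [h13, HeightOneSpectrum.valuation_of_algebraMap, HeightOneSpectrum.intValuation_eq_one_iff]
    intro hmem
    rw [← Ideal.span_singleton_le_iff_mem, ← h10] at hmem
    exact hw (eq_of_le hmem).symm

theorem t_lam_two : c.t c.lam 2 c.ζ ≠ 0 := by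
  classical
  obtain ⟨v, h1, h2, h3, h4⟩ := exists_two c
  have h20 : (2 : F) ≠ 0 := two_ne_zero
  have hne : v ≠ c.lam := fun h => h1 (h ▸ c.dlam)
  have h5 := tsum_eq c h20 (z_ne c) {v, c.lam} (by
    intro w hw
    simp only [Finset.mem_insert, Finset.mem_singleton, not_or] at hw
    rw [c.tame w (fun h => hw.2 (c.ulam w h)) c.ζ (z_ne c) (vl_z c w) 2 h20, h4 w hw.1, zero_mul])
  rw [Finset.sum_pair hne, c.tame v h1 c.ζ (z_ne c) (vl_z c v) 2 h20, h3, one_mul] at h5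
  have h6 : sy 3 c.ζ v c.ζ = 1 := by
    symm
    rw [← ((t_BAS 3 F v).2.2.2.2.2.2 h1 c.ζ c.prim).2.1 c.ζ (z_ne c) (vl_z c v)]
    refine ⟨1, ?_, ?_⟩
    · rw [one_pow, mul_one]
      have h1 : (v.valuation F c.ζ) ^ 3 = 1 := by rw [← map_pow, z_cube, map_one]
      exact (pow_eq_one_iff.mp h1).resolve_right (by norm_num)
    · rw [h2, one_pow, mul_one]
      have h7 : (4 - 1) / 3 = 1 := by norm_num
      have h8 : (1 : ZMod 3).val = 1 := by decide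
      rw [h7, h8, sub_self, map_zero]
      exact zero_lt_one
  rw [h6] at h5
  intro h9
  rw [h9, add_zero] at h5
  exact one_ne_zero h5

theorem z_not_lpw : ¬ Lpw 3 c.lam c.ζ := fun h => t_lam_two c (tpow' c c.lam h two_ne_zero)

/-! ## Integers at the prime above `3` -/

theorem lpw_int_one (m : ℤ) : Lpw 3 c.lam (((1 + 9 * m : ℤ)) : F) := by
  refine (t_BAS 3 F c.lam).2.2.2.2.2.1 _ (((1 - 3 * m : ℤ)) : F) ?_
  have h1 : (((1 + 9 * m : ℤ)) : F) * (((1 - 3 * m : ℤ)) : F) ^ 3 - 1 =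
      ((3 : ℕ) : F) ^ 3 * (((- 2 * m ^ 2 + 8 * m ^ 3 - 9 * m ^ 4 : ℤ)) : F) := by
    push_cast
    ring
  have h3 : ((3 : ℕ) : F) = algebraMap (𝓞 F) F ((3 : ℕ) : 𝓞 F) := by rw [map_natCast]
  have h30 : ((3 : ℕ) : F) ≠ 0 := by
    rw [Ne, Nat.cast_eq_zero]
    norm_num
  have h4 : c.lam.valuation F ((3 : ℕ) : F) < 1 := by
    rw [h3, HeightOneSpectrum.valuation_lt_one_iff_mem]
    exact c.dlam
  have h5 : 0 < c.lam.valuation F ((3 : ℕ) : F) := zero_lt_iff.mpr ((Valuation.ne_zero_iff _).mpr h30)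
  have h6 : c.lam.valuation F (((- 2 * m ^ 2 + 8 * m ^ 3 - 9 * m ^ 4 : ℤ)) : F) ≤ 1 := by
    have h7 : (((- 2 * m ^ 2 + 8 * m ^ 3 - 9 * m ^ 4 : ℤ)) : F) =
        algebraMap (𝓞 F) F ((- 2 * m ^ 2 + 8 * m ^ 3 - 9 * m ^ 4 : ℤ) : 𝓞 F) := by rw [map_intCast]
    rw [h7]
    exact HeightOneSpectrum.valuation_le_one _ _
  rw [h1, map_mul, map_pow, map_pow]
  calc c.lam.valuation F ((3 : ℕ) : F) ^ 3 * c.lam.valuation F (((- 2 * m ^ 2 + 8 * m ^ 3 - 9 * m ^ 4 : ℤ)) : F)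
      ≤ c.lam.valuation F ((3 : ℕ) : F) ^ 3 * 1 := mul_le_mul_right h6 _
    _ = c.lam.valuation F ((3 : ℕ) : F) ^ 3 := mul_one _
    _ < c.lam.valuation F ((3 : ℕ) : F) ^ 2 := pow_lt_pow_right_of_lt_one₀ h5 h4 (by norm_num)

theorem lpw_int (n : ℤ) (h : (9 : ℤ) ∣ n - 1 ∨ (9 : ℤ) ∣ n + 1) : Lpw 3 c.lam (n : F) := by
  rcases h with ⟨m, hm⟩ | ⟨m, hm⟩
  · have h1 : n = 1 + 9 * m := by linarith
    rw [h1]
    exact lpw_int_one c m
  · have h1 : n = - (1 + 9 * (-m)) := by linarith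
    have h2 : (n : F) = (((1 + 9 * (-m) : ℤ)) : F) * (-1) ^ 3 := by
      rw [h1]
      push_cast
      ring
    rw [h2]
    exact lpw_mul t_BAS (lpw_int_one c (-m)) (lpw_pow t_BAS c.lam (by norm_num))

theorem t_lam_nat {x : F} (hx : x ≠ 0) (h2 : c.t c.lam 2 x = 0) {n : ℕ} (hn : ¬ 3 ∣ n) :
    c.t c.lam (n : F) x = 0 := by
  have hn0 : (n : F) ≠ 0 := by
    rw [Ne, Nat.cast_eq_zero]
    rintro rfl
    exact hn (dvd_zero 3)
  have h20 : (2 : F) ≠ 0 := two_ne_zero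
  have h3 : ∃ u : ℕ, (9 : ℤ) ∣ (n : ℤ) * 2 ^ u - 1 ∨ (9 : ℤ) ∣ (n : ℤ) * 2 ^ u + 1 := by
    have h4 : n % 9 = 1 ∨ n % 9 = 2 ∨ n % 9 = 4 ∨ n % 9 = 5 ∨ n % 9 = 7 ∨ n % 9 = 8 := by omega
    rcases h4 with h4 | h4 | h4 | h4 | h4 | h4
    · exact ⟨0, Or.inl (by omega)⟩
    · exact ⟨2, Or.inr (by omega)⟩
    · exact ⟨1, Or.inr (by omega)⟩
    · exact ⟨1, Or.inl (by omega)⟩
    · exact ⟨2, Or.inl (by omega)⟩
    · exact ⟨0, Or.inr (by omega)⟩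
  obtain ⟨u, hu⟩ := h3
  have h5 := lpw_int c ((n : ℤ) * 2 ^ u) hu
  have h6 : (((n : ℤ) * 2 ^ u : ℤ) : F) = (n : F) * 2 ^ u := by push_cast; ring
  rw [h6] at h5
  have h7 := c.tpow c.lam _ x h5 hx
  rw [c.tmul c.lam _ _ x hn0 (pow_ne_zero u h20) hx, t_pow c c.lam h20 hx, h2, mul_zero, add_zero] at h7
  exact h7

/-! ## The normalised generators -/

theorem pi_ne (v : HeightOneSpectrum (𝓞 F)) : c.π v ≠ 0 := by
  intro h
  have h1 := c.pv v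
  rw [h, map_zero] at h1
  exact WithZero.exp_ne_zero h1.symm

/-- the exponent of `ζ` in the normalised generator -/
noncomputable def ee (v : HeightOneSpectrum (𝓞 F)) : ZMod 3 :=
  - (c.t c.lam 2 (c.π v / c.σ (c.π v))) / c.t c.lam 2 c.ζ

/-- the number `ζ^e π / σ(π)`, which is orthogonal to `2` at the prime above `3` -/
noncomputable def dd (v : HeightOneSpectrum (𝓞 F)) : F := c.ζ ^ (ee c v).val * (c.π v / c.σ (c.π v))

theorem quo_ne (v : HeightOneSpectrum (𝓞 F)) : c.π v / c.σ (c.π v) ≠ 0 := by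
  refine div_ne_zero (pi_ne c v) ?_
  rw [Ne, map_eq_zero_iff _ c.σ.injective]
  exact pi_ne c v

theorem dd_ne (v : HeightOneSpectrum (𝓞 F)) : dd c v ≠ 0 := mul_ne_zero (pow_ne_zero _ (z_ne c)) (quo_ne c v)

theorem t_dd (v : HeightOneSpectrum (𝓞 F)) : c.t c.lam 2 (dd c v) = 0 := by
  have h20 : (2 : F) ≠ 0 := two_ne_zero
  unfold dd
  rw [tmul' c _ (pow_ne_zero _ (z_ne c)) (quo_ne c v) h20, t_pow' c _ (z_ne c) h20, ZMod.natCast_zmod_val]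
  unfold ee
  rw [div_mul_cancel₀ _ (t_lam_two c), neg_add_cancel]

theorem conj_pow_z (n : ℕ) : c.σ (c.ζ ^ n) = (c.ζ ^ n)⁻¹ := by
  apply eq_inv_of_mul_eq_one_left
  rw [map_pow, c.conj, ← pow_mul, ← pow_add]
  have h1 : 2 * n + n = 3 * n := by ring
  rw [h1, pow_mul, z_cube, one_pow]

theorem conj_dd (v : HeightOneSpectrum (𝓞 F)) : c.σ (dd c v) = (dd c v)⁻¹ := by
  unfold dd
  rw [map_mul, conj_pow_z, map_div₀, c.inv, mul_inv, inv_div]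

theorem vl_conj_pi (v w : HeightOneSpectrum (𝓞 F)) : vl 3 w (c.σ (c.π v)) = vl 3 (cj c.σ w) (c.π v) := by
  rw [← vl_cj c.σ 3 w (c.σ (c.π v)), c.inv]

theorem vl_pi_self (v : HeightOneSpectrum (𝓞 F)) : vl 3 v (c.π v) = 1 := by
  unfold vl
  rw [c.pv, WithZero.log_exp]
  simp

theorem vl_pi_ne {v w : HeightOneSpectrum (𝓞 F)} (h : w ≠ v) : vl 3 w (c.π v) = 0 :=
  vl_of_val_one w (c.pw v w h)

theorem vl_dd (v w : HeightOneSpectrum (𝓞 F)) :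
    vl 3 w (dd c v) = vl 3 w (c.π v) - vl 3 (cj c.σ w) (c.π v) := by
  have h1 : c.σ (c.π v) ≠ 0 := by
    rw [Ne, map_eq_zero_iff _ c.σ.injective]
    exact pi_ne c v
  unfold dd
  rw [vl_mul t_BAS w (pow_ne_zero _ (z_ne c)) (quo_ne c v), vl_pow t_BAS w (z_ne c), vl_z, mul_zero, zero_add,
    vl_div t_BAS w (pi_ne c v) h1, vl_conj_pi]

theorem vl_dd_self {v : HeightOneSpectrum (𝓞 F)} (h : D1 v) : vl 3 v (dd c v) = 1 := by
  rw [vl_dd, vl_pi_self, vl_pi_ne c (d1_cj_ne c h), sub_zero]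

theorem vl_dd_conj {v : HeightOneSpectrum (𝓞 F)} (h : D1 v) : vl 3 (cj c.σ v) (dd c v) = -1 := by
  rw [vl_dd, cj_cj c.σ c.inv, vl_pi_self, vl_pi_ne c (d1_cj_ne c h), zero_sub]

theorem vl_dd_ne {v w : HeightOneSpectrum (𝓞 F)} (h1 : w ≠ v) (h2 : w ≠ cj c.σ v) : vl 3 w (dd c v) = 0 := by
  have h3 : cj c.σ w ≠ v := by
    intro h
    apply h2
    rw [← h, cj_cj c.σ c.inv]
  rw [vl_dd, vl_pi_ne c h1, vl_pi_ne c h3, sub_zero]

/-- `v` and `w` lie above different prime numbers -/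
def Apt (v w : HeightOneSpectrum (𝓞 F)) : Prop := Ideal.absNorm v.asIdeal ≠ Ideal.absNorm w.asIdeal

theorem apt_ne {v w : HeightOneSpectrum (𝓞 F)} (h : Apt v w) : w ≠ v ∧ w ≠ cj c.σ v := by
  constructor
  · rintro rfl
    exact h rfl
  · rintro rfl
    exact h (norm_cj c.σ v).symm

/-- **reciprocity** -/
theorem swap {v w : HeightOneSpectrum (𝓞 F)} (hv : D1 v) (hw : D1 w) (h : Apt v w) :
    sy 3 c.ζ w (dd c v) = sy 3 c.ζ v (nq w) := by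
  classical
  obtain ⟨h1, h2⟩ := apt_ne c h
  have hv3 := d1_ndp hv
  have hw3 := d1_ndp hw
  have hv3' : ¬ Dp 3 (cj c.σ v) := by rwa [dp_cj]
  have hw3' : ¬ Dp 3 (cj c.σ w) := by rwa [dp_cj]
  have h1' : v ≠ w := h1.symm
  have h2' : v ≠ cj c.σ w := by
    intro h3
    apply h2
    rw [h3, cj_cj c.σ c.inv]
  have h4 : cj c.σ v ≠ cj c.σ w := by
    intro h5
    apply h1
    rw [← cj_cj c.σ c.inv w, ← h5, cj_cj c.σ c.inv]
  have hl : ∀ x : HeightOneSpectrum (𝓞 F), ¬ Dp 3 x → x ≠ c.lam := fun x hx h5 => hx (h5 ▸ c.dlam)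
  have e1 : vl 3 w (dd c v) = 0 := vl_dd_ne c h1 h2
  have e2 : vl 3 (cj c.σ w) (dd c v) = 0 := vl_dd_ne c h2'.symm h4.symm
  have e3 : vl 3 v (nq w : F) = 0 := vl_out c hw h1' h2'
  have e4 : vl 3 (cj c.σ v) (nq w : F) = 0 := vl_out c hw h2.symm h4
  have hs := tsum_eq c (nq_ne c hw) (dd_ne c v) {w, cj c.σ w, v, cj c.σ v} (by
    intro x hx
    simp only [Finset.mem_insert, Finset.mem_singleton, not_or] at hx
    by_cases hx3 : Dp 3 x
    · rw [c.ulam x hx3]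
      obtain ⟨hq, hq1, -⟩ := d1_prime c hw
      exact t_lam_nat c (dd_ne c v) (t_dd c v) (by omega)
    · rw [c.tame x hx3 _ (dd_ne c v) (vl_dd_ne c hx.2.2.1 hx.2.2.2) _ (nq_ne c hw),
        vl_out c hw hx.1 hx.2.1, zero_mul])
  rw [Finset.sum_insert (by
      simp only [Finset.mem_insert, Finset.mem_singleton, not_or]
      exact ⟨(d1_cj_ne c hw).symm, h1, h2⟩),
    Finset.sum_insert (by
      simp only [Finset.mem_insert, Finset.mem_singleton, not_or]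
      exact ⟨h2'.symm, h4.symm⟩),
    Finset.sum_pair (d1_cj_ne c hv).symm,
    c.tame w hw3 _ (dd_ne c v) e1 _ (nq_ne c hw), vl_in c hw,
    c.tame _ hw3' _ (dd_ne c v) e2 _ (nq_ne c hw), vl_in' c hw,
    sy_cj_minus c hw3 (dd_ne c v) e1 (conj_dd c v),
    tame' c hv3 (nq_ne c hw) (dd_ne c v) e3, vl_dd_self c hv,
    tame' c hv3' (nq_ne c hw) (dd_ne c v) e4, vl_dd_conj c hv,
    sy_cj_plus c hv3 (nq_ne c hw) e3 (conj_nq c.σ w)] at hs
  generalize sy 3 c.ζ w (dd c v) = x at hs ⊢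
  generalize sy 3 c.ζ v (nq w) = y at hs ⊢
  revert x y
  decide

end

end Pool.Agent.H16.CC
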